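import Mathlib

/-!
# Names of unbounded sets of ordinals over a forcing notion with the countable chain condition
-/

set_option autoImplicit false
set_option linter.unusedSectionVars false
set_option linter.unusedVariables false

namespace Pool.Agent.Helper161.Gam

open Cardinal

section Rel

variable {Γ : Type} (L : Γ → Γ → Prop)

/-- `p` forces that the generic filter meets `N` -/
def mts (N : Set Γ) : Set Γ := {p | ∀ q, L q p → ∃ r, L r q ∧ ∃ s ∈ N, L r s}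

/-- closed downwards -/
def DownL (A : Set Γ) : Prop := ∀ p ∈ A, ∀ q, L q p → q ∈ A

/-- `r` forces that the set of the `α` with `A α` met is unbounded -/
def Unb {Ω : Type} [LinearOrder Ω] (A : Ω → Set Γ) : Set Γ :=
  {r | ∀ r', L r' r → ∀ β, ∃ α, β < α ∧ ∃ r'', L r'' r' ∧ r'' ∈ A α}

/-- a preorder with the countable chain condition (in the form of countable predense sets) -/
structure Nice : Prop where
  refl : ∀ p, L p p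
  trans : ∀ p q r, L p q → L q r → L p r
  pred : ∀ D : Set Γ, ∃ B ⊆ D, B.Countable ∧ ∀ d ∈ D, ∃ b ∈ B, ∃ r, L r b ∧ L r d

/-- families of size at most `ℵ₁` are bounded -/
def Reg (Ω : Type) [LinearOrder Ω] : Prop :=
  ∀ S : Type, #S ≤ ℵ_ 1 → ∀ g : S → Ω, ∃ β, ∀ s, g s < β

/-- unbounded sets -/
def Ubd {Ω : Type} [LinearOrder Ω] (B : Set Ω) : Prop := ∀ β, ∃ α ∈ B, β < α

end Rel

section RelLemmas

variable {Γ : Type} {L : Γ → Γ → Prop} {Ω : Type} [LinearOrder Ω]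

theorem mts_down (hL : Nice L) (N : Set Γ) : DownL L (mts L N) :=
  fun p hp q hq r hr => hp r (hL.trans _ _ _ hr hq)

theorem mts_of_dense (hL : Nice L) {N : Set Γ} {p : Γ}
    (h : ∀ q, L q p → ∃ r, L r q ∧ r ∈ mts L N) : p ∈ mts L N := by
  intro q hq
  obtain ⟨r, hr, hr'⟩ := h q hq
  obtain ⟨t, ht, s, hs, hts⟩ := hr' r (hL.refl r)
  exact ⟨t, hL.trans _ _ _ ht hr, s, hs, hts⟩

theorem mem_mts (hL : Nice L) {N : Set Γ} {p s : Γ} (hs : s ∈ N) (h : L p s) : p ∈ mts L N :=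
  fun q hq => ⟨q, hL.refl q, s, hs, hL.trans _ _ _ hq h⟩

theorem unb_down (hL : Nice L) (A : Ω → Set Γ) : DownL L (Unb L A) :=
  fun _ hp _ hq r' hr' β => hp r' (hL.trans _ _ _ hr' hq) β

theorem unb_of_dense (hL : Nice L) {A : Ω → Set Γ} {r : Γ}
    (h : ∀ r', L r' r → ∃ r'', L r'' r' ∧ r'' ∈ Unb L A) : r ∈ Unb L A := by
  intro r' hr' β
  obtain ⟨t, ht, ht'⟩ := h r' hr'
  obtain ⟨α, hα, s, hs, hs'⟩ := ht' t (hL.refl t) β
  exact ⟨α, hα, s, hL.trans _ _ _ hs ht, hs'⟩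

theorem unb_mono {A A' : Ω → Set Γ} (h : ∀ α, A α ⊆ A' α) {r : Γ} (hr : r ∈ Unb L A) :
    r ∈ Unb L A' := by
  intro r' hr' β
  obtain ⟨α, hα, s, hs, hs'⟩ := hr r' hr' β
  exact ⟨α, hα, s, hs, h α hs'⟩


theorem bd (hL : Nice L) (hΩ : Reg Ω) (A : Ω → Set Γ) (hA : ∀ α, DownL L (A α)) :
    ∃ β, ∀ α, β < α → ∀ r ∈ A α, ∃ r', L r' r ∧ r' ∈ Unb L A := by
  obtain ⟨B, hBD, hBc, hB⟩ := hL.pred {r | ∃ γ : Ω, ∀ α, γ < α → ∀ r'', L r'' r → r'' ∉ A α}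
  have hγ : ∀ b : B, ∃ γ : Ω, ∀ α, γ < α → ∀ r'', L r'' (b : Γ) → r'' ∉ A α := fun b => hBD b.2
  choose γ hγ using hγ
  have hcard : #B ≤ ℵ_ 1 := by
    refine le_trans (Cardinal.le_aleph0_iff_set_countable.2 hBc) ?_
    exact Cardinal.aleph0_le_aleph 1
  obtain ⟨β, hβ⟩ := hΩ B hcard γ
  refine ⟨β, fun α hα r hr => ?_⟩
  by_contra hcon
  push Not at hcon
  have h1 : r ∉ Unb L A := hcon r (hL.refl r)
  simp only [Unb, Set.mem_ofPred_eq] at h1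
  push Not at h1
  obtain ⟨r1, hr1, γ1, h2⟩ := h1
  obtain ⟨b, hb, r2, hr2b, hr21⟩ := hB r1 ⟨γ1, h2⟩
  have h3 : r2 ∈ A α := hA α r hr r2 (hL.trans _ _ _ hr21 hr1)
  exact hγ ⟨b, hb⟩ α ((hβ ⟨b, hb⟩).trans hα) r2 hr2b h3


theorem bd_fam (hL : Nice L) (hΩ : Reg Ω) {S : Type} (hS : #S ≤ ℵ_ 1) (A : S → Ω → Set Γ)
    (hA : ∀ s α, DownL L (A s α)) :
    ∃ β, ∀ s α, β < α → ∀ r ∈ A s α, ∃ r', L r' r ∧ r' ∈ Unb L (A s) := by
  choose β hβ using fun s => bd hL hΩ (A s) (hA s)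
  obtain ⟨γ, hγ⟩ := hΩ S hS β
  exact ⟨γ, fun s α hα r hr => hβ s α ((hγ s).trans hα) r hr⟩


theorem unb_split (hL : Nice L) (hΩ : Reg Ω) {S : Type} (hS : #S ≤ ℵ_ 1) (A : Ω → Set Γ)
    (B : S → Ω → Set Γ) (hB : ∀ s α, DownL L (B s α))
    (hAB : ∀ α, ∀ t ∈ A α, ∃ t', L t' t ∧ ∃ s, t' ∈ B s α) {r : Γ} (hr : r ∈ Unb L A) :
    ∃ r', L r' r ∧ ∃ s, r' ∈ Unb L (B s) := by
  obtain ⟨β, hβ⟩ := bd_fam hL hΩ hS B hB
  obtain ⟨α, hα, t, ht, htA⟩ := hr r (hL.refl r) β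
  obtain ⟨t', ht', s, hs⟩ := hAB α t htA
  obtain ⟨t'', ht'', hu⟩ := hβ s α hα t' hs
  exact ⟨t'', hL.trans _ _ _ ht'' (hL.trans _ _ _ ht' ht), s, hu⟩


theorem pig (hΩ : Reg Ω) {B : Set Ω} (hB : Ubd B) {S : Type} (hS : #S ≤ ℵ_ 1) (f : Ω → S) :
    ∃ s, Ubd {α | α ∈ B ∧ f α = s} := by
  by_contra hcon
  have h1 : ∀ s : S, ∃ β : Ω, ∀ α, α ∈ B → f α = s → ¬ β < α := by
    intro s
    by_contra h2
    refine hcon ⟨s, ?_⟩
    intro β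
    by_contra h3
    refine h2 ⟨β, ?_⟩
    intro α hα hf hlt
    exact h3 ⟨α, ⟨hα, hf⟩, hlt⟩
  choose g hg using h1
  obtain ⟨β, hβ⟩ := hΩ S hS g
  obtain ⟨α, hα, hlt⟩ := hB β
  exact hg (f α) α hα rfl ((hβ (f α)).trans hlt)

/-- a weak form of the Delta system lemma. -/
theorem wdelta (hΩ : Reg Ω) {B : Set Ω} (hB : Ubd B) {J : Type} [DecidableEq J]
    (f : Ω → Finset J) :
    ∃ B' ⊆ B, Ubd B' ∧ ∃ R : Finset J, (∀ α ∈ B', R ⊆ f α) ∧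
      ∀ i, i ∉ R → ∃ β, ∀ α ∈ B', β < α → i ∉ f α := by
  classical
  obtain ⟨n, hn⟩ := pig hΩ hB (S := ℕ) (by
    rw [Cardinal.mk_nat]; exact Cardinal.aleph0_le_aleph 1) (fun α => (f α).card)
  obtain ⟨β0, -⟩ := hΩ Empty (by simp) (fun s => s.elim)
  let Q : ℕ → Prop := fun k => ∃ R : Finset J, R.card = k ∧
    Ubd {α | α ∈ {α | α ∈ B ∧ (f α).card = n} ∧ R ⊆ f α}
  have hQ0 : Q 0 := by
    refine ⟨∅, Finset.card_empty, fun β => ?_⟩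
    obtain ⟨α, h1, h2⟩ := hn β
    exact ⟨α, ⟨h1, Finset.empty_subset _⟩, h2⟩
  have hQn : ∀ k, Q k → k ≤ n := by
    rintro k ⟨R, hR, hU⟩
    obtain ⟨α, ⟨⟨_, h1⟩, h2⟩, _⟩ := hU β0
    rw [← hR, ← h1]
    exact Finset.card_le_card h2
  have hk := Nat.findGreatest_spec (P := Q) (Nat.zero_le n) hQ0
  have hk1 : ¬ Q (Nat.findGreatest Q n + 1) := by
    intro h
    have := Nat.le_findGreatest (hQn _ h) h
    omega
  obtain ⟨R, hR, hU⟩ := hk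
  refine ⟨{α | α ∈ {α | α ∈ B ∧ (f α).card = n} ∧ R ⊆ f α}, fun α h => h.1.1, hU, R,
    fun α h => h.2, fun i hi => ?_⟩
  by_contra hcon
  push Not at hcon
  apply hk1
  refine ⟨insert i R, by rw [Finset.card_insert_of_notMem hi, hR], fun β => ?_⟩
  obtain ⟨α, h1, h2, h3⟩ := hcon β
  exact ⟨α, ⟨h1.1, Finset.insert_subset h3 h1.2⟩, h2⟩


theorem ctbl_mts (hL : Nice L) (N : Set Γ) :
    ∃ N' : Set Γ, N'.Countable ∧ (∀ r ∈ N', ∃ s ∈ N, L r s) ∧ mts L N' = mts L N := by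
  obtain ⟨B, hBD, hBc, hB⟩ := hL.pred {r | ∃ s ∈ N, L r s}
  refine ⟨B, hBc, fun r hr => hBD hr, ?_⟩
  ext p
  constructor
  · intro hp q hq
    obtain ⟨r, hr, b, hb, hrb⟩ := hp q hq
    obtain ⟨s, hs, hbs⟩ := hBD hb
    exact ⟨r, hr, s, hs, hL.trans _ _ _ hrb hbs⟩
  · intro hp q hq
    obtain ⟨r, hr, s, hs, hrs⟩ := hp q hq
    obtain ⟨b, hb, t, htb, htr⟩ := hB r ⟨s, hs, hrs⟩
    exact ⟨t, hL.trans _ _ _ htr hr, b, hb, htb⟩

end RelLemmas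

section Pos

variable {Γ : Type} {Ω : Type} [LinearOrder Ω]

/-- the members `t` of `A α` which decide the digit of number `y.2`, where `y` is the `n`-th
member of the sequence `st t`, of the real number with index `α` as `c` -/
def Pos (st : Γ → List (ℕ × ℕ)) (Dz : Ω → ℕ → ℤ → Set Γ) (A : Ω → Set Γ) (n : ℕ) (c : ℤ) :
    Ω → Set Γ := fun α => {t | t ∈ A α ∧ ∃ y, (st t)[n]? = some y ∧ t ∈ Dz α y.2 c}

/-- densely below `r` there are `3 n + 1` heavy codes -/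
def Gd (L : Γ → Γ → Prop) (st : Γ → List (ℕ × ℕ)) (Dz : Ω → ℕ → ℤ → Set Γ) (A : Ω → Set Γ)
    (n : ℕ) : Set Γ :=
  {r | ∀ r1, L r1 r → ∃ r2, L r2 r1 ∧ ∃ C : Finset ℤ, C.card = 3 * n + 1 ∧
    ∀ c ∈ C, r2 ∈ Unb L (Pos st Dz A n c)}

variable {L : Γ → Γ → Prop}

theorem gd_down (hL : Nice L) (st : Γ → List (ℕ × ℕ)) (Dz : Ω → ℕ → ℤ → Set Γ) (A : Ω → Set Γ)
    (n : ℕ) : DownL L (Gd L st Dz A n) :=
  fun _ hp _ hq r1 hr1 => hp r1 (hL.trans _ _ _ hr1 hq)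

theorem gd_of_dense (hL : Nice L) {st : Γ → List (ℕ × ℕ)} {Dz : Ω → ℕ → ℤ → Set Γ}
    {A : Ω → Set Γ} {n : ℕ} {r : Γ}
    (h : ∀ r', L r' r → ∃ r'', L r'' r' ∧ r'' ∈ Gd L st Dz A n) : r ∈ Gd L st Dz A n := by
  intro r' hr'
  obtain ⟨t, ht, ht'⟩ := h r' hr'
  obtain ⟨s, hs, hs'⟩ := ht' t (hL.refl t)
  exact ⟨s, hL.trans _ _ _ hs ht, hs'⟩


theorem psi_unb (hL : Nice L) (hΩ : Reg Ω) (A : Ω → Set Γ) (B : ℕ → Ω → Set Γ)
    (hB : ∀ v α, DownL L (B v α)) (hmono : ∀ v v' α, v ≤ v' → B v α ⊆ B v' α)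
    (hAB : ∀ α, ∀ t ∈ A α, ∃ t', L t' t ∧ ∃ v, t' ∈ B v α) {r : Γ} (hr : r ∈ Unb L A) :
    ∃ r', L r' r ∧ ∃ v, ∀ v', v ≤ v' → r' ∈ Unb L (B v') := by
  obtain ⟨r', hr', v, hv⟩ := unb_split hL hΩ (S := ℕ)
    (by rw [Cardinal.mk_nat]; exact Cardinal.aleph0_le_aleph 1) A B hB hAB hr
  exact ⟨r', hr', v, fun v' h => unb_mono (fun α => hmono v v' α h) hv⟩


theorem psi_gd (hL : Nice L) (hΩ : Reg Ω) (st : Γ → List (ℕ × ℕ)) (Dz : Ω → ℕ → ℤ → Set Γ)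
    (A : Ω → Set Γ) (B : ℕ → Ω → Set Γ) (hB : ∀ v α, DownL L (B v α))
    (hmono : ∀ v v' α, v ≤ v' → B v α ⊆ B v' α)
    (hAB : ∀ α, ∀ t ∈ A α, ∃ t', L t' t ∧ ∃ v, t' ∈ B v α) (n : ℕ)
    (hPos : ∀ c α, DownL L (Pos st Dz A n c α)) (hPosB : ∀ v c α, DownL L (Pos st Dz (B v) n c α))
    {r : Γ} (hr : r ∈ Gd L st Dz A n) :
    ∃ r', L r' r ∧ ∃ v, ∀ v', v ≤ v' → ∀ st' : Γ → List (ℕ × ℕ),
      (∀ t y, (st t)[n]? = some y → (st' t)[n]? = some y) → r' ∈ Gd L st' Dz (B v') n := by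
  obtain ⟨r2, hr2, C, hC, hCu⟩ := hr r (hL.refl r)
  have key : ∀ C' : Finset ℤ, C' ⊆ C → ∃ r4, L r4 r2 ∧ ∃ v, ∀ v', v ≤ v' → ∀ c ∈ C',
      r4 ∈ Unb L (Pos st Dz (B v') n c) := by
    intro C'
    induction C' using Finset.induction_on with
    | empty => exact fun _ => ⟨r2, hL.refl r2, 0, fun _ _ c hc => absurd hc (Finset.notMem_empty c)⟩
    | insert c C' hcC' ih =>
      intro hsub
      obtain ⟨r4, hr4, v, hv⟩ := ih (fun x hx => hsub (Finset.mem_insert_of_mem hx))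
      have h1 : r4 ∈ Unb L (Pos st Dz A n c) :=
        unb_down hL _ _ (hCu c (hsub (Finset.mem_insert_self c C'))) _ hr4
      obtain ⟨r5, hr5, v5, hv5⟩ := psi_unb hL hΩ (Pos st Dz A n c)
        (fun v => Pos st Dz (B v) n c) (fun v α => hPosB v c α)
        (fun v v' α hvv t ht => ⟨hmono v v' α hvv ht.1, ht.2⟩)
        (fun α t ht => by
          obtain ⟨t', ht', v, hv⟩ := hAB α t ht.1
          have h2 := hPos c α t ht t' ht'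
          exact ⟨t', ht', v, hv, h2.2⟩) h1
      refine ⟨r5, hL.trans _ _ _ hr5 hr4, max v v5, fun v' hv' c' hc' => ?_⟩
      rcases Finset.mem_insert.1 hc' with h3 | h3
      · rw [h3]
        exact hv5 v' ((le_max_right _ _).trans hv')
      · exact unb_down hL _ _ (hv v' ((le_max_left _ _).trans hv') c' h3) _ hr5
  obtain ⟨r4, hr4, v, hv⟩ := key C (Finset.Subset.refl C)
  refine ⟨r4, hL.trans _ _ _ hr4 hr2, v, fun v' hv' st' hst r1 hr1 => ?_⟩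
  refine ⟨r1, hL.refl r1, C, hC, fun c hc => ?_⟩
  refine unb_mono (fun α t ht => ?_) (unb_down hL _ _ (hv v' hv' c hc) _ hr1)
  obtain ⟨h1, y, h2, h3⟩ := ht
  exact ⟨h1, y, hst t y h2, h3⟩

end Pos

end Pool.Agent.Helper161.Gam
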