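import Mathlib

/-!
# The forcing language and the statements about sets of real numbers
-/

set_option autoImplicit false
set_option linter.unusedSectionVars false
set_option linter.unusedVariables false

namespace Pool.Agent.Helper161.Gam

open Cardinal

section Lang

universe v w

variable {P : Type} [Preorder P]

/-- `p` forces `not φ` iff no `q ≤ p` forces `φ`. -/
def fnot (φ : Set P) : Set P := {p | ∀ q ≤ p, q ∉ φ}

/-- `p` forces `φ and ψ` iff it forces both. -/
def fand (φ ψ : Set P) : Set P := {p | p ∈ φ ∧ p ∈ ψ}

/-- `p` forces `for all i, φ i` iff it forces every `φ i`. -/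
def fall {ι : Sort v} (φ : ι → Set P) : Set P := {p | ∀ i, p ∈ φ i}

/-- `φ implies ψ` is `not (φ and not ψ)`. -/
def fimp (φ ψ : Set P) : Set P := fnot (fand φ (fnot ψ))

/-- `there is i with φ i` is `not for all i, not φ i`. -/
def fex {ι : Sort v} (φ : ι → Set P) : Set P := fnot (fall fun i => fnot (φ i))

/-- An absolute statement about ground model objects. -/
def fground (h : Prop) : Set P := {_p | h}

/-- `p` forces that the generic filter meets the set `N` of conditions:
the set of `r` lying below some member of `N` is dense below `p`. -/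
def meets (N : Set P) : Set P := {p | ∀ q ≤ p, ∃ r ≤ q, ∃ s ∈ N, r ≤ s}

/-- The relation named by `R` is a function from `X` to `Y`. -/
def IsFun {X : Type v} {Y : Type w} (R : X → Y → Set P) : Set P :=
  fand (fall fun x => fex fun y => meets (R x y))
    (fall fun x => fall fun y => fall fun y' =>
      fimp (fand (meets (R x y)) (meets (R x y'))) (fground (y = y')))

/-- A name of a real number `x`: `z v c` is the name of the statement `⌊2 ^ v * x⌋ = c`. -/
abbrev RName (P : Type) : Type := ℕ → ℤ → Set P

/-- `z` names a real number `x`, given by the integers `z v = ⌊2 ^ v * x⌋`: these are exactly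
the functions `z : ℕ → ℤ` with `z (v + 1) ∈ {2 * z v, 2 * z v + 1}` for all `v`, and
`z (v + 1) = 2 * z v` for infinitely many `v`. -/
def IsReal (z : RName P) : Set P :=
  fand (IsFun z)
    (fand
      (fall fun v => fall fun c => fall fun c' =>
        fimp (fand (meets (z v c)) (meets (z (v + 1) c'))) (fground (c' = 2 * c ∨ c' = 2 * c + 1)))
      (fall fun v => fex fun n => fex fun c =>
        fand (fground (v ≤ n)) (fand (meets (z n c)) (meets (z (n + 1) (2 * c))))))

/-- The real numbers named by `x` and `y` are different. -/
def RealNe (x y : RName P) : Set P :=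
  fex fun v => fex fun c => fex fun c' =>
    fand (fground (c ≠ c')) (fand (meets (x v c)) (meets (y v c')))

/-- The real number named by `x` is in the open interval with rational end points `I`. -/
def InI (x : RName P) (I : ℚ × ℚ) : Set P :=
  fex fun v => fex fun c =>
    fand (meets (x v c)) (fground (I.1 < (c : ℚ) / 2 ^ v ∧ ((c : ℚ) + 1) / 2 ^ v ≤ I.2))

/-- `O` names a set of rational intervals; the real number named by `x` is in its union, the open
set named by `O`. -/
def InO (x : RName P) (O : ℚ × ℚ → Set P) : Set P :=
  fex fun I => fand (meets (O I)) (InI x I)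

/-- The sequence of real numbers `y` does not enumerate the set `X`, for any `y`. -/
def NotCountable {E : Type} (X : E → RName P) : Set P :=
  fall fun y : ℕ → RName P =>
    fimp (fall fun n => IsReal (y n)) (fex fun e => fall fun n => RealNe (X e) (y n))

/-- The open sets `U t`, `t ∈ T`, (more precisely their traces on `X = {X e : e ∈ E}`) form an
`ω`-cover of `X`: no `U t` contains `X`, and each finite subset of `X` is contained in some
`U t`. -/
def OmegaCover {E T : Type} (X : E → RName P) (U : T → ℚ × ℚ → Set P) : Set P :=
  fand (fall fun t => fex fun e => fnot (InO (X e) (U t)))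
    (fall fun F : Finset E => fex fun t => fall fun e => fall fun _ : e ∈ F => InO (X e) (U t))

/-- The open sets `O` and `O'` have the same trace on `X`. -/
def SameTrace {E : Type} (X : E → RName P) (O O' : ℚ × ℚ → Set P) : Set P :=
  fall fun e => fand (fimp (InO (X e) O) (InO (X e) O')) (fimp (InO (X e) O') (InO (X e) O))

/-- The family of the traces of the open sets `V n`, `n ∈ ℕ`, on `X` is infinite, and each element
of `X` is in all but finitely many members of this family. -/
def GammaCover {E : Type} (X : E → RName P) (V : ℕ → ℚ × ℚ → Set P) : Set P :=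
  fand
    (fnot (fex fun m : ℕ => fall fun n : ℕ => fex fun k : ℕ =>
      fand (fground (k < m)) (SameTrace X (V n) (V k))))
    (fall fun e => fex fun m : ℕ => fall fun n : ℕ =>
      fimp (fnot (InO (X e) (V n)))
        (fex fun k : ℕ => fand (fground (k < m)) (SameTrace X (V n) (V k))))

/-- The name of the open set `U n (s n)`, where `s` is a function from `ℕ` to `T`. -/
def Sel {T : Type} (U : ℕ → T → ℚ × ℚ → Set P) (s : ℕ → T → Set P) (n : ℕ) (I : ℚ × ℚ) : Set P :=
  {p | ∃ t, p ∈ meets (s n t) ∧ p ∈ meets (U n t I)}

/-- The set `X = {X e : e ∈ E}` satisfies `S₁(Ω, Γ)`: for each sequence of `ω`-covers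
`{U n t : t ∈ T}` there is a function `s` such that `{U n (s n) : n ∈ ℕ}` is a `γ`-cover. -/
def GammaSet {E : Type} (X : E → RName P) : Set P :=
  fall fun T : Type => fall fun U : ℕ → T → ℚ × ℚ → Set P =>
    fimp (fall fun n => OmegaCover X (U n))
      (fex fun s : ℕ → T → Set P => fand (IsFun s) (GammaCover X (Sel U s)))

/-- the `s`-th power of the length of an interval -/
noncomputable def wt (s : ℝ) (I : ℚ × ℚ) : ℝ := (max (((I.2 - I.1 : ℚ) : ℝ)) 0) ^ s

/-- the `s`-th power of the sum of the side lengths of a rectangle -/
noncomputable def wt2 (s : ℝ) (B : (ℚ × ℚ) × (ℚ × ℚ)) : ℝ :=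
  (max (((B.1.2 - B.1.1 : ℚ) : ℝ)) 0 + max (((B.2.2 - B.2.1 : ℚ) : ℝ)) 0) ^ s

/-- The sum of the numbers `W (J i)`, `i ∈ ℕ`, is at most `ε`. -/
def SumLE {B : Type} (W : B → ℝ) (J : ℕ → B → Set P) (ε : ℝ) : Set P :=
  fall fun F : Finset ℕ => fall fun b : ℕ → B =>
    fimp (fall fun i => fall fun _ : i ∈ F => meets (J i (b i))) (fground (∑ i ∈ F, W (b i) ≤ ε))

/-- The sequence of intervals `J` covers `Y`, and the sum of the `s`-th powers of the lengths is
at most `ε`. -/
def Cov {E : Type} (s ε : ℚ) (Y : E → RName P) (J : ℕ → ℚ × ℚ → Set P) : Set P :=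
  fand (fand (IsFun J) (SumLE (wt s) J ε))
    (fall fun e => fex fun i => fex fun I => fand (meets (J i I)) (InI (Y e) I))

/-- The Hausdorff dimension of `Y = {Y e : e ∈ E}` is `0`: for all `s > 0` and `ε > 0` the set
is covered by a sequence of intervals such that the sum of the `s`-th powers of the lengths is at
most `ε`. -/
def DimZero {E : Type} (Y : E → RName P) : Set P :=
  fall fun s : ℚ => fall fun _ : 0 < s => fall fun ε : ℚ => fall fun _ : 0 < ε =>
    fex fun J : ℕ → ℚ × ℚ → Set P => Cov s ε Y J

/-- The Hausdorff dimension of the product `X × Y` is `0`: for all `s > 0` and `ε > 0` the set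
is covered by a sequence of rectangles such that the sum of the `s`-th powers of the sums of the
side lengths is at most `ε`. -/
def DimZeroProd {E E' : Type} (X : E → RName P) (Y : E' → RName P) : Set P :=
  fall fun s : ℚ => fall fun _ : 0 < s => fall fun ε : ℚ => fall fun _ : 0 < ε =>
    fex fun J : ℕ → (ℚ × ℚ) × (ℚ × ℚ) → Set P =>
      fand (fand (IsFun J) (SumLE (wt2 s) J ε))
        (fall fun e => fall fun e' => fex fun i => fex fun B =>
          fand (meets (J i B)) (fand (InI (X e) B.1) (InI (Y e') B.2)))

/-- the countable chain condition -/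
def CCC (P : Type) [Preorder P] : Prop :=
  ∀ A : Set P, (∀ a ∈ A, ∀ b ∈ A, (∃ r, r ≤ a ∧ r ≤ b) → a = b) → A.Countable

end Lang

section Conditions

variable (P : Type) [Preorder P]

/-- Statement (i): there is an uncountable set `X` of real numbers which satisfies
`S₁(Ω, Γ)`. -/
def StatementI : Set P :=
  fex fun E : Type => fex fun X : E → RName P =>
    fand (fall fun e => IsReal (X e)) (fand (NotCountable X) (GammaSet X))

/-- Statement (ii): if the set `X` of real numbers satisfies `S₁(Ω, Γ)` and the set `Y` of real
numbers has Hausdorff dimension `0`, then the product `X × Y` has Hausdorff dimension `0`. -/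
def StatementII : Set P :=
  fall fun E : Type => fall fun X : E → RName P => fall fun E' : Type =>
    fall fun Y : E' → RName P =>
      fimp (fand (fand (fall fun e => IsReal (X e)) (fall fun e => IsReal (Y e)))
        (fand (GammaSet X) (DimZero Y))) (DimZeroProd X Y)

end Conditions

end Pool.Agent.Helper161.Gam
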