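import Mathlib
import Pool.Agent.Helper161.Gam.Rel
import Pool.Agent.Helper161.Gam.Statement

/-!
# Consequences, over an abstract forcing notion
-/

set_option autoImplicit false
set_option linter.unusedSectionVars false
set_option linter.unusedVariables false

namespace Pool.Agent.Helper161.Gam

open Cardinal

section LangLemmas

universe v w

variable {P : Type} [Preorder P]

theorem mem_fex {ι : Sort v} {φ : ι → Set P} {p : P} :
    p ∈ fex φ ↔ ∀ q ≤ p, ∃ r ≤ q, ∃ i, r ∈ φ i := by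
  simp only [fex, fnot, fall, Set.mem_ofPred_eq, not_forall, not_not]
  constructor
  · intro h q hq
    obtain ⟨i, r, hr, h'⟩ := h q hq
    exact ⟨r, hr, i, h'⟩
  · intro h q hq
    obtain ⟨r, hr, i, h'⟩ := h q hq
    exact ⟨i, r, hr, h'⟩

theorem mem_fimp {φ ψ : Set P} {p : P} :
    p ∈ fimp φ ψ ↔ ∀ q ≤ p, q ∈ φ → ∃ r ≤ q, r ∈ ψ := by
  simp only [fimp, fnot, fand, Set.mem_ofPred_eq, not_and, not_forall, not_not]
  constructor
  · intro h q hq h'
    obtain ⟨r, hr, h''⟩ := h q hq h'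
    exact ⟨r, hr, h''⟩
  · intro h q hq h'
    obtain ⟨r, hr, h''⟩ := h q hq h'
    exact ⟨r, hr, h''⟩

theorem mem_fnot {φ : Set P} {p : P} : p ∈ fnot φ ↔ ∀ q ≤ p, q ∉ φ := Iff.rfl

theorem mem_fand {φ ψ : Set P} {p : P} : p ∈ fand φ ψ ↔ p ∈ φ ∧ p ∈ ψ := Iff.rfl

theorem mem_fall {ι : Sort v} {φ : ι → Set P} {p : P} : p ∈ fall φ ↔ ∀ i, p ∈ φ i := Iff.rfl

theorem mem_fground {h : Prop} {p : P} : p ∈ fground (P := P) h ↔ h := Iff.rfl

/-- The statement `φ` is preserved by passing to stronger conditions. -/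
def Down (φ : Set P) : Prop := ∀ p ∈ φ, ∀ q ≤ p, q ∈ φ

/-- The statement `φ` is forced if it is forced by densely many stronger conditions. -/
def Reglr (φ : Set P) : Prop := Down φ ∧ ∀ p, (∀ q ≤ p, ∃ r ≤ q, r ∈ φ) → p ∈ φ

theorem reglr_fnot {φ : Set P} (h : Down φ) : Reglr (fnot φ) :=
  ⟨fun _ hp _ hq r hr => hp r (hr.trans hq), fun p hp q hq hφ => by
    obtain ⟨r, hr, hr'⟩ := hp q hq
    exact hr' r le_rfl (h q hφ r hr)⟩

theorem down_fnot (φ : Set P) : Down (fnot φ) :=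
  fun _ hp _ hq r hr => hp r (hr.trans hq)

theorem down_fand {φ ψ : Set P} (h : Down φ) (h' : Down ψ) : Down (fand φ ψ) :=
  fun _ hp _ hq => ⟨h _ hp.1 _ hq, h' _ hp.2 _ hq⟩

theorem down_fall {ι : Sort v} {φ : ι → Set P} (h : ∀ i, Down (φ i)) : Down (fall φ) :=
  fun _ hp _ hq i => h i _ (hp i) _ hq

theorem reglr_fand {φ ψ : Set P} (h : Reglr φ) (h' : Reglr ψ) : Reglr (fand φ ψ) :=
  ⟨down_fand h.1 h'.1, fun p hp => ⟨h.2 p fun q hq => (hp q hq).imp fun _ hr => ⟨hr.1, hr.2.1⟩,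
    h'.2 p fun q hq => (hp q hq).imp fun _ hr => ⟨hr.1, hr.2.2⟩⟩⟩

theorem reglr_fall {ι : Sort v} {φ : ι → Set P} (h : ∀ i, Reglr (φ i)) : Reglr (fall φ) :=
  ⟨down_fall fun i => (h i).1, fun p hp i => (h i).2 p fun q hq =>
    (hp q hq).imp fun _ hr => ⟨hr.1, hr.2 i⟩⟩

theorem down_fex {ι : Sort v} (φ : ι → Set P) : Down (fex φ) := down_fnot _

theorem reglr_fex {ι : Sort v} (φ : ι → Set P) : Reglr (fex φ) :=
  reglr_fnot (down_fall fun _ => down_fnot _)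

theorem down_fimp (φ ψ : Set P) : Down (fimp φ ψ) := down_fnot _

theorem reglr_fimp {φ : Set P} (h : Down φ) (ψ : Set P) : Reglr (fimp φ ψ) :=
  reglr_fnot (down_fand h (down_fnot _))

theorem down_fground (h : Prop) : Down (fground (P := P) h) := fun _ hp _ _ => hp

theorem reglr_fground (h : Prop) : Reglr (fground (P := P) h) :=
  ⟨down_fground h, fun p hp => by
    obtain ⟨r, _, hr⟩ := hp p le_rfl
    exact hr⟩

theorem down_meets (N : Set P) : Down (meets N) :=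
  fun _ hp _ hq r hr => hp r (hr.trans hq)

theorem reglr_meets (N : Set P) : Reglr (meets N) :=
  ⟨down_meets N, fun p hp q hq => by
    obtain ⟨r, hr, hr'⟩ := hp q hq
    obtain ⟨t, ht, s, hs, hts⟩ := hr' r le_rfl
    exact ⟨t, ht.trans hr, s, hs, hts⟩⟩

theorem reglr_IsFun {X : Type v} {Y : Type w} (R : X → Y → Set P) : Reglr (IsFun R) :=
  reglr_fand (reglr_fall fun _ => reglr_fex _)
    (reglr_fall fun _ => reglr_fall fun _ => reglr_fall fun _ =>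
      reglr_fimp (down_fand (down_meets _) (down_meets _)) _)

theorem down_IsFun {X : Type v} {Y : Type w} (R : X → Y → Set P) : Down (IsFun R) :=
  (reglr_IsFun R).1

theorem mem_fex_of_mem {ι : Sort v} {φ : ι → Set P} {p : P} (i : ι) (hd : Down (φ i))
    (h : p ∈ φ i) : p ∈ fex φ :=
  mem_fex.2 fun q hq => ⟨q, le_rfl, i, hd _ h _ hq⟩

theorem meets_of_mem {N : Set P} {p : P} (h : p ∈ N) : p ∈ meets N :=
  fun q hq => ⟨q, le_rfl, p, h, hq⟩

/-- for a set closed downwards -/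
theorem exists_of_meets {N : Set P} (hN : Down N) {p : P} (h : p ∈ meets N) :
    ∃ q ≤ p, q ∈ N := by
  obtain ⟨r, hr, s, hs, hle⟩ := h p le_rfl
  exact ⟨r, hr, hN s hs r hle⟩

theorem IsFun.total {X : Type v} {Y : Type w} {R : X → Y → Set P} {p : P} (h : p ∈ IsFun R)
    (x : X) : ∃ q ≤ p, ∃ y, q ∈ meets (R x y) := mem_fex.1 (h.1 x) p le_rfl

theorem IsFun.unique {X : Type v} {Y : Type w} {R : X → Y → Set P} {p : P} (h : p ∈ IsFun R)
    {x : X} {y y' : Y} (h1 : p ∈ meets (R x y)) (h2 : p ∈ meets (R x y')) : y = y' := by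
  obtain ⟨r, _, hr⟩ := mem_fimp.1 (h.2 x y y') p le_rfl ⟨h1, h2⟩
  exact hr

theorem down_InI (x : RName P) (I : ℚ × ℚ) : Down (InI x I) := down_fex _

theorem reglr_InI (x : RName P) (I : ℚ × ℚ) : Reglr (InI x I) := reglr_fex _

theorem down_InO (x : RName P) (O : ℚ × ℚ → Set P) : Down (InO x O) := down_fex _

theorem reglr_IsReal (z : RName P) : Reglr (IsReal z) :=
  reglr_fand (reglr_IsFun z) (reglr_fand (reglr_fall fun _ => reglr_fall fun _ => reglr_fall fun _ =>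
    reglr_fimp (down_fand (down_meets _) (down_meets _)) _) (reglr_fall fun _ => reglr_fex _))

/-- membership in an interval, explicitly -/
theorem mem_InI {x : RName P} {I : ℚ × ℚ} {p : P} :
    p ∈ InI x I ↔ ∀ q ≤ p, ∃ r ≤ q, ∃ v c, r ∈ meets (x v c) ∧ I.1 < (c : ℚ) / 2 ^ v ∧
      ((c : ℚ) + 1) / 2 ^ v ≤ I.2 := by
  constructor
  · intro h q hq
    obtain ⟨r, hr, v, hv⟩ := mem_fex.1 h q hq
    obtain ⟨t, ht, c, hc⟩ := mem_fex.1 hv r le_rfl
    exact ⟨t, ht.trans hr, v, c, hc.1, hc.2⟩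
  · intro h
    refine mem_fex.2 fun q hq => ?_
    obtain ⟨r, hr, v, c, h1, h2⟩ := h q hq
    exact ⟨r, hr, v, mem_fex_of_mem c (down_fand (down_meets _) (down_fground _)) ⟨h1, h2⟩⟩

/-- membership in an open set, explicitly -/
theorem mem_InO {x : RName P} {O : ℚ × ℚ → Set P} {p : P} :
    p ∈ InO x O ↔ ∀ q ≤ p, ∃ r ≤ q, ∃ I, r ∈ meets (O I) ∧ r ∈ InI x I := mem_fex

theorem meets_eq (N : Set P) : meets N = mts (fun a b : P => a ≤ b) N := rfl


theorem nice_of_ccc (h : CCC P) : Nice (fun a b : P => a ≤ b) := by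
  refine ⟨fun p => le_rfl, fun p q r hpq hqr => le_trans hpq hqr, fun D => ?_⟩
  obtain ⟨B, hB⟩ := zorn_subset
    {B : Set P | B ⊆ D ∧ ∀ a ∈ B, ∀ b ∈ B, (∃ r, r ≤ a ∧ r ≤ b) → a = b} (by
      intro c hc hchain
      refine ⟨⋃₀ c, ⟨?_, ?_⟩, fun s hs => Set.subset_sUnion_of_mem hs⟩
      · exact Set.sUnion_subset fun s hs => (hc hs).1
      · rintro a ⟨s, hs, has⟩ b ⟨t, ht, hbt⟩ hab
        rcases hchain.total hs ht with hst | hts
        · exact (hc ht).2 a (hst has) b hbt hab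
        · exact (hc hs).2 a has b (hts hbt) hab)
  refine ⟨B, hB.prop.1, h B hB.prop.2, fun d hd => ?_⟩
  by_contra hcon
  push Not at hcon
  have hins : insert d B ⊆ B := by
    refine hB.le_of_ge (y := insert d B) ⟨?_, ?_⟩ (Set.subset_insert d B)
    · exact Set.insert_subset hd hB.prop.1
    · rintro a ha b hb ⟨r, hra, hrb⟩
      rcases ha with rfl | ha
      · rcases hb with rfl | hb
        · rfl
        · exact absurd hra (hcon b hb r hrb)
      · rcases hb with rfl | hb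
        · exact absurd hrb (hcon a ha r hra)
        · exact hB.prop.2 a ha b hb ⟨r, hra, hrb⟩
  exact hcon d (hins (Set.mem_insert d B)) d le_rfl le_rfl

theorem real_nest_aux {x : RName P} {v : ℕ} {c : ℤ} (k : ℕ) : ∀ (r : P) (c' : ℤ), r ∈ IsReal x →
    r ∈ meets (x v c) → r ∈ meets (x (v + k) c') → c' / 2 ^ k = c := by
  induction k with
  | zero =>
    intro r c' hr h1 h2
    rw [pow_zero, Int.ediv_one]
    exact IsFun.unique hr.1 h2 h1
  | succ k ih =>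
    intro r c' hr h1 h2
    obtain ⟨q, hq, c1, hc1⟩ := IsFun.total hr.1 (v + k)
    have hqr : q ∈ IsReal x := (reglr_IsReal x).1 _ hr _ hq
    have h3 := ih q c1 hqr (down_meets _ _ h1 _ hq) hc1
    have h4 := hqr.2.1 (v + k) c1 c'
    obtain ⟨r', _, hr'⟩ := mem_fimp.1 h4 q le_rfl ⟨hc1, down_meets _ _ h2 _ hq⟩
    have h5 : c' = 2 * c1 ∨ c' = 2 * c1 + 1 := hr'
    have h6 : c' / 2 = c1 := by omega
    rw [pow_succ', ← Int.ediv_ediv_of_nonneg (by norm_num : (0:ℤ) ≤ 2), h6, h3]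


theorem real_nest {x : RName P} {r : P} (hr : r ∈ IsReal x) {v v' : ℕ} {c c' : ℤ} (h : v ≤ v')
    (h1 : r ∈ meets (x v c)) (h2 : r ∈ meets (x v' c')) : c' / 2 ^ (v' - v) = c := by
  obtain ⟨k, rfl⟩ := Nat.exists_eq_add_of_le h
  rw [Nat.add_sub_cancel_left]
  exact real_nest_aux k r c' hr h1 h2

theorem inI_code_fl {a m c : ℤ} (hm : 0 < m) (h : a / m = c) : m * c ≤ a ∧ a < m * (c + 1) := by
  have h1 := Int.emod_add_mul_ediv a m
  have h2 := Int.emod_nonneg a hm.ne'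
  have h3 := Int.emod_lt_of_pos a hm
  rw [h] at h1
  constructor
  · linarith
  · have h4 : m * (c + 1) = m * c + m := by ring
    linarith


theorem inI_code {x : RName P} {r : P} (hr : r ∈ IsReal x) {v : ℕ} {c t : ℤ}
    (h1 : r ∈ meets (x v c)) (h2 : r ∈ InI x (((t : ℚ) - 1) / 2 ^ v, ((t : ℚ) + 2) / 2 ^ v)) :
    t - 1 ≤ c ∧ c ≤ t + 1 := by
  obtain ⟨r', hr', v', c', h3, h4, h5⟩ := mem_InI.1 h2 r le_rfl
  have hR : r' ∈ IsReal x := (reglr_IsReal x).1 r hr r' hr'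
  have h1' : r' ∈ meets (x v c) := down_meets _ r h1 r' hr'
  simp only at h4 h5
  rcases le_total v v' with h | h
  · have h6 := real_nest hR h h1' h3
    obtain ⟨d, rfl⟩ := Nat.exists_eq_add_of_le h
    rw [Nat.add_sub_cancel_left] at h6
    obtain ⟨h7, h8⟩ := inI_code_fl (by positivity) h6
    have hv : (0:ℚ) < 2 ^ v := by positivity
    have hd : (0:ℤ) < 2 ^ d := by positivity
    rw [pow_add, div_lt_div_iff₀ hv (by positivity)] at h4
    rw [pow_add, div_le_div_iff₀ (by positivity) hv] at h5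
    have h9 : ((t : ℚ) - 1) * 2 ^ d < c' := by
      have e1 : ((t : ℚ) - 1) * (2 ^ v * 2 ^ d) = 2 ^ v * (((t : ℚ) - 1) * 2 ^ d) := by ring
      have e2 : (c' : ℚ) * 2 ^ v = 2 ^ v * c' := by ring
      rw [e1, e2] at h4
      exact lt_of_mul_lt_mul_left h4 hv.le
    have h10 : (c' : ℚ) + 1 ≤ ((t : ℚ) + 2) * 2 ^ d := by
      have e1 : ((t : ℚ) + 2) * (2 ^ v * 2 ^ d) = 2 ^ v * (((t : ℚ) + 2) * 2 ^ d) := by ring
      have e2 : ((c' : ℚ) + 1) * 2 ^ v = 2 ^ v * ((c' : ℚ) + 1) := by ring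
      rw [e1, e2] at h5
      exact le_of_mul_le_mul_left h5 hv
    have h9' : (t - 1) * 2 ^ d < c' := by exact_mod_cast h9
    have h10' : c' + 1 ≤ (t + 2) * 2 ^ d := by exact_mod_cast h10
    constructor
    · by_contra hcon
      have h11 : c + 1 ≤ t - 1 := by omega
      have h12 := mul_le_mul_of_nonneg_left h11 hd.le
      linarith
    · by_contra hcon
      have h11 : t + 2 ≤ c := by omega
      have h12 := mul_le_mul_of_nonneg_left h11 hd.le
      linarith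
  · have h6 := real_nest hR h h3 h1'
    obtain ⟨d, rfl⟩ := Nat.exists_eq_add_of_le h
    rw [Nat.add_sub_cancel_left] at h6
    obtain ⟨h7, h8⟩ := inI_code_fl (by positivity) h6
    have hv : (0:ℚ) < 2 ^ v' := by positivity
    have hd : (0:ℤ) < 2 ^ d := by positivity
    rw [pow_add, div_lt_div_iff₀ (by positivity) hv] at h4
    rw [pow_add, div_le_div_iff₀ hv (by positivity)] at h5
    have h9 : ((t : ℚ) - 1) < c' * 2 ^ d := by
      have e1 : (c' : ℚ) * (2 ^ v' * 2 ^ d) = 2 ^ v' * ((c' : ℚ) * 2 ^ d) := by ring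
      have e2 : ((t : ℚ) - 1) * 2 ^ v' = 2 ^ v' * ((t : ℚ) - 1) := by ring
      rw [e1, e2] at h4
      exact lt_of_mul_lt_mul_left h4 hv.le
    have h10 : ((c' : ℚ) + 1) * 2 ^ d ≤ (t : ℚ) + 2 := by
      have e1 : ((c' : ℚ) + 1) * (2 ^ v' * 2 ^ d) = 2 ^ v' * (((c' : ℚ) + 1) * 2 ^ d) := by ring
      have e2 : ((t : ℚ) + 2) * 2 ^ v' = 2 ^ v' * ((t : ℚ) + 2) := by ring
      rw [e1, e2] at h5
      exact le_of_mul_le_mul_left h5 hv
    have h9' : (t - 1) < c' * 2 ^ d := by exact_mod_cast h9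
    have h10' : (c' + 1) * 2 ^ d ≤ t + 2 := by exact_mod_cast h10
    constructor
    · linarith
    · have : c < t + 2 := by linarith
      omega


theorem sameTrace_refl {E : Type} (X : E → RName P) (O : ℚ × ℚ → Set P) (p : P) :
    p ∈ SameTrace X O O :=
  mem_fall.2 fun _ => mem_fand.2 ⟨mem_fimp.2 fun q _ h => ⟨q, le_rfl, h⟩,
    mem_fimp.2 fun q _ h => ⟨q, le_rfl, h⟩⟩

/-- the names of real numbers of the ground model -/
def chk (z : ℕ → ℤ) : RName P := fun v c => {_q | z v = c}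

/-- There are sufficiently generic sequences: `st q` is the initial segment of the sequence which is
decided by the condition `q`. -/
def HasGen (P : Type) [Preorder P] (K : Type) : Prop :=
  ∀ (R : List (ℕ × ℕ) → K → ℕ × ℕ → Set P) (h : List (ℕ × ℕ) → ℕ → Set P) (p : P),
    (∀ w : List (ℕ × ℕ), ∀ F : Finset K, F.card ≤ w.length → ∀ m : ℕ, ∀ q ≤ p, ∃ r ≤ q,
      ∃ a v, m ≤ v ∧ ∀ ξ ∈ F, r ∈ meets (R w ξ (a, v))) →
    (∀ w : List (ℕ × ℕ), ∀ q ≤ p, ∃ r ≤ q, ∃ v, r ∈ meets (h w v)) →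
    ∃ st : P → List (ℕ × ℕ),
      (∀ q r, r ≤ q → st q <+: st r) ∧
      (∀ q, ∀ m, ∃ r ≤ q, ∃ x : ℕ × ℕ, m ≤ x.2 ∧ st r = st q ++ [x]) ∧
      (∀ ξ, ∀ q ≤ p, ∃ r ≤ q, ∀ r' ≤ r, ∀ w x, (st r).length ≤ w.length →
        w ++ [x] <+: st r' → r' ∈ meets (R w ξ x)) ∧
      (∀ q ≤ p, ∃ r ≤ q, ∀ r' ≤ r, ∀ w x, (st r).length ≤ w.length →
        w ++ [x] <+: st r' → ∃ r'' ≤ r', ∃ v ≤ x.2, r'' ∈ meets (h w v))

/-- the order relation, as a relation -/
abbrev Le' (P : Type) [Preorder P] : P → P → Prop := fun a b => a ≤ b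

/-- The preservation property, in the final extension. -/
def HasBig (P : Type) [Preorder P] (Ω : Type) [LinearOrder Ω] : Prop :=
  ∀ (x : Ω → RName P) (q : Ω → P), (∀ α, q α ∈ IsReal (x α)) →
    (∀ α β, β < α → q α ∈ RealNe (x α) (x β)) →
    ∃ st : P → List (ℕ × ℕ), (∀ q r, r ≤ q → st q <+: st r) ∧
      (∀ q n, ∃ r ≤ q, n < (st r).length) ∧
      ∀ A : Ω → Set P, (∀ α, DownL (Le' P) (A α)) → (∀ α, ∀ r ∈ A α, r ≤ q α) →
        ∀ r ∈ Unb (Le' P) A, ∃ r' ≤ r, ∃ N, ∀ n, N ≤ n →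
          r' ∈ Gd (Le' P) st (fun α v c => meets (x α v c)) A n


theorem A_unc (hc : CCC P) {K : Type} (hK : ¬ Countable K) (z : K → ℕ → ℤ)
    (hz : Function.Injective z) (p : P) :
    p ∈ NotCountable (fun ξ => chk (z ξ) : K → RName P) := by
  intro y
  rw [mem_fimp]
  intro q hq hreal
  let Kn : ℕ → Set K := fun n => {ξ | ∃ r ≤ q, ∀ v, r ∈ meets (y n v (z ξ v))}
  have hcount : ∀ n, (Kn n).Countable := by
    intro n
    choose ρ hρ1 hρ2 using fun ξ : Kn n => ξ.2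
    have hcompat : ∀ ξ ξ' : Kn n, (∃ t, t ≤ ρ ξ ∧ t ≤ ρ ξ') → ξ = ξ' := by
      rintro ξ ξ' ⟨t, ht, ht'⟩
      apply Subtype.ext
      apply hz
      funext v
      have htf : t ∈ IsFun (y n) := (down_IsFun _) q (hreal n).1 t (ht.trans (hρ1 ξ))
      exact IsFun.unique htf (down_meets _ _ (hρ2 ξ v) _ ht) (down_meets _ _ (hρ2 ξ' v) _ ht')
    have hA : (Set.range ρ).Countable := by
      apply hc
      rintro _ ⟨ξ, rfl⟩ _ ⟨ξ', rfl⟩ h
      rw [hcompat ξ ξ' h]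
    have hinj : Function.Injective ρ := fun ξ ξ' h =>
      hcompat ξ ξ' ⟨ρ ξ, le_rfl, h.le⟩
    have hc1 : Countable (Set.range ρ) := hA.to_subtype
    have hc2 : Countable (Kn n) :=
      Function.Injective.countable (f := fun ξ : Kn n => (⟨ρ ξ, ξ, rfl⟩ : Set.range ρ))
        (fun ξ ξ' h => hinj (congrArg Subtype.val h))
    exact Set.countable_coe_iff.1 hc2
  have hex : ∃ ξ, ξ ∉ ⋃ n, Kn n := by
    by_contra hcon
    push Not at hcon
    apply hK
    rw [← Set.countable_univ_iff]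
    exact (Set.countable_iUnion hcount).mono (fun ξ _ => hcon ξ)
  obtain ⟨ξ, hξ⟩ := hex
  refine ⟨q, le_rfl, mem_fex_of_mem ξ (down_fall fun _ => down_fex _) (fun n => ?_)⟩
  refine mem_fex.2 fun r hr => ?_
  have h1 : ¬ ∀ v, r ∈ meets (y n v (z ξ v)) := fun h =>
    hξ (Set.mem_iUnion.2 ⟨n, r, hr, h⟩)
  push Not at h1
  obtain ⟨v, hv⟩ := h1
  have h2 : ∃ r1 ≤ r, ∀ r'' ≤ r1, ∀ s ∈ y n v (z ξ v), ¬ r'' ≤ s := by
    by_contra hcon
    push Not at hcon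
    exact hv hcon
  obtain ⟨r1, hr1, h3⟩ := h2
  have hf1 : r1 ∈ IsFun (y n) := (down_IsFun _) q (hreal n).1 r1 (hr1.trans hr)
  obtain ⟨r2, hr2, c', hc'⟩ := IsFun.total hf1 v
  refine ⟨r2, hr2.trans hr1, v, ?_⟩
  refine mem_fex_of_mem (z ξ v) (down_fex _) ?_
  refine mem_fex_of_mem c' (down_fand (down_fground _) (down_fand (down_meets _) (down_meets _))) ?_
  refine ⟨?_, meets_of_mem rfl, hc'⟩
  show z ξ v ≠ c'
  intro h
  rw [← h] at hc'
  obtain ⟨r3, hr3, s, hs, hrs⟩ := hc' r2 le_rfl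
  exact h3 r3 (hr3.trans hr2) s hs hrs

theorem meets_chk_9647 {z : ℕ → ℤ} {v : ℕ} {c : ℤ} {p : P} :
    p ∈ meets ((chk z : RName P) v c) ↔ z v = c := by
  constructor
  · intro h
    obtain ⟨r, _, s, hs, _⟩ := h p le_rfl
    exact hs
  · intro h
    exact meets_of_mem h


theorem A_real (z : ℕ → ℤ) (h1 : ∀ v, z (v + 1) = 2 * z v ∨ z (v + 1) = 2 * z v + 1)
    (h2 : ∀ v, ∃ n, v ≤ n ∧ z (n + 1) = 2 * z n) (p : P) : p ∈ IsReal (chk z : RName P) := by
  refine mem_fand.2 ⟨mem_fand.2 ⟨?_, ?_⟩, mem_fand.2 ⟨?_, ?_⟩⟩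
  · intro v
    exact mem_fex.2 fun q _ => ⟨q, le_rfl, z v, meets_chk_9647.2 rfl⟩
  · intro v c c'
    refine mem_fimp.2 fun q _ h => ⟨q, le_rfl, mem_fground.2 ?_⟩
    exact (meets_chk_9647.1 h.1).symm.trans (meets_chk_9647.1 h.2)
  · intro v c c'
    refine mem_fimp.2 fun q _ h => ⟨q, le_rfl, mem_fground.2 ?_⟩
    have e1 := meets_chk_9647.1 h.1
    have e2 := meets_chk_9647.1 h.2
    rw [← e1, ← e2]
    exact h1 v
  · intro v
    obtain ⟨n, hn, hz⟩ := h2 v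
    exact mem_fex.2 fun q _ => ⟨q, le_rfl, n, mem_fex.2 fun q' _ => ⟨q', le_rfl, z n,
      mem_fand.2 ⟨mem_fground.2 hn, mem_fand.2 ⟨meets_chk_9647.2 rfl, meets_chk_9647.2 hz⟩⟩⟩⟩

/-- binary digits interleaved with zeros -/
def A_exists_seq (b : ℕ → Bool) : ℕ → ℤ
  | 0 => 0
  | (v + 1) => if v % 2 = 0 then 2 * A_exists_seq b v
      else 2 * A_exists_seq b v + (if b (v / 2) then 1 else 0)


theorem A_exists {K : Type} (hK : #K = ℵ_ 1) : ∃ z : K → ℕ → ℤ, Function.Injective z ∧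
    (∀ ξ v, z ξ (v + 1) = 2 * z ξ v ∨ z ξ (v + 1) = 2 * z ξ v + 1) ∧
    (∀ ξ v, ∃ n, v ≤ n ∧ z ξ (n + 1) = 2 * z ξ n) := by
  have h1 : #K ≤ #(ℕ → Bool) := by
    rw [hK]
    have h2 : #(ℕ → Bool) = 𝔠 := by simp
    rw [h2]
    exact Cardinal.aleph_one_le_continuum
  obtain ⟨f⟩ := h1
  refine ⟨fun ξ => A_exists_seq (f ξ), ?_, ?_, ?_⟩
  · intro a b hab
    apply f.injective
    funext m
    have e1 := congrFun hab (2 * m + 1)
    have e2 := congrFun hab (2 * m + 1 + 1)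
    simp only [A_exists_seq] at e1 e2
    have h3 : ¬ (2 * m + 1) % 2 = 0 := by omega
    have h4 : (2 * m + 1) / 2 = m := by omega
    have h5 : (2 * m) % 2 = 0 := by omega
    simp only [h3, h4, h5, if_true, if_false] at e1 e2
    rw [e1] at e2
    cases h6 : f a m <;> cases h7 : f b m <;> simp [h6, h7] at e2 ⊢
  · intro ξ v
    simp only [A_exists_seq]
    split_ifs <;> simp
  · intro ξ v
    refine ⟨2 * v, by omega, ?_⟩
    have h5 : (2 * v) % 2 = 0 := by omega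
    simp only [A_exists_seq, h5, if_true]

theorem down_SameTrace_aux {E : Type} (X : E → RName P) (O O' : ℚ × ℚ → Set P) :
    Down (SameTrace X O O') :=
  down_fall fun _ => down_fand (down_fimp _ _) (down_fimp _ _)

theorem A_cover_aux {E T : Type} (X : E → RName P) (U : ℕ → T → ℚ × ℚ → Set P) (s : ℕ → T → Set P)
    (q : P) (hU : q ∈ fall fun n => OmegaCover X (U n)) (hs : q ∈ IsFun s)
    (hkey : ∀ e, ∀ q1 ≤ q, ∃ r ≤ q1, ∃ m : ℕ, ∀ n, m ≤ n → ∀ r' ≤ r, ∃ r'' ≤ r',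
      r'' ∈ InO (X e) (Sel U s n)) (r2 : P) (hr2 : r2 ≤ q) (j : ℕ) :
    ∃ r ≤ r2, ∃ M : ℕ, ∀ k < j, ∃ e, r ∈ fnot (InO (X e) (Sel U s k)) ∧
      ∀ n, M ≤ n → ∀ r' ≤ r, ∃ r'' ≤ r', r'' ∈ InO (X e) (Sel U s n) := by
  induction j with
  | zero => exact ⟨r2, le_rfl, 0, fun k hk => absurd hk (Nat.not_lt_zero k)⟩
  | succ j ih =>
    obtain ⟨r3, hr3, M, hM⟩ := ih
    have hsf : ∀ r ≤ r3, r ∈ IsFun s := fun r hr => down_IsFun s q hs r (hr.trans (hr3.trans hr2))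
    obtain ⟨r4, hr4, t, ht⟩ := IsFun.total (hsf r3 le_rfl) j
    have hU1 : q ∈ fex fun e => fnot (InO (X e) (U j t)) := (hU j).1 t
    obtain ⟨r5, hr5, e, he⟩ := mem_fex.1 hU1 r4 (hr4.trans (hr3.trans hr2))
    have he' : r5 ∈ fnot (InO (X e) (Sel U s j)) := by
      intro r6 hr6 h6
      obtain ⟨r7, hr7, I, hI1, hI2⟩ := mem_InO.1 h6 r6 le_rfl
      obtain ⟨r8, hr8, s', ⟨t', hs1, hs2⟩, hs3⟩ := hI1 r7 le_rfl
      have h85 : r8 ≤ r5 := hr8.trans (hr7.trans hr6)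
      have h1 : r8 ∈ meets (s j t') := down_meets _ _ hs1 _ hs3
      have h2 : r8 ∈ meets (s j t) := down_meets _ _ ht _ (h85.trans hr5)
      have h3 : t' = t := IsFun.unique (hsf r8 (h85.trans (hr5.trans hr4))) h1 h2
      subst h3
      refine he r8 h85 (mem_InO.2 fun q' hq' => ⟨q', le_rfl, I, ?_, ?_⟩)
      · exact down_meets _ _ (down_meets _ _ hs2 _ hs3) _ hq'
      · exact down_InI _ _ _ hI2 _ (hq'.trans hr8)
    obtain ⟨r6, hr6, m', hm'⟩ := hkey e r5 (hr5.trans (hr4.trans (hr3.trans hr2)))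
    have h63 : r6 ≤ r3 := hr6.trans (hr5.trans hr4)
    refine ⟨r6, h63.trans hr3, max M m', fun k hk => ?_⟩
    rcases Nat.lt_succ_iff_lt_or_eq.1 hk with hk' | rfl
    · obtain ⟨e', h1, h2⟩ := hM k hk'
      exact ⟨e', down_fnot _ _ h1 _ h63, fun n hn r' hr' =>
        h2 n ((le_max_left _ _).trans hn) r' (hr'.trans h63)⟩
    · exact ⟨e, down_fnot _ _ he' _ hr6, fun n hn r' hr' =>
        hm' n ((le_max_right _ _).trans hn) r' hr'⟩


theorem A_cover {E T : Type} (X : E → RName P) (U : ℕ → T → ℚ × ℚ → Set P) (s : ℕ → T → Set P)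
    (q : P) (hU : q ∈ fall fun n => OmegaCover X (U n)) (hs : q ∈ IsFun s)
    (hkey : ∀ e, ∀ q1 ≤ q, ∃ r ≤ q1, ∃ m : ℕ, ∀ n, m ≤ n → ∀ r' ≤ r, ∃ r'' ≤ r',
      r'' ∈ InO (X e) (Sel U s n)) :
    q ∈ GammaCover X (Sel U s) := by
  refine ⟨?_, ?_⟩
  · intro r1 hr1 hfex
    obtain ⟨r2, hr2, m, hm⟩ := mem_fex.1 hfex r1 le_rfl
    obtain ⟨r, hr, M, hM⟩ := A_cover_aux X U s q hU hs hkey r2 (hr2.trans hr1) m
    obtain ⟨r', hr', k, hk1, hk2⟩ := mem_fex.1 (hm M) r hr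
    have hk1' : k < m := hk1
    obtain ⟨e, he1, he2⟩ := hM k hk1'
    obtain ⟨r'', hr'', h1⟩ := he2 M le_rfl r' hr'
    obtain ⟨r3, hr3, h2⟩ := mem_fimp.1 (hk2 e).1 r'' hr'' h1
    exact he1 r3 (hr3.trans (hr''.trans hr')) h2
  · intro e
    refine mem_fex.2 fun q1 hq1 => ?_
    obtain ⟨r, hr, m, hm⟩ := hkey e q1 hq1
    refine ⟨r, hr, m, fun n => mem_fimp.2 fun q' hq' hnot => ?_⟩
    by_cases hn : n < m
    · exact ⟨q', le_rfl, mem_fex_of_mem n
        (down_fand (down_fground _) (down_SameTrace_aux X _ _)) ⟨hn, sameTrace_refl X _ _⟩⟩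
    · obtain ⟨r'', hr'', h⟩ := hm n (not_lt.1 hn) q' hq'
      exact absurd h (hnot r'' hr'')

/-- decoding of a finite set of intervals -/
noncomputable def decI (a : ℕ) : Finset (ℚ × ℚ) := (Encodable.decode a).getD ∅

/-- the relation used for `S₁(Ω, Γ)` -/
def RA {K T : Type} (z : K → ℕ → ℤ) (U : ℕ → T → ℚ × ℚ → Set P) (w : List (ℕ × ℕ)) (ξ : K)
    (x : ℕ × ℕ) : Set P :=
  {r | (∃ I ∈ decI x.1, r ∈ InI (chk (z ξ)) I) ∧ ∃ t, ∀ I ∈ decI x.1, r ∈ meets (U w.length t I)}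


theorem A_linked {K T : Type} (z : K → ℕ → ℤ) (U : ℕ → T → ℚ × ℚ → Set P) (q : P)
    (hU : q ∈ fall fun n => OmegaCover (fun ξ => chk (z ξ) : K → RName P) (U n))
    (w : List (ℕ × ℕ)) (F : Finset K) (m : ℕ) (q' : P) (hq' : q' ≤ q) :
    ∃ r ≤ q', ∃ a v, m ≤ v ∧ ∀ ξ ∈ F, r ∈ meets (RA z U w ξ (a, v)) := by
  classical
  have h0 := hU w.length
  have h2 : q ∈ fex fun t => fall fun e => fall fun _ : e ∈ F =>
      InO (chk (z e) : RName P) (U w.length t) := h0.2 F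
  obtain ⟨r, hr, t, ht⟩ := mem_fex.1 h2 q' hq'
  have step : ∀ G : Finset K, G ⊆ F → ∃ r' ≤ r, ∃ I : K → ℚ × ℚ, ∀ ξ ∈ G,
      r' ∈ meets (U w.length t (I ξ)) ∧ r' ∈ InI (chk (z ξ) : RName P) (I ξ) := by
    intro G
    induction G using Finset.induction_on with
    | empty => intro _; exact ⟨r, le_rfl, fun _ => (0, 0), by simp⟩
    | insert a G ha ih =>
      intro hG
      obtain ⟨r', hr', I, hI⟩ := ih ((Finset.subset_insert a G).trans hG)
      have haF : a ∈ F := hG (Finset.mem_insert_self a G)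
      have hta : r ∈ InO (chk (z a) : RName P) (U w.length t) := ht a haF
      obtain ⟨r'', hr'', J, hJ1, hJ2⟩ := mem_InO.1 hta r' hr'
      refine ⟨r'', hr''.trans hr', Function.update I a J, ?_⟩
      intro ξ hξ
      rcases Finset.mem_insert.1 hξ with rfl | hξ
      · rw [Function.update_self]; exact ⟨hJ1, hJ2⟩
      · have hne : ξ ≠ a := fun h => ha (h ▸ hξ)
        rw [Function.update_of_ne hne]
        exact ⟨down_meets _ _ (hI ξ hξ).1 _ hr'', down_InI _ _ _ (hI ξ hξ).2 _ hr''⟩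
  obtain ⟨r', hr', I, hI⟩ := step F (Finset.Subset.refl F)
  have hdec : decI (Encodable.encode (F.image I)) = F.image I := by
    simp [decI]
  refine ⟨r', hr'.trans hr, Encodable.encode (F.image I), m, le_rfl, ?_⟩
  intro ξ hξ
  apply meets_of_mem
  refine ⟨?_, t, ?_⟩
  · show ∃ J ∈ decI (Encodable.encode (F.image I)), r' ∈ InI (chk (z ξ)) J
    rw [hdec]
    exact ⟨I ξ, Finset.mem_image_of_mem I hξ, (hI ξ hξ).2⟩
  · show ∀ J ∈ decI (Encodable.encode (F.image I)), r' ∈ meets (U w.length t J)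
    rw [hdec]
    intro J hJ
    obtain ⟨ζ, hζ, rfl⟩ := Finset.mem_image.1 hJ
    exact (hI ζ hζ).1


theorem A_gamma {K : Type} (hGen : HasGen P K) (z : K → ℕ → ℤ) (p : P) :
    p ∈ GammaSet (fun ξ => chk (z ξ) : K → RName P) := by
  classical
  intro T U
  refine mem_fimp.2 fun q hqp hU => ⟨q, le_rfl, ?_⟩
  obtain ⟨st, h1, h2, h3, _⟩ := hGen (RA z U) (fun _ _ => Set.univ) q
    (fun w F _ m q' hq' => A_linked z U q hU w F m q' hq')
    (fun w q' _ => ⟨q', le_rfl, 0, meets_of_mem (Set.mem_univ _)⟩)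
  have ht0 : Nonempty T := by
    obtain ⟨r, _, t, _⟩ := mem_fex.1 ((hU 0).2 ∅) q le_rfl
    exact ⟨t⟩
  obtain ⟨t0⟩ := ht0
  let R : T → T → Prop := WellOrderingRel
  have hwo : IsWellOrder T R := WellOrderingRel.isWellOrder
  have hwf : WellFounded R := hwo.wf
  let Q : T → ℕ → ℕ × ℕ → Set P := fun t n x => {r | ∀ I ∈ decI x.1, r ∈ meets (U n t I)}
  have hQd : ∀ t n x, Down (Q t n x) := fun t n x r hr r' hr' I hI =>
    down_meets _ r (hr I hI) r' hr'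
  let s : ℕ → T → Set P := fun n t => {r | ∃ w x, w.length = n ∧ w ++ [x] <+: st r ∧
    ((r ∈ Q t n x ∧ ∀ t', R t' t → r ∈ fnot (Q t' n x)) ∨
      (t = t0 ∧ ∀ t', r ∈ fnot (Q t' n x)))}
  have hsd : ∀ n t, Down (s n t) := by
    rintro n t r ⟨w, x, hw, hx, h⟩ r' hr'
    refine ⟨w, x, hw, hx.trans (h1 _ _ hr'), ?_⟩
    rcases h with ⟨ha, hb⟩ | ⟨ha, hb⟩
    · exact Or.inl ⟨hQd _ _ _ r ha r' hr', fun t' ht' => down_fnot _ r (hb t' ht') r' hr'⟩
    · exact Or.inr ⟨ha, fun t' => down_fnot _ r (hb t') r' hr'⟩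
  have hsel : ∀ (q2 : P) (n : ℕ) (w : List (ℕ × ℕ)) (x : ℕ × ℕ), w.length = n →
      w ++ [x] <+: st q2 → ∃ r ≤ q2, ∃ t, r ∈ s n t ∧ ((∃ t1, q2 ∈ Q t1 n x) → r ∈ Q t n x) := by
    intro q2 n w x hw hx
    by_cases hA : ({t | ∃ r ≤ q2, r ∈ Q t n x} : Set T).Nonempty
    · obtain ⟨r, hr, hrQ⟩ := hwf.min_mem _ hA
      refine ⟨r, hr, hwf.min _ hA, ⟨w, x, hw, hx.trans (h1 _ _ hr), Or.inl ⟨hrQ, ?_⟩⟩,
        fun _ => hrQ⟩
      intro t' ht' r' hr' hmem
      exact hwf.not_lt_min _ (show t' ∈ ({t | ∃ r ≤ q2, r ∈ Q t n x} : Set T) from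
        ⟨r', hr'.trans hr, hmem⟩) ht'
    · refine ⟨q2, le_rfl, t0, ⟨w, x, hw, hx, Or.inr ⟨rfl, ?_⟩⟩, ?_⟩
      · intro t' r' hr' hmem
        exact hA ⟨t', r', hr', hmem⟩
      · rintro ⟨t1, ht1⟩
        exact (hA ⟨t1, q2, le_rfl, ht1⟩).elim
  have hext : ∀ (N : ℕ) (q1 : P), ∃ r ≤ q1, N ≤ (st r).length := by
    intro N
    induction N with
    | zero => exact fun q1 => ⟨q1, le_rfl, Nat.zero_le _⟩
    | succ N ih =>
      intro q1
      obtain ⟨r, hr, hN⟩ := ih q1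
      obtain ⟨r', hr', x, _, hx⟩ := h2 r 0
      refine ⟨r', hr'.trans hr, ?_⟩
      rw [hx]
      simp
      exact hN
  have hcut : ∀ (n : ℕ) (q1 : P), ∃ r ≤ q1, ∃ w x, w.length = n ∧ w ++ [x] <+: st r := by
    intro n q1
    obtain ⟨r, hr, hN⟩ := hext (n + 1) q1
    refine ⟨r, hr, (st r).take n, (st r)[n]'(by omega), ?_, ?_⟩
    · rw [List.length_take]
      omega
    · rw [List.take_concat_get']
      exact List.take_prefix _ _
  have huniq : ∀ n t t' r, r ∈ s n t → r ∈ s n t' → t = t' := by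
    rintro n t t' r ⟨w, x, hw, hx, h⟩ ⟨w', x', hw', hx', h'⟩
    have heq : w ++ [x] = w' ++ [x'] := by
      have ha := List.prefix_of_prefix_length_le hx hx' (by simp [hw, hw'])
      exact ha.eq_of_length (by simp [hw, hw'])
    have hx2 : x = x' := by
      have := (List.append_inj' heq rfl).2
      simpa using this
    subst hx2
    rcases h with ⟨ha, hb⟩ | ⟨ha, hb⟩
    · rcases h' with ⟨ha', hb'⟩ | ⟨ha', hb'⟩
      · rcases (trichotomous_of R t t' : R t t' ∨ t = t' ∨ R t' t) with hlt | heq' | hlt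
        · exact absurd ha (hb' t hlt r le_rfl)
        · exact heq'
        · exact absurd ha' (hb t' hlt r le_rfl)
      · exact absurd ha (hb' t r le_rfl)
    · rcases h' with ⟨ha', hb'⟩ | ⟨ha', hb'⟩
      · exact absurd ha' (hb t' r le_rfl)
      · rw [ha, ha']
  have hs : q ∈ IsFun s := by
    refine ⟨fun n => mem_fex.2 fun q1 hq1 => ?_, fun n t t' => mem_fimp.2 fun q1 hq1 h => ?_⟩
    · obtain ⟨r, hr, w, x, hw, hx⟩ := hcut n q1
      obtain ⟨r', hr', t, ht, _⟩ := hsel r n w x hw hx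
      exact ⟨r', hr'.trans hr, t, meets_of_mem ht⟩
    · obtain ⟨q2, hq2, hq2s⟩ := exists_of_meets (hsd n t) h.1
      obtain ⟨q3, hq3, hq3s⟩ := exists_of_meets (hsd n t') (down_meets _ _ h.2 q2 hq2)
      exact ⟨q1, le_rfl, huniq n t t' q3 (hsd n t q2 hq2s q3 hq3) hq3s⟩
  refine mem_fex_of_mem s (down_fand (down_IsFun s)
    (down_fand (down_fnot _) (down_fall fun _ => down_fex _))) ⟨hs, ?_⟩
  refine A_cover _ U s q hU hs ?_
  intro ξ q1 hq1
  obtain ⟨r, hr, hR⟩ := h3 ξ q1 hq1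
  refine ⟨r, hr, (st r).length, fun n hn r' hr' => ?_⟩
  obtain ⟨r1, hr1, w, x, hw, hx⟩ := hcut n r'
  have hm := hR r1 (hr1.trans hr') w x (by omega) hx
  obtain ⟨r2, hr2, s0, ⟨⟨I, hI, hsI⟩, t, ht⟩, hle⟩ := hm r1 le_rfl
  rw [hw] at ht
  have hQ2 : r2 ∈ Q t n x := fun I hI => down_meets _ s0 (ht I hI) r2 hle
  obtain ⟨r4, hr4, t', ht's, ht'Q⟩ := hsel r2 n w x hw (hx.trans (h1 _ _ hr2))
  have hQ4 := ht'Q ⟨t, hQ2⟩
  refine ⟨r4, (hr4.trans hr2).trans hr1, mem_InO.2 fun q' hq' => ⟨q', le_rfl, I, ?_, ?_⟩⟩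
  · exact meets_of_mem ⟨t', down_meets _ r4 (meets_of_mem ht's) q' hq',
      down_meets _ r4 (hQ4 I hI) q' hq'⟩
  · exact down_InI _ _ s0 hsI q' ((hq'.trans hr4).trans hle)


theorem C_select {K E Ω : Type} [LinearOrder Ω] [WellFoundedLT Ω] (hK : #K = ℵ_ 1)
    (hΩ : ∀ α : Ω, #(Set.Iio α) ≤ ℵ_ 1) [Nonempty E] (X : E → RName P) (p : P)
    (hsel : ∀ κ : K → E, ∃ q ≤ p, ∃ e, ∀ ξ, q ∈ RealNe (X e) (X (κ ξ))) :
    ∃ (e : Ω → E) (q : Ω → P), (∀ α, q α ≤ p) ∧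
      ∀ α β, β < α → q α ∈ RealNe (X (e α)) (X (e β)) := by
  classical
  have step : ∀ (α : Ω) (g : Set.Iio α → E), ∃ qe : P × E, qe.1 ≤ p ∧
      ∀ β : Set.Iio α, qe.1 ∈ RealNe (X qe.2) (X (g β)) := by
    intro α g
    by_cases hne : Nonempty (Set.Iio α)
    · have hle : #(Set.Iio α) ≤ #K := by
        rw [hK]
        exact hΩ α
      obtain ⟨i⟩ := (Cardinal.le_def _ _).1 hle
      have hsurj : Function.Surjective (Function.invFun i) := Function.invFun_surjective i.injective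
      obtain ⟨q, hq, e, he⟩ := hsel (fun k => g (Function.invFun i k))
      refine ⟨(q, e), hq, fun β => ?_⟩
      obtain ⟨k, hk⟩ := hsurj β
      have := he k
      rw [hk] at this
      exact this
    · obtain ⟨q, hq, e, _⟩ := hsel (fun _ => Classical.arbitrary E)
      exact ⟨(q, e), hq, fun β => absurd ⟨β⟩ hne⟩
  choose F hF1 hF2 using step
  have wf : WellFounded (fun a b : Ω => a < b) := wellFounded_lt
  let qe : Ω → P × E := wf.fix (fun α rec => F α (fun β => (rec β.1 β.2).2))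
  have hqe : ∀ α, qe α = F α (fun β => (qe β.1).2) := fun α => wf.fix_eq _ α
  refine ⟨fun α => (qe α).2, fun α => (qe α).1, fun α => ?_, fun α β hβ => ?_⟩
  · change (qe α).1 ≤ p
    rw [hqe α]
    exact hF1 _ _
  · have := hF2 α (fun β => (qe β.1).2) ⟨β, hβ⟩
    rw [← hqe α] at this
    exact this

/-- the covers used to show that `γ`-sets are small -/
def UC {E : Type} (st : P → List (ℕ × ℕ)) (X : E → RName P) (k : ℕ) (t : ℕ × Finset ℤ × E)
    (I : ℚ × ℚ) : Set P :=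
  {r | k ≤ t.1 ∧ t.2.1.card ≤ t.1 ∧ ∃ y, (st r)[t.1]? = some y ∧
    (∃ c, r ∈ meets (X t.2.2 y.2 c) ∧ ∀ d ∈ t.2.1, c < d - 1 ∨ d + 1 < c) ∧
    ∃ d ∈ t.2.1, I = (((d : ℚ) - 1) / 2 ^ y.2, ((d : ℚ) + 2) / 2 ^ y.2)}


theorem UC_down {E : Type} (st : P → List (ℕ × ℕ)) (hst : ∀ q r, r ≤ q → st q <+: st r)
    (X : E → RName P) (k : ℕ) (t : ℕ × Finset ℤ × E) (I : ℚ × ℚ) : Down (UC st X k t I) := by
  intro r hr q hq
  obtain ⟨h1, h2, y, hy, ⟨c, hc, hd⟩, hI⟩ := hr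
  refine ⟨h1, h2, y, ?_, ⟨c, down_meets _ _ hc _ hq, hd⟩, hI⟩
  obtain ⟨w, hw⟩ := hst r q hq
  have hlt : t.1 < (st r).length := (List.getElem?_eq_some_iff.mp hy).1
  rw [← hw, List.getElem?_append_left hlt]
  exact hy


theorem C_omega_prefix {l l' : List (ℕ × ℕ)} (h : l <+: l') {n : ℕ} {y : ℕ × ℕ}
    (hy : l[n]? = some y) : l'[n]? = some y := by
  obtain ⟨t, rfl⟩ := h
  obtain ⟨hn, _⟩ := List.getElem?_eq_some_iff.1 hy
  rw [List.getElem?_append_left hn, hy]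


theorem C_omega {E : Type} (st : P → List (ℕ × ℕ)) (hst : ∀ q r, r ≤ q → st q <+: st r)
    (hst2 : ∀ q n, ∃ r ≤ q, n < (st r).length) (X : E → RName P) (r0 : P)
    (hX : ∀ e, r0 ∈ IsReal (X e)) (N0 : ℕ)
    (hmany : ∀ n, N0 ≤ n → ∀ r1 ≤ r0, ∀ S' : Finset ℤ, S'.card ≤ 3 * n → ∃ r2 ≤ r1, ∃ y,
      (st r2)[n]? = some y ∧ ∃ e, ∃ c, c ∉ S' ∧ r2 ∈ meets (X e y.2 c)) (k : ℕ) [Nonempty E] :
    r0 ∈ OmegaCover X (UC st X k) := by
  classical
  constructor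
  · intro t
    refine mem_fex.2 fun q hq => ?_
    by_cases h : ∃ r' ≤ q, ∃ I, r' ∈ UC st X k t I
    · obtain ⟨r', hr', I, hk, hcard, y, hy, ⟨c, hc, hcd⟩, d, hd, hI⟩ := h
      refine ⟨r', hr', t.2.2, fun r1 hr1 hin => ?_⟩
      obtain ⟨r2, hr2, I', hm, hI'⟩ := mem_InO.1 hin r1 le_rfl
      obtain ⟨r3, hr3, hk', hcard', y', hy', -, d', hd', hI''⟩ :=
        exists_of_meets (UC_down st hst X k t I') hm
      have hr3r' : r3 ≤ r' := hr3.trans (hr2.trans hr1)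
      have hyy : y' = y := by
        have := C_omega_prefix (hst r' r3 hr3r') hy
        rw [hy'] at this
        exact Option.some.inj this
      subst hyy
      have h1 : r3 ∈ meets (X t.2.2 y'.2 c) := down_meets _ _ hc _ hr3r'
      have h2 : r3 ∈ InI (X t.2.2) I' := down_InI _ _ _ hI' _ hr3
      rw [hI''] at h2
      have h3 := inI_code ((reglr_IsReal _).1 _ (hX t.2.2) _ (hr3r'.trans (hr'.trans hq))) h1 h2
      rcases hcd d' hd' with h4 | h4 <;> omega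
    · push Not at h
      obtain ⟨e⟩ := (inferInstance : Nonempty E)
      refine ⟨q, le_rfl, e, fun r1 hr1 hin => ?_⟩
      obtain ⟨r2, hr2, I', hm, -⟩ := mem_InO.1 hin r1 le_rfl
      obtain ⟨r3, hr3, h3⟩ := exists_of_meets (UC_down st hst X k t I') hm
      exact h r3 (hr3.trans (hr2.trans hr1)) I' h3
  · intro F
    refine mem_fex.2 fun q hq => ?_
    set n : ℕ := max (max k F.card) N0 with hn
    have hn1 : k ≤ n := (le_max_left _ _).trans (le_max_left _ _)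
    have hn2 : F.card ≤ n := (le_max_right _ _).trans (le_max_left _ _)
    have hn3 : N0 ≤ n := le_max_right _ _
    obtain ⟨r1, hr1, hlen⟩ := hst2 q n
    obtain ⟨y, hy⟩ : ∃ y, (st r1)[n]? = some y := ⟨_, List.getElem?_eq_getElem hlen⟩
    have hdec : ∀ F' : Finset E, ∃ r2 ≤ r1, ∃ c : E → ℤ, ∀ e ∈ F', r2 ∈ meets (X e y.2 (c e)) := by
      intro F'
      induction F' using Finset.induction_on with
      | empty => exact ⟨r1, le_rfl, fun _ => 0, by simp⟩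
      | insert a F' ha ih =>
        obtain ⟨r2, hr2, c, hc⟩ := ih
        have hf : r2 ∈ IsFun (X a) := (down_IsFun (X a)) _ (hX a).1 _ (hr2.trans (hr1.trans hq))
        obtain ⟨r3, hr3, z, hz⟩ := IsFun.total hf y.2
        refine ⟨r3, hr3.trans hr2, fun e => if e = a then z else c e, fun e he => ?_⟩
        rcases Finset.mem_insert.1 he with rfl | he
        · simpa using hz
        · have hne : e ≠ a := fun h => ha (h ▸ he)
          simp only [if_neg hne]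
          exact down_meets _ _ (hc e he) _ hr3
    obtain ⟨r2, hr2, c, hc⟩ := hdec F
    set S : Finset ℤ := F.image c with hS
    have hScard : S.card ≤ n := Finset.card_image_le.trans hn2
    set S' : Finset ℤ := S.biUnion fun d => {d - 1, d, d + 1} with hS'
    have hS'card : S'.card ≤ 3 * n := by
      have h1 : S'.card ≤ S.card * 3 :=
        Finset.card_biUnion_le_card_mul _ _ _ fun a _ => Finset.card_le_three
      omega
    obtain ⟨r3, hr3, y', hy', e', c', hc', hm⟩ :=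
      hmany n hn3 r2 (hr2.trans (hr1.trans hq)) S' hS'card
    have hyy : y' = y := by
      have := C_omega_prefix (hst r1 r3 (hr3.trans hr2)) hy
      rw [hy'] at this
      exact Option.some.inj this
    subst hyy
    refine ⟨r3, hr3.trans (hr2.trans hr1), (n, S, e'), fun e he => ?_⟩
    refine mem_InO.2 fun q1 hq1 => ⟨q1, le_rfl,
      (((c e : ℚ) - 1) / 2 ^ y'.2, ((c e : ℚ) + 2) / 2 ^ y'.2), ?_, ?_⟩
    · refine meets_of_mem ⟨hn1, hScard, y', C_omega_prefix (hst r3 q1 hq1) hy', ⟨c',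
        down_meets _ _ hm _ hq1, fun d hd => ?_⟩, c e, Finset.mem_image_of_mem c he, rfl⟩
      by_contra hcon
      push Not at hcon
      apply hc'
      rw [hS', Finset.mem_biUnion]
      refine ⟨d, hd, ?_⟩
      simp only [Finset.mem_insert, Finset.mem_singleton]
      omega
    · refine mem_InI.2 fun q2 hq2 => ⟨q2, le_rfl, y'.2, c e,
        down_meets _ _ (hc e he) _ (hq2.trans (hq1.trans hr3)), ?_, ?_⟩
      · show ((c e : ℚ) - 1) / 2 ^ y'.2 < (c e : ℚ) / 2 ^ y'.2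
        gcongr
        linarith
      · show ((c e : ℚ) + 1) / 2 ^ y'.2 ≤ ((c e : ℚ) + 2) / 2 ^ y'.2
        gcongr
        norm_num


theorem C_contra {E Ω : Type} [LinearOrder Ω] (hL : Nice (Le' P)) (hΩ : Reg Ω)
    (st : P → List (ℕ × ℕ)) (hst : ∀ q r, r ≤ q → st q <+: st r) (X : E → RName P) (r1 : P)
    (hX : ∀ e, r1 ∈ IsReal (X e)) (e : Ω → E) (q : Ω → P)
    (hr1 : r1 ∈ Unb (Le' P) (fun α => {r : P | r ≤ q α}))
    (hbig : ∀ A : Ω → Set P, (∀ α, DownL (Le' P) (A α)) → (∀ α, ∀ r ∈ A α, r ≤ q α) →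
        ∀ r ∈ Unb (Le' P) A, ∃ r' ≤ r, ∃ N, ∀ n, N ≤ n →
          r' ∈ Gd (Le' P) st (fun α v c => meets (X (e α) v c)) A n)
    (s : ℕ → ℕ × Finset ℤ × E → Set P) (hs : r1 ∈ IsFun s)
    (hγ : r1 ∈ GammaCover X (Sel (UC st X) s)) : False := by
  obtain ⟨V, hV⟩ : ∃ V, V = Sel (UC st X) s := ⟨_, rfl⟩
  rw [← hV] at hγ
  obtain ⟨A, hAdef⟩ : ∃ A : ℕ → Ω → Set P, A = fun m α => {r : P | r ≤ q α ∧ r ≤ r1 ∧
      ∀ k, r ∈ fimp (fnot (InO (X (e α)) (V k)))
        (fex fun k' : ℕ => fand (fground (k' < m)) (SameTrace X (V k) (V k')))} := ⟨_, rfl⟩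
  have hA : ∀ m α r, r ∈ A m α ↔ (r ≤ q α ∧ r ≤ r1 ∧
      ∀ k, r ∈ fimp (fnot (InO (X (e α)) (V k)))
        (fex fun k' : ℕ => fand (fground (k' < m)) (SameTrace X (V k) (V k')))) := by
    intro m α r; rw [hAdef]; exact Iff.rfl
  have hAd : ∀ m α, DownL (Le' P) (A m α) := by
    intro m α p hp p' hp'
    have hp'' : p' ≤ p := hp'
    rw [hA] at hp ⊢
    exact ⟨hp''.trans hp.1, hp''.trans hp.2.1, fun k => down_fimp _ _ _ (hp.2.2 k) _ hp''⟩
  have hN : #ℕ ≤ ℵ_ 1 := by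
    rw [Cardinal.mk_nat]; exact Cardinal.aleph0_le_aleph 1
  obtain ⟨β, hβ⟩ := bd_fam hL hΩ hN A hAd
  obtain ⟨α0, hα0, t, ht1, ht⟩ := hr1 r1 le_rfl β
  have ht1' : t ≤ r1 := ht1
  obtain ⟨t', ht', m, hm⟩ := mem_fex.1 (hγ.2 (e α0)) t ht1'
  have hmA : t' ∈ A m α0 := by
    rw [hA]
    exact ⟨ht'.trans ht, ht'.trans ht1', fun k => hm k⟩
  obtain ⟨t'', ht'', hU⟩ := hβ m α0 hα0 t' hmA
  have ht''le : t'' ≤ t' := ht''
  obtain ⟨r2, hr2, N, hGd⟩ := hbig (A m) (hAd m) (fun α r hr => ((hA m α r).1 hr).1) t'' hU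
  obtain ⟨M, hM⟩ : ∃ M, M = max m N := ⟨_, rfl⟩
  have hmM : m ≤ M := hM ▸ le_max_left _ _
  have hNM : N ≤ M := hM ▸ le_max_right _ _
  have hr21 : r2 ≤ r1 := hr2.trans (ht''le.trans (ht'.trans ht1'))
  have hnf : r2 ∉ fall fun n : ℕ => fex fun k : ℕ =>
      fand (fground (k < M)) (SameTrace X (V n) (V k)) := by
    intro hf
    refine hγ.1 r2 hr21 ?_
    exact mem_fex_of_mem (φ := fun m : ℕ => fall fun n : ℕ => fex fun k : ℕ =>
      fand (fground (k < m)) (SameTrace X (V n) (V k))) M (down_fall fun _ => down_fex _) hf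
  obtain ⟨k, hk⟩ : ∃ k, r2 ∉ fex fun k' : ℕ =>
      fand (fground (k' < M)) (SameTrace X (V k) (V k')) := by
    by_contra hcon
    push Not at hcon
    exact hnf (mem_fall.2 hcon)
  obtain ⟨r3, hr3, hno⟩ : ∃ r3 ≤ r2, ∀ r ≤ r3, ∀ k', r ∉
      fand (fground (k' < M)) (SameTrace X (V k) (V k')) := by
    by_contra hcon
    push Not at hcon
    refine hk (mem_fex.2 fun q hq => ?_)
    obtain ⟨r, hr, k', hk'⟩ := hcon q hq
    exact ⟨r, hr, k', hk'⟩
  have hkM : M ≤ k := by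
    by_contra hlt
    push Not at hlt
    exact hno r3 le_rfl k ⟨hlt, sameTrace_refl X (V k) r3⟩
  have hr31 : r3 ≤ r1 := hr3.trans hr21
  obtain ⟨r4, hr4, tt, htt⟩ := IsFun.total (down_IsFun s r1 hs r3 hr31) k
  have hr41 : r4 ≤ r1 := hr4.trans hr31
  have hstar : ∀ r5 ≤ r4, ∀ α, r5 ∈ A m α → ∃ r6 ≤ r5, ∃ I, r6 ∈ UC st X k tt I ∧
      r6 ∈ InI (X (e α)) I := by
    intro r5 hr5 α hα
    have hα2 := ((hA m α r5).1 hα).2.2 k
    have hnn : r5 ∉ fnot (InO (X (e α)) (V k)) := by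
      intro hfn
      obtain ⟨r, hr, hr'⟩ := mem_fimp.1 hα2 r5 le_rfl hfn
      obtain ⟨r', hr'', k', hk'⟩ := mem_fex.1 hr' r le_rfl
      refine hno r' (hr''.trans (hr.trans (hr5.trans hr4))) k' ⟨?_, hk'.2⟩
      have : k' < m := hk'.1
      exact lt_of_lt_of_le this hmM
    obtain ⟨r5', hr5', hin⟩ : ∃ r5' ≤ r5, r5' ∈ InO (X (e α)) (V k) := by
      by_contra hcon
      push Not at hcon
      exact hnn (mem_fnot.2 hcon)
    obtain ⟨ra, hra, I, hI1, hI2⟩ := mem_InO.1 hin r5' le_rfl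
    have hVd : Down (V k I) := by
      rw [hV]
      intro p hp p' hp'
      obtain ⟨t, h1, h2⟩ := hp
      exact ⟨t, down_meets _ _ h1 _ hp', down_meets _ _ h2 _ hp'⟩
    obtain ⟨rb, hrb, hrb'⟩ := exists_of_meets hVd hI1
    rw [hV] at hrb'
    obtain ⟨t, h1, h2⟩ := hrb'
    have hrb4 : rb ≤ r4 := hrb.trans (hra.trans (hr5'.trans hr5))
    have htt' : t = tt := IsFun.unique (down_IsFun s r1 hs rb (hrb4.trans hr41)) h1
      (down_meets _ _ htt _ hrb4)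
    subst htt'
    obtain ⟨r6, hr6, hr6'⟩ := exists_of_meets (UC_down st hst X k t I) h2
    exact ⟨r6, hr6.trans (hrb.trans (hra.trans hr5')), I, hr6',
      down_InI _ _ _ hI2 _ (hr6.trans hrb)⟩
  have hUr4 : r4 ∈ Unb (Le' P) (A m) :=
    unb_down hL (A m) t'' hU r4 (show r4 ≤ t'' from hr4.trans (hr3.trans hr2))
  obtain ⟨α1, _, r5, hr5, hr5A⟩ := hUr4 r4 le_rfl β
  obtain ⟨r6, hr6, I6, hUC6, _⟩ := hstar r5 hr5 α1 hr5A
  have hkn : k ≤ tt.1 := hUC6.1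
  have hSn : tt.2.1.card ≤ tt.1 := hUC6.2.1
  have hNn : N ≤ tt.1 := (hNM.trans hkM).trans hkn
  obtain ⟨r7, hr7, C, hC, hPos⟩ := hGd tt.1 hNn r4 (show r4 ≤ r2 from hr4.trans hr3)
  have hr7' : r7 ≤ r4 := hr7
  obtain ⟨c, hcC, hcS⟩ : ∃ c ∈ C, c ∉ tt.2.1.biUnion (fun d : ℤ => ({d - 1, d, d + 1} : Finset ℤ)) := by
    apply Finset.exists_mem_notMem_of_card_lt_card
    rw [hC]
    have h3 : (tt.2.1.biUnion (fun d : ℤ => ({d - 1, d, d + 1} : Finset ℤ))).card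
        ≤ tt.2.1.card * 3 := Finset.card_biUnion_le_card_mul _ _ _ (fun d _ => Finset.card_le_three)
    omega
  obtain ⟨α2, _, r8, hr8, hr8A, y, hy, hyc⟩ := hPos c hcC r7 le_rfl β
  have hr8' : r8 ≤ r7 := hr8
  obtain ⟨r9, hr9, I, hUC, hInI⟩ := hstar r8 (hr8'.trans hr7') α2 hr8A
  obtain ⟨_, _, y', hy', _, d, hdS, hI⟩ := hUC
  have hyy : y' = y := by
    have h1 : (st r9)[tt.1]? = some y := by
      obtain ⟨l, hl⟩ := hst r8 r9 hr9
      have hlt : tt.1 < (st r8).length := by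
        by_contra hge
        push Not at hge
        rw [List.getElem?_eq_none hge] at hy
        exact absurd hy (by simp)
      rw [← hl, List.getElem?_append_left hlt, hy]
    rw [h1] at hy'
    exact (Option.some.inj hy').symm
  subst hyy
  rw [hI] at hInI
  have hreal : r9 ∈ IsReal (X (e α2)) :=
    (reglr_IsReal _).1 r1 (hX (e α2)) r9 (hr9.trans (hr8'.trans (hr7'.trans hr41)))
  have hfin := inI_code hreal (down_meets _ _ hyc _ hr9) hInI
  apply hcS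
  rw [Finset.mem_biUnion]
  refine ⟨d, hdS, ?_⟩
  simp only [Finset.mem_insert, Finset.mem_singleton]
  omega


theorem C_small {K E Ω : Type} [LinearOrder Ω] [WellFoundedLT Ω] (hL : Nice (Le' P)) (hΩ : Reg Ω)
    (hK : #K = ℵ_ 1) (hΩ' : ∀ α : Ω, #(Set.Iio α) ≤ ℵ_ 1) (hBig : HasBig P Ω) [Nonempty E]
    (X : E → RName P) (p : P) (hX : ∀ e, p ∈ IsReal (X e)) (hγ : p ∈ GammaSet X) :
    ∃ κ : K → E, ∀ q ≤ p, ∀ e, q ∉ fall fun ξ => RealNe (X e) (X (κ ξ)) := by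
  by_contra hcon
  push Not at hcon
  obtain ⟨e, q, hq, hne⟩ := C_select hK hΩ' X p (fun κ => by
    obtain ⟨q, hq, e, he⟩ := hcon κ
    exact ⟨q, hq, e, he⟩)
  obtain ⟨st, hst1, hst2, hbig⟩ := hBig (fun α => X (e α)) q
    (fun α => (reglr_IsReal _).1 p (hX (e α)) (q α) (hq α)) hne
  have hA0 : ∀ α, DownL (Le' P) {r : P | r ≤ q α} := fun α r hr t ht => le_trans ht hr
  obtain ⟨β, hβ⟩ := bd hL hΩ (fun α => {r : P | r ≤ q α}) hA0
  obtain ⟨α, hα⟩ := hΩ Unit (by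
    rw [Cardinal.mk_unit]
    exact Cardinal.one_le_aleph0.trans (Cardinal.aleph0_le_aleph 1)) (fun _ => β)
  obtain ⟨r0, hr0q, hr0⟩ := hβ α (hα ()) (q α) (le_refl (q α))
  obtain ⟨r1, hr10, N0, hN0⟩ := hbig (fun α => {r : P | r ≤ q α}) hA0 (fun _ _ h => h) r0 hr0
  have hr1p : r1 ≤ p := le_trans hr10 (le_trans hr0q (hq α))
  have homega : r1 ∈ fall fun k => OmegaCover X (UC st X k) := by
    intro k
    refine C_omega st hst1 hst2 X r1 (fun e' => (reglr_IsReal _).1 p (hX e') r1 hr1p) N0 ?_ k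
    intro n hn r' hr' S' hS'
    obtain ⟨r2, hr2, C, hC, hCu⟩ := hN0 n hn r' hr'
    obtain ⟨c, hc, hcS⟩ := Finset.exists_mem_notMem_of_card_lt_card
      (show S'.card < C.card by omega)
    obtain ⟨α', _, r3, hr3, _, y, hy, hyc⟩ := hCu c hc r2 (le_refl r2) α
    exact ⟨r3, le_trans hr3 hr2, y, hy, e α', c, hcS, hyc⟩
  obtain ⟨r, hr, hrs⟩ := mem_fimp.1 (hγ (ℕ × Finset ℤ × E) (UC st X)) r1 hr1p homega
  obtain ⟨r2, hr2, s, hs, hγ'⟩ := mem_fex.1 hrs r le_rfl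
  have hr21 : r2 ≤ r1 := le_trans hr2 hr
  exact C_contra hL hΩ st hst1 X r2 (fun e' => (reglr_IsReal _).1 p (hX e') r2 (hr21.trans hr1p))
    e q (unb_down hL _ r0 hr0 r2 (le_trans hr21 hr10)) hbig s hs hγ'

/-- the maximal principle. -/
theorem full {X : Type} (φ : (X → Set P) → Set P) (hreg : ∀ f, Reglr (φ f))
    (hcongr : ∀ q f g, (∀ x, ∀ r ≤ q, r ∈ meets (f x) ↔ r ∈ meets (g x)) → q ∈ φ f → q ∈ φ g)
    (p : P) (hp : p ∈ fex φ) : ∃ f, p ∈ φ f := by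
  classical
  let D : Set P := {q | q ≤ p ∧ ∃ f, q ∈ φ f}
  let T : Set (Set P) := {B | B ⊆ D ∧ ∀ a ∈ B, ∀ b ∈ B, (∃ r, r ≤ a ∧ r ≤ b) → a = b}
  obtain ⟨B, hB⟩ : ∃ B, Maximal (· ∈ T) B := by
    refine zorn_subset T fun c hc hchain => ⟨⋃₀ c, ⟨?_, ?_⟩, fun s hs => Set.subset_sUnion_of_mem hs⟩
    · exact Set.sUnion_subset fun s hs => (hc hs).1
    · rintro a ⟨s, hs, has⟩ b ⟨t, ht, hbt⟩ hr
      rcases hchain.total hs ht with h | h
      · exact (hc ht).2 a (h has) b hbt hr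
      · exact (hc hs).2 a has b (h hbt) hr
  have hBD : B ⊆ D := hB.prop.1
  have hBa : ∀ a ∈ B, ∀ b ∈ B, (∃ r, r ≤ a ∧ r ≤ b) → a = b := hB.prop.2
  have hmax : ∀ d ∈ D, ∃ b ∈ B, ∃ r, r ≤ d ∧ r ≤ b := by
    intro d hd
    by_contra hno
    push Not at hno
    have hins : insert d B ∈ T := by
      refine ⟨Set.insert_subset hd hBD, ?_⟩
      rintro a (rfl | ha) b (rfl | hb) ⟨r, hra, hrb⟩
      · rfl
      · exact absurd hrb (hno b hb r hra)
      · exact absurd hra (hno a ha r hrb)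
      · exact hBa a ha b hb ⟨r, hra, hrb⟩
    have hdB : d ∈ B := hB.le_of_ge hins (Set.subset_insert d B) (Set.mem_insert d B)
    exact hno d hdB d le_rfl le_rfl
  have hf : ∀ b : P, ∃ f : X → Set P, b ∈ B → b ∈ φ f := by
    intro b
    by_cases hb : b ∈ B
    · obtain ⟨f, hf⟩ := (hBD hb).2
      exact ⟨f, fun _ => hf⟩
    · exact ⟨fun _ => ∅, fun h => absurd h hb⟩
  choose f hf using hf
  let F : X → Set P := fun x => {r | ∃ b ∈ B, r ≤ b ∧ r ∈ meets (f b x)}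
  have hFf : ∀ b ∈ B, ∀ x, ∀ r ≤ b, r ∈ meets (f b x) ↔ r ∈ meets (F x) := by
    intro b hb x r hr
    constructor
    · intro h q hq
      exact ⟨q, le_rfl, q, ⟨b, hb, hq.trans hr, down_meets _ _ h _ hq⟩, le_rfl⟩
    · intro h
      refine (reglr_meets (f b x)).2 r fun q hq => ?_
      obtain ⟨t, ht, s, ⟨b', hb', hsb', hs⟩, hts⟩ := h q hq
      have hbb : b = b' := hBa b hb b' hb' ⟨t, (ht.trans hq).trans hr, hts.trans hsb'⟩
      subst hbb
      exact ⟨t, ht, down_meets _ _ hs _ hts⟩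
  have hBF : ∀ b ∈ B, b ∈ φ F := fun b hb => hcongr b (f b) F (hFf b hb) (hf b hb)
  refine ⟨F, (hreg F).2 p fun q hq => ?_⟩
  obtain ⟨r, hr, g, hg⟩ := mem_fex.1 hp q hq
  obtain ⟨b, hb, t, htr, htb⟩ := hmax r ⟨hr.trans hq, g, hg⟩
  exact ⟨t, htr.trans hr, (hreg F).1 b (hBF b hb) t htb⟩

/-- `φ` and `ψ` have the same elements below `q` -/
def Eqb (q : P) (φ ψ : Set P) : Prop := ∀ r ≤ q, (r ∈ φ ↔ r ∈ ψ)

theorem eqb_fnot {q : P} {φ ψ : Set P} (h : Eqb q φ ψ) : Eqb q (fnot φ) (fnot ψ) :=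
  fun _ hr => ⟨fun H t ht ht' => H t ht ((h t (ht.trans hr)).2 ht'),
    fun H t ht ht' => H t ht ((h t (ht.trans hr)).1 ht')⟩

theorem eqb_fand {q : P} {φ ψ φ' ψ' : Set P} (h : Eqb q φ ψ) (h' : Eqb q φ' ψ') :
    Eqb q (fand φ φ') (fand ψ ψ') :=
  fun r hr => and_congr (h r hr) (h' r hr)

theorem eqb_fall {ι : Sort v} {q : P} {φ ψ : ι → Set P} (h : ∀ i, Eqb q (φ i) (ψ i)) :
    Eqb q (fall φ) (fall ψ) :=
  fun r hr => forall_congr' fun i => h i r hr

theorem eqb_fex {ι : Sort v} {q : P} {φ ψ : ι → Set P} (h : ∀ i, Eqb q (φ i) (ψ i)) :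
    Eqb q (fex φ) (fex ψ) := eqb_fnot (eqb_fall fun i => eqb_fnot (h i))

theorem eqb_fimp {q : P} {φ ψ φ' ψ' : Set P} (h : Eqb q φ ψ) (h' : Eqb q φ' ψ') :
    Eqb q (fimp φ φ') (fimp ψ ψ') := eqb_fnot (eqb_fand h (eqb_fnot h'))

theorem eqb_refl (q : P) (φ : Set P) : Eqb q φ φ := fun _ _ => Iff.rfl


theorem cov_full {E : Type} (s ε : ℚ) (Y : E → RName P) (p : P)
    (hp : p ∈ fex fun J : ℕ → ℚ × ℚ → Set P => Cov s ε Y J) :
    ∃ J : ℕ → ℚ × ℚ → Set P, p ∈ Cov s ε Y J := by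
  have hp' : p ∈ fex fun F : ℕ × (ℚ × ℚ) → Set P => Cov s ε Y (fun i I => F (i, I)) := by
    rw [mem_fex] at hp ⊢
    intro q hq
    obtain ⟨r, hr, J, hJ⟩ := hp q hq
    exact ⟨r, hr, fun x => J x.1 x.2, hJ⟩
  have hreg : ∀ F : ℕ × (ℚ × ℚ) → Set P, Reglr (Cov s ε Y (fun i I => F (i, I))) := by
    intro F
    refine reglr_fand (reglr_fand (reglr_IsFun _) ?_) (reglr_fall fun _ => reglr_fex _)
    exact reglr_fall fun _ => reglr_fall fun _ =>
      reglr_fimp (down_fall fun _ => down_fall fun _ => down_meets _) _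
  have hcongr : ∀ (q : P) (f g : ℕ × (ℚ × ℚ) → Set P),
      (∀ x, ∀ r ≤ q, r ∈ meets (f x) ↔ r ∈ meets (g x)) →
      q ∈ Cov s ε Y (fun i I => f (i, I)) → q ∈ Cov s ε Y (fun i I => g (i, I)) := by
    intro q f g hfg hq
    have hm : ∀ i I, Eqb q (meets (f (i, I))) (meets (g (i, I))) := fun i I r hr => hfg (i, I) r hr
    have key : Eqb q (Cov s ε Y (fun i I => f (i, I))) (Cov s ε Y (fun i I => g (i, I))) := by
      refine eqb_fand (eqb_fand (eqb_fand ?_ ?_) ?_) ?_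
      · exact eqb_fall fun i => eqb_fex fun I => hm i I
      · exact eqb_fall fun i => eqb_fall fun I => eqb_fall fun I' =>
          eqb_fimp (eqb_fand (hm i I) (hm i I')) (eqb_refl _ _)
      · exact eqb_fall fun F => eqb_fall fun b =>
          eqb_fimp (eqb_fall fun i => eqb_fall fun _ => hm i (b i)) (eqb_refl _ _)
      · exact eqb_fall fun e => eqb_fex fun i => eqb_fex fun I =>
          eqb_fand (hm i I) (eqb_refl _ _)
    exact (key q le_rfl).1 hq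
  obtain ⟨f, hf⟩ := full (fun F : ℕ × (ℚ × ℚ) → Set P => Cov s ε Y (fun i I => F (i, I)))
    hreg hcongr p hp'
  exact ⟨_, hf⟩

/-- the sums of the `s`-th powers of the lengths of the intervals `J i`, `i ≥ m`, is at most `τ` -/
def Tail (s : ℝ) (J : ℕ → ℚ × ℚ → Set P) (τ : ℝ) (m : ℕ) : Set P :=
  {r | ∀ F : Finset ℕ, (∀ i ∈ F, m ≤ i) → ∀ b : ℕ → ℚ × ℚ, ∀ r' ≤ r,
    (∀ i ∈ F, r' ∈ meets (J i (b i))) → ∑ i ∈ F, wt s (b i) ≤ τ}


theorem B_tail (s : ℝ) (J : ℕ → ℚ × ℚ → Set P) (ε : ℝ) (q : P) (hJ : q ∈ SumLE (wt s) J ε)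
    (τ : ℝ) (hτ : 0 < τ) : ∃ r ≤ q, ∃ m, r ∈ Tail s J τ m := by
  by_contra hcon
  push Not at hcon
  have hstep : ∀ r ≤ q, ∀ m, ∃ F : Finset ℕ, (∀ i ∈ F, m ≤ i) ∧ ∃ b : ℕ → ℚ × ℚ, ∃ r' ≤ r,
      (∀ i ∈ F, r' ∈ meets (J i (b i))) ∧ τ < ∑ i ∈ F, wt s (b i) := by
    intro r hr m
    have h := hcon r hr m
    unfold Tail at h
    simp only [Set.mem_ofPred_eq, not_forall, not_le] at h
    obtain ⟨F, hF, b, r', hr', h1, h2⟩ := h
    exact ⟨F, hF, b, r', hr', h1, h2⟩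
  have key : ∀ t : ℕ, ∃ r ≤ q, ∃ (F : Finset ℕ) (b : ℕ → ℚ × ℚ) (m : ℕ), (∀ i ∈ F, i < m) ∧
      (∀ i ∈ F, r ∈ meets (J i (b i))) ∧ (t : ℝ) * τ ≤ ∑ i ∈ F, wt s (b i) := by
    intro t
    induction t with
    | zero => exact ⟨q, le_rfl, ∅, fun _ => (0, 0), 0, by simp, by simp, by simp⟩
    | succ t ih =>
      obtain ⟨r, hr, F, b, m, hF, hb, hsum⟩ := ih
      obtain ⟨F', hF', b', r', hr', hb', hsum'⟩ := hstep r hr m
      refine ⟨r', hr'.trans hr, F ∪ F', fun i => if i < m then b i else b' i,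
        max m (F'.sup id + 1), ?_, ?_, ?_⟩
      · intro i hi
        rcases Finset.mem_union.1 hi with h | h
        · exact lt_max_of_lt_left (hF i h)
        · refine lt_max_of_lt_right (Nat.lt_succ_of_le ?_)
          exact Finset.le_sup (f := id) h
      · intro i hi
        rcases Finset.mem_union.1 hi with h | h
        · have := hF i h
          simp only [this, if_true]
          exact down_meets _ _ (hb i h) _ hr'
        · have := hF' i h
          simp only [not_lt.2 this, if_false]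
          exact hb' i h
      · have hdis : Disjoint F F' := by
          rw [Finset.disjoint_left]
          intro i h1 h2
          exact absurd (hF i h1) (not_lt.2 (hF' i h2))
        rw [Finset.sum_union hdis]
        have e1 : ∑ i ∈ F, wt s (if i < m then b i else b' i) = ∑ i ∈ F, wt s (b i) :=
          Finset.sum_congr rfl fun i hi => by rw [if_pos (hF i hi)]
        have e2 : ∑ i ∈ F', wt s (if i < m then b i else b' i) = ∑ i ∈ F', wt s (b' i) :=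
          Finset.sum_congr rfl fun i hi => by rw [if_neg (not_lt.2 (hF' i hi))]
        rw [e1, e2]
        push_cast
        linarith
  obtain ⟨t, ht⟩ := exists_nat_gt (ε / τ)
  obtain ⟨r, hr, F, b, m, hF, hb, hsum⟩ := key t
  obtain ⟨r', _, hr'⟩ := mem_fimp.1 (hJ F b) r hr (fun i hi => hb i hi)
  have h1 : ∑ i ∈ F, wt s (b i) ≤ ε := hr'
  rw [div_lt_iff₀ hτ] at ht
  linarith


theorem B_wt (s : ℝ) (hs : 0 < s) (I : ℚ × ℚ) (δ : ℝ) (hδ : 0 < δ) :
    ∃ v : ℕ, ∀ c : ℤ, wt2 s ((((c : ℚ) - 1) / 2 ^ v, ((c : ℚ) + 2) / 2 ^ v), I) ≤ wt s I + δ := by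
  set a : ℝ := max (((I.2 - I.1 : ℚ) : ℝ)) 0 with ha
  have hc : ContinuousAt (fun η : ℝ => (η + a) ^ s) 0 :=
    ContinuousAt.rpow_const (by fun_prop) (Or.inr hs.le)
  have hev : ∀ᶠ η in nhds (0 : ℝ), (η + a) ^ s < a ^ s + δ := by
    apply hc.eventually (gt_mem_nhds _)
    show (0 + a) ^ s < a ^ s + δ
    rw [zero_add]
    linarith
  rw [Metric.eventually_nhds_iff] at hev
  obtain ⟨η0, hη0, hη⟩ := hev
  obtain ⟨v, hv⟩ := exists_pow_lt_of_lt_one (show (0 : ℝ) < η0 / 3 by positivity) (show (1 / 2 : ℝ) < 1 by norm_num)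
  refine ⟨v, fun c => ?_⟩
  have h1 : (((((c : ℚ) + 2) / 2 ^ v - ((c : ℚ) - 1) / 2 ^ v : ℚ) : ℚ) : ℝ) = 3 / 2 ^ v := by
    push_cast
    ring
  have h2 : max ((((((c : ℚ) + 2) / 2 ^ v - ((c : ℚ) - 1) / 2 ^ v : ℚ) : ℚ) : ℝ)) 0 = 3 / 2 ^ v := by
    rw [h1]
    exact max_eq_left (by positivity)
  unfold wt2 wt
  show (max ((((((c : ℚ) + 2) / 2 ^ v - ((c : ℚ) - 1) / 2 ^ v : ℚ) : ℚ) : ℝ)) 0 + a) ^ s ≤ a ^ s + δ
  rw [h2]
  have h3 : (3 : ℝ) / 2 ^ v < η0 := by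
    have e : (3 : ℝ) / 2 ^ v = 3 * (1 / 2) ^ v := by
      rw [one_div, inv_pow]; ring
    rw [e]
    linarith
  have h4 : dist ((3 : ℝ) / 2 ^ v) 0 < η0 := by
    rw [Real.dist_eq, sub_zero, abs_of_nonneg (by positivity)]
    exact h3
  exact (hη h4).le

/-- the last number of the second kind -/
def lastv (w : List (ℕ × ℕ)) : ℕ := (w.getLast?.map Prod.snd).getD 0

/-- the indices of the intervals which are treated at the stage `n` -/
def PI (n lv v : ℕ) : Finset (ℕ × ℕ) :=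
  (Finset.range n ×ˢ Finset.Ico lv v) ∪ ({n} ×ˢ Finset.range v)

/-- thresholds -/
noncomputable def tau (ε : ℚ) (n : ℕ) : ℚ := ε / (2 ^ (n + 3) * (n + 1))

/-- decoding of a finite list of rectangles, which is replaced by the empty list if the sum is too
large -/
noncomputable def decB (s ε : ℚ) (n a : ℕ) : List ((ℚ × ℚ) × (ℚ × ℚ)) :=
  open Classical in
  if ((((Encodable.decode a).getD [] : List ((ℚ × ℚ) × (ℚ × ℚ))).map (wt2 s)).sum ≤ (ε : ℝ) / 2 ^ (n + 1))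
  then (Encodable.decode a).getD [] else []

/-- the relation used for the product -/
def RB {K : Type} (s ε : ℚ) (x : K → RName P) (J : ℕ → ℕ → ℚ × ℚ → Set P) (w : List (ℕ × ℕ))
    (ξ : K) (y : ℕ × ℕ) : Set P :=
  {r | ∃ b : ℕ → ℕ → ℚ × ℚ,
    (∀ ki ∈ PI w.length (lastv w) y.2, r ∈ meets (J ki.1 ki.2 (b ki.1 ki.2))) ∧
    (∑ ki ∈ PI w.length (lastv w) y.2, wt s (b ki.1 ki.2) ≤ 2 * (tau ε w.length : ℝ) →
      ∀ ki ∈ PI w.length (lastv w) y.2, ∃ B ∈ decB s ε w.length y.1,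
        B.2 = b ki.1 ki.2 ∧ r ∈ InI (x ξ) B.1)}

/-- the name of the thresholds -/
def HB (s ε : ℚ) (J : ℕ → ℕ → ℚ × ℚ → Set P) (w : List (ℕ × ℕ)) (v : ℕ) : Set P :=
  {r | ∀ k ≤ w.length, r ∈ Tail s (J k) ((tau ε (w.length + 1) : ℝ) / (w.length + 1)) v}

/-- finitely many decisions -/
theorem fin_dec_aux {X Y : Type} [Nonempty Y] (S : Finset X) (φ : X → Y → Set P)
    (hd : ∀ x y, Down (φ x y)) (p : P) (h : ∀ x ∈ S, ∀ q ≤ p, ∃ r ≤ q, ∃ y, r ∈ φ x y) :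
    ∀ q ≤ p, ∃ r ≤ q, ∃ f : X → Y, ∀ x ∈ S, r ∈ φ x (f x) := by
  classical
  induction S using Finset.induction_on with
  | empty => exact fun q hq => ⟨q, le_rfl, fun _ => Classical.arbitrary Y, by simp⟩
  | insert a S ha ih =>
    intro q hq
    obtain ⟨r, hr, f, hf⟩ := ih (fun x hx => h x (Finset.mem_insert_of_mem hx)) q hq
    obtain ⟨t, ht, y, hy⟩ := h a (Finset.mem_insert_self _ _) r (hr.trans hq)
    refine ⟨t, ht.trans hr, Function.update f a y, fun x hx => ?_⟩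
    rcases Finset.mem_insert.1 hx with rfl | hx
    · rw [Function.update_self]; exact hy
    · have hne : x ≠ a := fun h => ha (h ▸ hx)
      rw [Function.update_of_ne hne]
      exact hd _ _ _ (hf x hx) _ ht


theorem B_linked {K : Type} (s ε : ℚ) (hs : 0 < s) (hε : 0 < ε) (x : K → RName P)
    (J : ℕ → ℕ → ℚ × ℚ → Set P) (p : P) (hx : ∀ ξ, p ∈ IsReal (x ξ)) (hJ : ∀ k, p ∈ IsFun (J k))
    (w : List (ℕ × ℕ)) (F : Finset K) (hF : F.card ≤ w.length) (m : ℕ) (q' : P) (hq' : q' ≤ p) :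
    ∃ r ≤ q', ∃ a v, m ≤ v ∧ ∀ ξ ∈ F, r ∈ meets (RB s ε x J w ξ (a, v)) := by
  classical
  set n := w.length with hn
  set S := PI n (lastv w) m with hS
  obtain ⟨q1, hq1, b0, hb0⟩ := fin_dec_aux (P := P) S
    (fun (ki : ℕ × ℕ) (I : ℚ × ℚ) => meets (J ki.1 ki.2 I)) (fun _ _ => down_meets _) q'
    (fun ki _ q hq => by
      have h1 : q ∈ IsFun (J ki.1) := down_IsFun _ _ (hJ ki.1) _ (hq.trans hq')
      exact IsFun.total h1 ki.2) q' le_rfl
  set b : ℕ → ℕ → ℚ × ℚ := fun k i => b0 (k, i) with hb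
  have hb1 : ∀ ki ∈ S, q1 ∈ meets (J ki.1 ki.2 (b ki.1 ki.2)) := fun ki hki => hb0 ki hki
  by_cases hsum : ∑ ki ∈ S, wt s (b ki.1 ki.2) ≤ 2 * (tau ε n : ℝ)
  swap
  · refine ⟨q1, hq1, 0, m, le_rfl, fun ξ _ => meets_of_mem ⟨b, hb1, fun h => absurd h hsum⟩⟩
  have hεr : (0 : ℝ) < (ε : ℝ) := by exact_mod_cast hε
  have hsr : (0 : ℝ) < (s : ℝ) := by exact_mod_cast hs
  set δ : ℝ := (ε : ℝ) / 2 ^ (n + 2) / (F.card * S.card + 1) with hδdef
  have hden : (0 : ℝ) < (F.card * S.card + 1 : ℝ) := by positivity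
  have hδ : 0 < δ := by positivity
  choose V hV using fun ki : ℕ × ℕ => B_wt (s : ℝ) hsr (b ki.1 ki.2) δ hδ
  obtain ⟨q2, hq2, c, hc⟩ := fin_dec_aux (P := P) (F ×ˢ S)
    (fun (y : K × (ℕ × ℕ)) (c : ℤ) => meets (x y.1 (V y.2) c)) (fun _ _ => down_meets _) q1
    (fun y _ q hq => by
      have h1 : q ∈ IsReal (x y.1) := (reglr_IsReal _).1 _ (hx y.1) _ (hq.trans (hq1.trans hq'))
      exact IsFun.total h1.1 (V y.2)) q1 le_rfl
  set B : K × (ℕ × ℕ) → (ℚ × ℚ) × (ℚ × ℚ) := fun y =>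
    ((((c y : ℚ) - 1) / 2 ^ (V y.2), ((c y : ℚ) + 2) / 2 ^ (V y.2)), b y.2.1 y.2.2) with hB
  set L : List ((ℚ × ℚ) × (ℚ × ℚ)) := (F ×ˢ S).toList.map B with hL
  have hLsum : (L.map (wt2 s)).sum ≤ (ε : ℝ) / 2 ^ (n + 1) := by
    have h1 : (L.map (wt2 s)).sum = ∑ y ∈ F ×ˢ S, wt2 s (B y) := by
      rw [hL, List.map_map]
      exact Finset.sum_map_toList _ _
    have h2 : ∑ y ∈ F ×ˢ S, wt2 s (B y) ≤ ∑ y ∈ F ×ˢ S, (wt s (b y.2.1 y.2.2) + δ) :=
      Finset.sum_le_sum fun y _ => hV y.2 (c y)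
    have h3 : ∑ y ∈ F ×ˢ S, (wt s (b y.2.1 y.2.2) + δ) =
        F.card * ∑ ki ∈ S, wt s (b ki.1 ki.2) + F.card * S.card * δ := by
      rw [Finset.sum_product]
      simp only [Finset.sum_const, Finset.sum_add_distrib, nsmul_eq_mul]
      ring
    have hw0 : 0 ≤ ∑ ki ∈ S, wt s (b ki.1 ki.2) :=
      Finset.sum_nonneg fun ki _ => Real.rpow_nonneg (le_max_right _ _) _
    have hFn : (F.card : ℝ) ≤ (n : ℝ) := by exact_mod_cast hF
    have h4 : (F.card : ℝ) * ∑ ki ∈ S, wt s (b ki.1 ki.2) ≤ (ε : ℝ) / 2 ^ (n + 2) := by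
      have h5 : (F.card : ℝ) * ∑ ki ∈ S, wt s (b ki.1 ki.2) ≤ (n : ℝ) * (2 * (tau ε n : ℝ)) :=
        mul_le_mul hFn hsum hw0 (by positivity)
      refine h5.trans ?_
      have h6 : ((tau ε n : ℚ) : ℝ) = (ε : ℝ) / (2 ^ (n + 3) * (n + 1)) := by
        simp only [tau]
        push_cast
        ring
      rw [h6]
      have h7 : (n : ℝ) * (2 * ((ε : ℝ) / (2 ^ (n + 3) * (n + 1)))) =
          (ε : ℝ) / 2 ^ (n + 2) * ((n : ℝ) / (n + 1)) := by
        have : (2 : ℝ) ^ (n + 3) = 2 * 2 ^ (n + 2) := by ring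
        rw [this]
        field_simp
      rw [h7]
      have h8 : (n : ℝ) / (n + 1) ≤ 1 := by
        rw [div_le_one (by positivity)]
        linarith
      have h9 : (0 : ℝ) ≤ (ε : ℝ) / 2 ^ (n + 2) := by positivity
      nlinarith
    have h5 : (F.card : ℝ) * S.card * δ ≤ (ε : ℝ) / 2 ^ (n + 2) := by
      have h6 : (F.card : ℝ) * S.card * δ =
          (ε : ℝ) / 2 ^ (n + 2) * ((F.card * S.card : ℝ) / (F.card * S.card + 1)) := by
        rw [hδdef]
        field_simp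
      rw [h6]
      have h8 : (F.card * S.card : ℝ) / (F.card * S.card + 1) ≤ 1 := by
        rw [div_le_one hden]
        linarith
      have h9 : (0 : ℝ) ≤ (ε : ℝ) / 2 ^ (n + 2) := by positivity
      nlinarith
    have h10 : (ε : ℝ) / 2 ^ (n + 2) + (ε : ℝ) / 2 ^ (n + 2) = (ε : ℝ) / 2 ^ (n + 1) := by
      have : (2 : ℝ) ^ (n + 2) = 2 * 2 ^ (n + 1) := by ring
      rw [this]
      field_simp
      norm_num
    rw [h1]
    linarith
  have hdec : decB s ε n (Encodable.encode L) = L := by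
    simp only [decB, Encodable.encodek, Option.getD_some]
    rw [if_pos hLsum]
  refine ⟨q2, hq2.trans hq1, Encodable.encode L, m, le_rfl, fun ξ hξ => meets_of_mem ⟨b, ?_, ?_⟩⟩
  · intro ki hki
    exact down_meets _ _ (hb1 ki hki) _ hq2
  · intro _ ki hki
    refine ⟨B (ξ, ki), ?_, rfl, ?_⟩
    · rw [← hn, hdec, hL]
      exact List.mem_map_of_mem (Finset.mem_toList.2 (Finset.mem_product.2 ⟨hξ, hki⟩))
    · refine mem_InI.2 fun q hq => ⟨q, le_rfl, V ki, c (ξ, ki), ?_, ?_, ?_⟩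
      · exact down_meets _ _ (hc (ξ, ki) (Finset.mem_product.2 ⟨hξ, hki⟩)) _ hq
      · have h2 : (0 : ℚ) < 2 ^ (V ki) := by positivity
        show ((c (ξ, ki) : ℚ) - 1) / 2 ^ (V ki) < (c (ξ, ki) : ℚ) / 2 ^ (V ki)
        exact div_lt_div_of_pos_right (by linarith) h2
      · have h2 : (0 : ℚ) < 2 ^ (V ki) := by positivity
        show ((c (ξ, ki) : ℚ) + 1) / 2 ^ (V ki) ≤ ((c (ξ, ki) : ℚ) + 2) / 2 ^ (V ki)
        exact div_le_div_of_nonneg_right (by linarith) h2.le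

theorem tail_down (s : ℝ) (J : ℕ → ℚ × ℚ → Set P) (τ : ℝ) (m : ℕ) {r r' : P} (h : r ∈ Tail s J τ m)
    (hr : r' ≤ r) : r' ∈ Tail s J τ m :=
  fun F hF b t ht hb => h F hF b t (ht.trans hr) hb

theorem tail_mono (s : ℝ) (J : ℕ → ℚ × ℚ → Set P) (τ : ℝ) {m m' : ℕ} (hm : m ≤ m') {r : P}
    (h : r ∈ Tail s J τ m) : r ∈ Tail s J τ m' :=
  fun F hF b t ht hb => h F (fun i hi => hm.trans (hF i hi)) b t ht hb


theorem B_total {E' : Type} (s ε : ℚ) (hε : 0 < ε) (Y : E' → RName P) (J : ℕ → ℕ → ℚ × ℚ → Set P)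
    (p : P) (hJ : ∀ k, p ∈ Cov s (tau ε k) Y (J k)) (w : List (ℕ × ℕ)) (q : P) (hq : q ≤ p) :
    ∃ r ≤ q, ∃ v, r ∈ meets (HB s ε J w v) := by
  have hτ : (0 : ℝ) < (tau ε (w.length + 1) : ℝ) / (w.length + 1) := by
    have h1 : 0 < tau ε (w.length + 1) := by
      unfold tau; positivity
    have h2 : (0 : ℝ) < (tau ε (w.length + 1) : ℝ) := by exact_mod_cast h1
    positivity
  have key : ∀ N : ℕ, ∃ r ≤ q, ∃ v, ∀ k < N,
      r ∈ Tail s (J k) ((tau ε (w.length + 1) : ℝ) / (w.length + 1)) v := by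
    intro N
    induction N with
    | zero => exact ⟨q, le_rfl, 0, fun k hk => absurd hk (Nat.not_lt_zero k)⟩
    | succ N ih =>
      obtain ⟨r, hr, v, hv⟩ := ih
      have hS : p ∈ SumLE (wt s) (J N) (tau ε N : ℝ) := (hJ N).1.2
      have hd : Down (SumLE (wt s) (J N) (tau ε N : ℝ)) :=
        down_fall fun _ => down_fall fun _ => down_fimp _ _
      obtain ⟨r', hr', m, hm⟩ := B_tail s (J N) (tau ε N : ℝ) r (hd p hS r (hr.trans hq)) _ hτ
      refine ⟨r', hr'.trans hr, max v m, fun k hk => ?_⟩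
      rcases Nat.lt_succ_iff_lt_or_eq.1 hk with h | rfl
      · exact tail_mono _ _ _ (le_max_left _ _) (tail_down _ _ _ _ (hv k h) hr')
      · exact tail_mono _ _ _ (le_max_right _ _) hm
  obtain ⟨r, hr, v, hv⟩ := key (w.length + 1)
  exact ⟨r, hr, v, meets_of_mem fun k hk => hv k (Nat.lt_succ_of_le hk)⟩

/-- the name of the sequence of rectangles -/
def BB (s ε : ℚ) (st : P → List (ℕ × ℕ)) (i : ℕ) (B : (ℚ × ℚ) × (ℚ × ℚ)) : Set P :=
  {r | ∃ y, (st r)[(Nat.unpair i).1]? = some y ∧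
    (decB s ε (Nat.unpair i).1 y.1).getD (Nat.unpair i).2 ((0, 0), (0, 0)) = B}

theorem bseq_wt2_nonneg (s : ℝ) (B : (ℚ × ℚ) × (ℚ × ℚ)) : 0 ≤ wt2 s B := by
  unfold wt2
  exact Real.rpow_nonneg (add_nonneg (le_max_right _ _) (le_max_right _ _)) _

theorem bseq_wt2_zero (s : ℝ) (hs : 0 < s) : wt2 s ((0, 0), (0, 0)) = 0 := by
  unfold wt2
  simp [Real.zero_rpow hs.ne']

theorem bseq_list {α : Type} (w : α → ℝ) (hw : ∀ a, 0 ≤ w a) (d : α) (hd : w d = 0) :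
    ∀ (l : List α) (M : ℕ), ∑ m ∈ Finset.range M, w (l.getD m d) ≤ (l.map w).sum := by
  intro l
  induction l with
  | nil => intro M; simp [hd]
  | cons a l ih =>
    intro M
    cases M with
    | zero =>
      rw [Finset.sum_range_zero]
      refine List.sum_nonneg ?_
      intro x hx
      obtain ⟨y, _, rfl⟩ := List.mem_map.1 hx
      exact hw y
    | succ M =>
      rw [Finset.sum_range_succ', List.map_cons, List.sum_cons]
      have := ih M
      simp only [List.getD_cons_succ, List.getD_cons_zero]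
      linarith

theorem bseq_decB (s ε : ℚ) (hε : 0 < ε) (n a : ℕ) :
    ((decB s ε n a).map (wt2 s)).sum ≤ (ε : ℝ) / 2 ^ (n + 1) := by
  unfold decB
  split_ifs with h
  · exact h
  · have : (0:ℝ) < ε := by exact_mod_cast hε
    simp only [List.map_nil, List.sum_nil]
    positivity

theorem bseq_geom (ε : ℝ) (hε : 0 < ε) (N : ℕ) :
    ∑ n ∈ Finset.range N, ε / 2 ^ (n + 1) ≤ ε := by
  have h : ∑ n ∈ Finset.range N, ε / 2 ^ (n + 1) = ε - ε / 2 ^ N := by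
    induction N with
    | zero => simp
    | succ N ih =>
      rw [Finset.sum_range_succ, ih]
      field_simp
      ring
  rw [h]
  have : 0 < ε / 2 ^ N := by positivity
  linarith

theorem bseq_prefix {α : Type} {l l' : List α} (h : l <+: l') {n : ℕ} {y : α}
    (hy : l[n]? = some y) : l'[n]? = some y := by
  obtain ⟨t, rfl⟩ := h
  have hn : n < l.length := by
    by_contra hn
    push Not at hn
    rw [List.getElem?_eq_none hn] at hy
    exact absurd hy (by simp)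
  rw [List.getElem?_append_left hn]
  exact hy

theorem bseq_down (s ε : ℚ) (st : P → List (ℕ × ℕ)) (hst : ∀ q r, r ≤ q → st q <+: st r)
    (i : ℕ) (B : (ℚ × ℚ) × (ℚ × ℚ)) : Down (BB s ε st i B) := by
  rintro r ⟨y, hy, hB⟩ q hq
  exact ⟨y, bseq_prefix (hst r q hq) hy, hB⟩


theorem B_seq (s ε : ℚ) (hs : 0 < s) (hε : 0 < ε) (st : P → List (ℕ × ℕ))
    (hst : ∀ q r, r ≤ q → st q <+: st r) (hst2 : ∀ q n, ∃ r ≤ q, n < (st r).length) (p : P) :
    p ∈ fand (IsFun (BB s ε st)) (SumLE (wt2 s) (BB s ε st) ε) := by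
  have hs' : (0:ℝ) < s := by exact_mod_cast hs
  have hε' : (0:ℝ) < ε := by exact_mod_cast hε
  refine ⟨⟨?_, ?_⟩, ?_⟩
  · intro i
    refine mem_fex.2 fun q hq => ?_
    obtain ⟨r, hr, hn⟩ := hst2 q (Nat.unpair i).1
    refine ⟨r, hr, (decB s ε (Nat.unpair i).1 ((st r)[(Nat.unpair i).1]).1).getD
      (Nat.unpair i).2 ((0, 0), (0, 0)), meets_of_mem ⟨_, List.getElem?_eq_getElem hn, rfl⟩⟩
  · intro i B B'
    refine mem_fimp.2 fun q hq hBB => ?_
    obtain ⟨r, hr, hrB⟩ := exists_of_meets (bseq_down s ε st hst i B) hBB.1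
    obtain ⟨t, ht, htB⟩ := exists_of_meets (bseq_down s ε st hst i B')
      (down_meets _ _ hBB.2 _ hr)
    have htB2 := bseq_down s ε st hst i B r hrB t ht
    refine ⟨t, ht.trans hr, ?_⟩
    obtain ⟨y, hy, h1⟩ := htB
    obtain ⟨y', hy', h2⟩ := htB2
    rw [hy] at hy'
    have hyy : y = y' := by injection hy'
    show B = B'
    rw [← h1, ← h2, hyy]
  · intro F b
    refine mem_fimp.2 fun q hq hF => ⟨q, le_rfl, ?_⟩
    show ∑ i ∈ F, wt2 s (b i) ≤ (ε : ℝ)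
    obtain ⟨r, hr, hlen⟩ := hst2 q (F.sup fun i => (Nat.unpair i).1)
    set yy : ℕ → ℕ × ℕ := fun n => ((st r)[n]?).getD (0, 0) with hyy
    set g : ℕ × ℕ → ℝ := fun x => wt2 s ((decB s ε x.1 (yy x.1).1).getD x.2 ((0, 0), (0, 0)))
      with hg
    have hb : ∀ i ∈ F, wt2 s (b i) = g (Nat.unpair i) := by
      intro i hi
      have h1 : r ∈ meets (BB s ε st i (b i)) := down_meets _ _ (hF i hi) _ hr
      obtain ⟨t, ht, y, hy, hB⟩ := exists_of_meets (bseq_down s ε st hst i (b i)) h1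
      have hn : (Nat.unpair i).1 < (st r).length :=
        lt_of_le_of_lt (Finset.le_sup (f := fun i => (Nat.unpair i).1) hi) hlen
      have h2 : (st r)[(Nat.unpair i).1]? = some ((st r)[(Nat.unpair i).1]) :=
        List.getElem?_eq_getElem hn
      have h3 := bseq_prefix (hst r t ht) h2
      rw [hy] at h3
      have h4 : y = (st r)[(Nat.unpair i).1] := by injection h3
      have h5 : yy (Nat.unpair i).1 = y := by
        rw [hyy]
        show ((st r)[(Nat.unpair i).1]?).getD (0, 0) = y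
        rw [h2, h4]
        rfl
      rw [hg]
      show wt2 s (b i) = wt2 s ((decB s ε (Nat.unpair i).1 (yy (Nat.unpair i).1).1).getD
        (Nat.unpair i).2 ((0, 0), (0, 0)))
      rw [h5, hB]
    rw [Finset.sum_congr rfl hb]
    have hinj : Function.Injective Nat.unpair := Nat.pairEquiv.symm.injective
    have h6 : ∑ i ∈ F, g (Nat.unpair i) = ∑ x ∈ F.image Nat.unpair, g x :=
      (Finset.sum_image (fun a _ b _ h => hinj h)).symm
    rw [h6]
    set N := (F.image Nat.unpair).sup Prod.fst + 1 with hN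
    set M := (F.image Nat.unpair).sup Prod.snd + 1 with hM
    have hsub : F.image Nat.unpair ⊆ Finset.range N ×ˢ Finset.range M := by
      intro x hx
      rw [Finset.mem_product, Finset.mem_range, Finset.mem_range]
      exact ⟨Nat.lt_succ_of_le (Finset.le_sup (f := Prod.fst) hx),
        Nat.lt_succ_of_le (Finset.le_sup (f := Prod.snd) hx)⟩
    have hg0 : ∀ x, 0 ≤ g x := fun x => bseq_wt2_nonneg _ _
    calc ∑ x ∈ F.image Nat.unpair, g x ≤ ∑ x ∈ Finset.range N ×ˢ Finset.range M, g x :=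
          Finset.sum_le_sum_of_subset_of_nonneg hsub fun x _ _ => hg0 x
      _ = ∑ n ∈ Finset.range N, ∑ m ∈ Finset.range M, g (n, m) := Finset.sum_product _ _ _
      _ ≤ ∑ n ∈ Finset.range N, (ε : ℝ) / 2 ^ (n + 1) := by
          refine Finset.sum_le_sum fun n _ => ?_
          have h7 := bseq_list (wt2 (s : ℝ)) (bseq_wt2_nonneg s)
            (((0, 0), (0, 0)) : (ℚ × ℚ) × (ℚ × ℚ)) (bseq_wt2_zero s hs')
            (decB s ε n (yy n).1) M
          exact h7.trans (bseq_decB s ε hε n (yy n).1)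
      _ ≤ ε := bseq_geom ε hε' N

theorem B_stage_list (l : List (ℕ × ℕ)) (n0 i : ℕ)
    (h : ∃ n, n0 ≤ n ∧ ∃ x : ℕ × ℕ, l[n]? = some x ∧ i < x.2) :
    ∃ w x, w ++ [x] <+: l ∧ n0 ≤ w.length ∧ (n0, i) ∈ PI w.length (lastv w) x.2 := by
  classical
  obtain ⟨hn0, x, hx, hix⟩ := Nat.find_spec h
  have hmin' : ∀ m, m < Nat.find h → ¬ (n0 ≤ m ∧ ∃ x : ℕ × ℕ, l[m]? = some x ∧ i < x.2) :=
    fun m hm => Nat.find_min h hm
  generalize Nat.find h = n at hn0 hx hmin'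
  have hlt : n < l.length := (List.getElem?_eq_some_iff.1 hx).1
  refine ⟨l.take n, x, ?_, ?_, ?_⟩
  · have h1 : l.take n ++ [x] = l.take (n + 1) := by
      rw [List.take_add_one, hx]; rfl
    rw [h1]
    exact List.take_prefix _ _
  · rw [List.length_take, min_eq_left hlt.le]; exact hn0
  · rw [List.length_take, min_eq_left hlt.le, PI, Finset.mem_union]
    rcases eq_or_lt_of_le hn0 with h1 | h1
    · right
      rw [Finset.mem_product, Finset.mem_singleton, Finset.mem_range]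
      exact ⟨h1, hix⟩
    · left
      rw [Finset.mem_product, Finset.mem_range, Finset.mem_Ico]
      refine ⟨h1, ?_, hix⟩
      have hn1 : n - 1 < l.length := by omega
      have h2 : l[n - 1]? = some l[n - 1] := List.getElem?_eq_getElem hn1
      have h3 := hmin' (n - 1) (by omega)
      have h4 : (l[n - 1]).2 ≤ i := by
        by_contra h5
        exact h3 ⟨by omega, _, h2, by omega⟩
      have h6 : (l.take n).getLast? = some l[n - 1] := by
        rw [List.getLast?_take, if_neg (by omega), h2]; rfl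
      show lastv (l.take n) ≤ i
      rw [lastv, h6]
      exact h4

theorem B_stage_long (st : P → List (ℕ × ℕ))
    (hst2 : ∀ q, ∀ m, ∃ r ≤ q, ∃ x : ℕ × ℕ, m ≤ x.2 ∧ st r = st q ++ [x]) (q : P) (n : ℕ) :
    ∃ r ≤ q, n ≤ (st r).length := by
  induction n with
  | zero => exact ⟨q, le_rfl, Nat.zero_le _⟩
  | succ n ih =>
    obtain ⟨r, hr, hn⟩ := ih
    obtain ⟨r', hr', x, _, hx⟩ := hst2 r 0
    refine ⟨r', hr'.trans hr, ?_⟩
    rw [hx, List.length_append, List.length_singleton]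
    omega


theorem B_stage (st : P → List (ℕ × ℕ)) (hst : ∀ q r, r ≤ q → st q <+: st r)
    (hst2 : ∀ q, ∀ m, ∃ r ≤ q, ∃ x : ℕ × ℕ, m ≤ x.2 ∧ st r = st q ++ [x]) (q : P) (n0 i : ℕ) :
    ∃ r ≤ q, ∃ w x, w ++ [x] <+: st r ∧ n0 ≤ w.length ∧ (n0, i) ∈ PI w.length (lastv w) x.2 := by
  obtain ⟨r0, hr0, hn⟩ := B_stage_long st hst2 q n0
  obtain ⟨r, hr, x, hx, hxr⟩ := hst2 r0 (i + 1)
  refine ⟨r, hr.trans hr0, B_stage_list (st r) n0 i ⟨(st r0).length, hn, x, ?_, by omega⟩⟩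
  rw [hxr, List.getElem?_append_right le_rfl, Nat.sub_self]
  rfl

theorem down_HB_9672 (s ε : ℚ) (J : ℕ → ℕ → ℚ × ℚ → Set P) (w : List (ℕ × ℕ)) (v : ℕ) :
    Down (HB s ε J w v) := by
  intro r hr q hq k hk F hF b r' hr'
  exact hr k hk F hF b r' (hr'.trans hq)

theorem getElem_9672 (w l : List (ℕ × ℕ)) (x : ℕ × ℕ) (h : w ++ [x] <+: l) :
    l[w.length]? = some x := by
  obtain ⟨t, rfl⟩ := h
  simp

theorem sumPI_9672 (n lv v : ℕ) (f : ℕ × ℕ → ℝ) :
    ∑ ki ∈ PI n lv v, f ki = ∑ k ∈ Finset.range n, ∑ i ∈ Finset.Ico lv v, f (k, i) +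
      ∑ i ∈ Finset.range v, f (n, i) := by
  unfold PI
  rw [Finset.sum_union, Finset.sum_product, Finset.sum_product, Finset.sum_singleton]
  rw [Finset.disjoint_left]
  rintro ⟨a, b⟩ h1 h2
  rw [Finset.mem_product] at h1 h2
  have h3 := Finset.mem_range.1 h1.1
  have h4 := Finset.mem_singleton.1 h2.1
  simp only at h3 h4
  omega


theorem B_point {K E' : Type} (s ε : ℚ) (hs : 0 < s) (hε : 0 < ε) (X : K → RName P)
    (Y : E' → RName P) (J : ℕ → ℕ → ℚ × ℚ → Set P) (p : P)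
    (hJ : ∀ k, p ∈ Cov s (tau ε k) Y (J k)) (st : P → List (ℕ × ℕ))
    (hst : ∀ q r, r ≤ q → st q <+: st r)
    (hst2 : ∀ q, ∀ m, ∃ r ≤ q, ∃ x : ℕ × ℕ, m ≤ x.2 ∧ st r = st q ++ [x])
    (hR : ∀ ξ, ∀ q ≤ p, ∃ r ≤ q, ∀ r' ≤ r, ∀ w x, (st r).length ≤ w.length →
        w ++ [x] <+: st r' → r' ∈ meets (RB s ε X J w ξ x))
    (hH : ∀ q ≤ p, ∃ r ≤ q, ∀ r' ≤ r, ∀ w x, (st r).length ≤ w.length →
        w ++ [x] <+: st r' → ∃ r'' ≤ r', ∃ v ≤ x.2, r'' ∈ meets (HB s ε J w v))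
    (ξ : K) (e' : E') : ∀ q1 ≤ p, ∃ r ≤ q1, ∃ i B, r ∈ meets (BB s ε st i B) ∧
      r ∈ InI (X ξ) B.1 ∧ r ∈ InI (Y e') B.2 := by
  intro q1 hq1
  obtain ⟨r1, hr1, hR1⟩ := hR ξ q1 hq1
  obtain ⟨r2, hr2, hH2⟩ := hH r1 (hr1.trans hq1)
  obtain ⟨n0, hn0⟩ : ∃ n0, n0 = max (st r1).length (st r2).length + 1 := ⟨_, rfl⟩
  have hr2p : r2 ≤ p := hr2.trans (hr1.trans hq1)
  obtain ⟨r3', hr3', i, hi⟩ := mem_fex.1 ((hJ n0).2 e') r2 hr2p
  obtain ⟨r3, hr3, I, hI1, hI2⟩ := mem_fex.1 hi r3' le_rfl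
  have hr32 : r3 ≤ r2 := hr3.trans hr3'
  obtain ⟨r4, hr4, w, x, hwx, hn, hPI⟩ := B_stage st hst hst2 r3 n0 i
  have hr42 : r4 ≤ r2 := hr4.trans hr32
  have hlen1 : (st r1).length ≤ w.length := by
    have := le_max_left (st r1).length (st r2).length
    omega
  have hlen2 : (st r2).length + 1 ≤ w.length := by
    have := le_max_right (st r1).length (st r2).length
    omega
  obtain ⟨r5, hr5, t, ht, hr5t⟩ := hR1 r4 (hr42.trans hr2) w x hlen1 hwx r4 le_rfl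
  obtain ⟨b, hb1, hb2⟩ := ht
  have hwne : w ≠ [] := by
    intro h
    rw [h, List.length_nil] at hlen2
    omega
  obtain ⟨w', x', hw'⟩ : ∃ w' x', w = w' ++ [x'] :=
    ⟨w.dropLast, w.getLast hwne, (List.dropLast_append_getLast hwne).symm⟩
  have hlast : lastv w = x'.2 := by
    unfold lastv
    rw [hw']
    simp
  have hlw' : w'.length + 1 = w.length := by
    rw [hw']
    simp
  have hpre : w' ++ [x'] <+: st r5 := by
    have h1 : w' ++ [x'] <+: w ++ [x] := by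
      rw [← hw']
      exact List.prefix_append _ _
    exact h1.trans (hwx.trans (hst r4 r5 hr5))
  obtain ⟨r6, hr6, v, hv, hr6m⟩ := hH2 r5 (hr5.trans hr42) w' x' (by omega) hpre
  obtain ⟨r7, hr7, s0, hs0, hr7s⟩ := hr6m r6 le_rfl
  have hHB : r7 ∈ HB s ε J w' v := down_HB_9672 s ε J w' v s0 hs0 r7 hr7s
  have hr75 : r7 ≤ r5 := hr7.trans hr6
  have hr7t : r7 ≤ t := hr75.trans hr5t
  have hr7p : r7 ≤ p := hr75.trans (hr5.trans (hr42.trans hr2p))
  have hbI : b n0 i = I := by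
    have h1 : r7 ∈ meets (J n0 i (b n0 i)) := down_meets _ _ (hb1 (n0, i) hPI) _ hr7t
    have h2 : r7 ∈ meets (J n0 i I) :=
      down_meets _ _ hI1 _ (hr75.trans (hr5.trans hr4))
    have h3 : r7 ∈ IsFun (J n0) := down_IsFun _ _ (hJ n0).1.1 _ hr7p
    exact IsFun.unique h3 h1 h2
  have hsum : ∑ ki ∈ PI w.length (lastv w) x.2, wt s (b ki.1 ki.2) ≤
      2 * (tau ε w.length : ℝ) := by
    rw [sumPI_9672]
    have hnpos : (0 : ℝ) < w.length := by
      have : 0 < w.length := by omega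
      exact_mod_cast this
    have h1 : ∀ k ∈ Finset.range w.length,
        ∑ i ∈ Finset.Ico (lastv w) x.2, wt s (b k i) ≤ (tau ε w.length : ℝ) / w.length := by
      intro k hk
      rw [Finset.mem_range] at hk
      have h2 := hHB k (by omega) (Finset.Ico (lastv w) x.2) (by
        intro i hi
        have := (Finset.mem_Ico.1 hi).1
        rw [hlast] at this
        exact hv.trans this) (b k) r7 le_rfl (by
        intro i hi
        refine down_meets _ _ (hb1 (k, i) ?_) _ hr7t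
        unfold PI
        rw [Finset.mem_union, Finset.mem_product]
        left
        exact ⟨Finset.mem_range.2 hk, hi⟩)
      have h3 : ((w'.length : ℝ) + 1) = w.length := by exact_mod_cast hlw'
      rw [hlw', h3] at h2
      exact h2
    have h4 : ∑ i ∈ Finset.range x.2, wt s (b w.length i) ≤ (tau ε w.length : ℝ) := by
      have h5 : r7 ∈ SumLE (wt s) (J w.length) (tau ε w.length : ℚ) := by
        have h6 := (hJ w.length).1.2
        intro F b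
        exact down_fimp _ _ _ (h6 F b) _ hr7p
      obtain ⟨_, _, h7⟩ := mem_fimp.1 (h5 (Finset.range x.2) (b w.length)) r7 le_rfl (by
        intro i hi
        refine down_meets _ _ (hb1 (w.length, i) ?_) _ hr7t
        unfold PI
        rw [Finset.mem_union, Finset.mem_product, Finset.mem_product]
        right
        exact ⟨Finset.mem_singleton.2 rfl, hi⟩)
      exact h7
    have h8 : ∑ k ∈ Finset.range w.length, ∑ i ∈ Finset.Ico (lastv w) x.2, wt s (b k i) ≤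
        (tau ε w.length : ℝ) := by
      refine (Finset.sum_le_sum h1).trans ?_
      rw [Finset.sum_const, Finset.card_range, nsmul_eq_mul]
      rw [mul_div_cancel₀ _ hnpos.ne']
    linarith
  obtain ⟨B, hB, hB2, hBt⟩ := hb2 hsum (n0, i) hPI
  obtain ⟨m, hm, hmB⟩ := List.getElem_of_mem hB
  refine ⟨r7, hr75.trans (hr5.trans (hr42.trans (hr2.trans hr1))), Nat.pair w.length m, B, ?_, ?_, ?_⟩
  · apply meets_of_mem
    refine ⟨x, ?_, ?_⟩
    · rw [Nat.unpair_pair]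
      exact getElem_9672 w _ x (hwx.trans (hst r4 r7 (hr75.trans hr5)))
    · rw [Nat.unpair_pair]
      simp only
      rw [List.getD_eq_getElem _ _ hm]
      exact hmB
  · exact down_InI _ _ _ hBt _ hr7t
  · have hB3 : B.2 = I := hB2.trans hbI
    rw [hB3]
    exact down_InI _ _ _ hI2 _ (hr75.trans (hr5.trans hr4))


theorem B_prod {K E E' : Type} (hGen : HasGen P K) (X : E → RName P) (Y : E' → RName P)
    (κ : K → E) (p : P) (hX : ∀ e, p ∈ IsReal (X e)) (hY : ∀ e, p ∈ IsReal (Y e))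
    (hκ : ∀ q ≤ p, ∀ e, q ∉ fall fun ξ => RealNe (X e) (X (κ ξ))) (hD : p ∈ DimZero Y) :
    p ∈ DimZeroProd X Y := by
  refine mem_fall.2 fun s => mem_fall.2 fun hs => mem_fall.2 fun ε => mem_fall.2 fun hε => ?_
  have htau : ∀ k, 0 < tau ε k := by
    intro k
    unfold tau
    positivity
  have hcov : ∀ k, ∃ J : ℕ → ℚ × ℚ → Set P, p ∈ Cov s (tau ε k) Y J := fun k =>
    cov_full s (tau ε k) Y p
      (mem_fall.1 (mem_fall.1 (mem_fall.1 (mem_fall.1 hD s) hs) (tau ε k)) (htau k))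
  choose J hJ using hcov
  obtain ⟨st, h1, h2, h3, h4⟩ := hGen (RB s ε (fun ξ => X (κ ξ)) J) (HB s ε J) p
    (fun w F hF m q hq => B_linked s ε hs hε (fun ξ => X (κ ξ)) J p (fun ξ => hX _)
      (fun k => (hJ k).1.1) w F hF m q hq)
    (fun w q hq => B_total s ε hε Y J p hJ w q hq)
  have hst2 : ∀ q n, ∃ r ≤ q, n < (st r).length := by
    intro q n
    induction n with
    | zero =>
      obtain ⟨r, hr, x, _, hx⟩ := h2 q 0
      refine ⟨r, hr, ?_⟩
      rw [hx]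
      simp
    | succ n ih =>
      obtain ⟨r, hr, hn⟩ := ih
      obtain ⟨r', hr', x, _, hx⟩ := h2 r 0
      refine ⟨r', hr'.trans hr, ?_⟩
      rw [hx]
      simp only [List.length_append, List.length_cons, List.length_nil]
      omega
  refine mem_fex_of_mem (BB s ε st)
    (down_fand (down_fand (down_IsFun _) (down_fall fun _ => down_fall fun _ => down_fimp _ _))
      (down_fall fun _ => down_fall fun _ => down_fex _)) ?_
  refine mem_fand.2 ⟨B_seq s ε hs hε st h1 hst2 p, ?_⟩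
  refine mem_fall.2 fun e => mem_fall.2 fun e' => mem_fex.2 fun q1 hq1 => ?_
  have hk := hκ q1 hq1 e
  have hk1 : ∃ ξ, q1 ∉ RealNe (X e) (X (κ ξ)) := by
    by_contra hcon
    push Not at hcon
    exact hk (mem_fall.2 hcon)
  obtain ⟨ξ, hξ⟩ := hk1
  have hk2 : ∃ q2 ≤ q1, ∀ r ≤ q2, ∀ v c c', c ≠ c' → r ∈ meets (X e v c) →
      r ∈ meets (X (κ ξ) v c') → False := by
    by_contra hcon
    push Not at hcon
    apply hξ
    refine mem_fex.2 fun q2 hq2 => ?_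
    obtain ⟨r, hr, v, c, c', hne, hm1, hm2, _⟩ := hcon q2 hq2
    refine ⟨r, hr, v, ?_⟩
    refine mem_fex_of_mem c (down_fex _) ?_
    refine mem_fex_of_mem c'
      (down_fand (down_fground _) (down_fand (down_meets _) (down_meets _))) ?_
    exact ⟨hne, hm1, hm2⟩
  obtain ⟨q2, hq2, hcl⟩ := hk2
  obtain ⟨r, hr, i, B, hB1, hB2, hB3⟩ := B_point s ε hs hε (fun ξ => X (κ ξ)) Y J p hJ st h1 h2
    h3 h4 ξ e' q2 (hq2.trans hq1)
  have hB4 : r ∈ InI (X e) B.1 := by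
    refine mem_InI.2 fun q hq => ?_
    obtain ⟨r1, hr1, v, c, hm, hI1, hI2⟩ := mem_InI.1 hB2 q hq
    have hle : r1 ≤ p := hr1.trans (hq.trans (hr.trans (hq2.trans hq1)))
    obtain ⟨r2, hr2, c', hc'⟩ := IsFun.total ((reglr_IsReal (X e)).1 p (hX e) r1 hle).1 v
    have hcc : c' = c := by
      by_contra hne
      exact hcl r2 (hr2.trans (hr1.trans (hq.trans hr))) v c' c hne hc'
        (down_meets _ _ hm _ hr2)
    refine ⟨r2, hr2.trans hr1, v, c, ?_, hI1, hI2⟩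
    rw [← hcc]
    exact hc'
  refine ⟨r, hr.trans hq2, i, ?_⟩
  exact mem_fex_of_mem B (down_fand (down_meets _) (down_fand (down_InI _ _) (down_InI _ _)))
    ⟨hB1, hB4, hB3⟩


theorem B_empty {E E' : Type} (hE : ¬ Nonempty E) (X : E → RName P) (Y : E' → RName P) (p : P) :
    p ∈ DimZeroProd X Y := by
  intro s hs ε hε
  have key : ∀ (q : P) (i : ℕ) (B : (ℚ × ℚ) × (ℚ × ℚ)),
      q ∈ meets ((fun (_ : ℕ) (B : (ℚ × ℚ) × (ℚ × ℚ)) => ({_r | B = ((0, 0), (0, 0))} : Set P)) i B) →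
        B = ((0, 0), (0, 0)) := by
    intro q i B h
    obtain ⟨r, _, t, ht, _⟩ := h q le_rfl
    exact ht
  refine mem_fex.2 fun q hq => ⟨q, le_rfl,
    (fun (_ : ℕ) (B : (ℚ × ℚ) × (ℚ × ℚ)) => ({_r | B = ((0, 0), (0, 0))} : Set P)), ⟨?_, ?_⟩, ?_⟩
  · refine ⟨fun i => mem_fex_of_mem ((0, 0), (0, 0)) (down_meets _) (meets_of_mem rfl), ?_⟩
    intro i B B'
    refine mem_fimp.2 fun r hr h => ⟨r, le_rfl, ?_⟩
    show B = B'
    rw [key r i B h.1, key r i B' h.2]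
  · intro F b
    refine mem_fimp.2 fun r hr h => ⟨r, le_rfl, ?_⟩
    show ∑ i ∈ F, wt2 (s : ℝ) (b i) ≤ (ε : ℝ)
    have h0 : ∑ i ∈ F, wt2 (s : ℝ) (b i) = 0 := by
      apply Finset.sum_eq_zero
      intro i hi
      rw [key r i (b i) (h i hi)]
      have hs' : (s : ℝ) ≠ 0 := by exact_mod_cast hs.ne'
      simp [wt2, Real.zero_rpow hs']
    rw [h0]
    exact_mod_cast hε.le
  · intro e
    exact absurd ⟨e⟩ hE


theorem main_abs {K Ω : Type} [LinearOrder Ω] [WellFoundedLT Ω] (hc : CCC P) (hΩ : Reg Ω)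
    (hK : #K = ℵ_ 1) (hΩ' : ∀ α : Ω, #(Set.Iio α) ≤ ℵ_ 1) (hBig : HasBig P Ω)
    (hGen : HasGen P K) (p : P) :
    p ∈ fand
      (fex fun E : Type => fex fun X : E → RName P =>
        fand (fall fun e => IsReal (X e)) (fand (NotCountable X) (GammaSet X)))
      (fall fun E : Type => fall fun X : E → RName P => fall fun E' : Type =>
        fall fun Y : E' → RName P =>
          fimp (fand (fand (fall fun e => IsReal (X e)) (fall fun e => IsReal (Y e)))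
            (fand (GammaSet X) (DimZero Y))) (DimZeroProd X Y)) := by
  refine ⟨?_, ?_⟩
  · obtain ⟨z, hz, h1, h2⟩ := A_exists hK
    have hKc : ¬ Countable K := by
      rw [← Cardinal.mk_le_aleph0_iff, hK, not_le]
      exact Cardinal.aleph0_lt_aleph_one
    refine mem_fex_of_mem K (down_fex _) ?_
    refine mem_fex_of_mem (fun ξ => chk (z ξ)) ?_ ?_
    · refine down_fand (down_fall fun e => (reglr_IsReal _).1) (down_fand ?_ ?_)
      · exact down_fall fun y => down_fimp _ _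
      · exact down_fall fun T => down_fall fun U => down_fimp _ _
    · refine ⟨fun ξ => A_real (z ξ) (h1 ξ) (h2 ξ) p, ?_, ?_⟩
      · exact A_unc hc hKc z hz p
      · exact A_gamma hGen z p
  · intro E X E' Y
    refine mem_fimp.2 fun q hq h => ⟨q, le_rfl, ?_⟩
    obtain ⟨⟨hX, hY⟩, hγ, hD⟩ := h
    by_cases hE : Nonempty E
    · obtain ⟨κ, hκ⟩ := C_small (nice_of_ccc hc) hΩ hK hΩ' hBig X q hX hγ
      exact B_prod hGen X Y κ q hX hY hκ hD
    · exact B_empty hE X Y q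

end LangLemmas

end Pool.Agent.Helper161.Gam
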