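import Mathlib
import Pool.Agent.Helper161.Gam.Rel

/-!
# A finite support iteration
-/

set_option autoImplicit false
set_option linter.unusedSectionVars false
set_option linter.unusedVariables false

namespace Pool.Agent.Helper161.Gam

open Cardinal

section Poset

variable (K J : Type)

/-- the part of a condition at one coordinate: the stem, the promises of the first kind and the
promises of the second kind -/
structure Atom where
  st : List (ℕ × ℕ)
  F : Finset K
  D : Finset J
  h : F.card ≤ st.length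

instance : Zero (Atom K J) := ⟨⟨[], ∅, ∅, by simp⟩⟩

/-- conditions have finite support -/
abbrev Cnd := J →₀ Atom K J

/-- the names used at the coordinates -/
structure Sys where
  phi : J → List (ℕ × ℕ) → ℕ → Set (Cnd K J)
  rho : J → List (ℕ × ℕ) → K → ℕ × ℕ → Set (Cnd K J)

end Poset

section Poset2

variable {K J : Type}

/-- any `w.length` of the sets named by `R w ξ` have common elements with arbitrarily large
second component -/
def Linked {Γ : Type} (L : Γ → Γ → Prop) (R : List (ℕ × ℕ) → K → ℕ × ℕ → Set Γ)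
    (w : List (ℕ × ℕ)) : Set Γ :=
  {q | ∀ F : Finset K, F.card ≤ w.length → ∀ m : ℕ, ∀ q', L q' q → ∃ r, L r q' ∧
    ∃ a v, m ≤ v ∧ ∀ ξ ∈ F, r ∈ mts L (R w ξ (a, v))}

/-- if the sets are linked then `x` is in the set with index `ξ` -/
def PR {Γ : Type} (L : Γ → Γ → Prop) (R : List (ℕ × ℕ) → K → ℕ × ℕ → Set Γ)
    (w : List (ℕ × ℕ)) (x : ℕ × ℕ) (ξ : K) : Set Γ :=
  {p | ∀ q, L q p → q ∈ Linked L R w → ∃ r, L r q ∧ r ∈ mts L (R w ξ x)}

/-- if `f w` has a value then it has a value which is at most `v` -/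
def PD {Γ : Type} (L : Γ → Γ → Prop) (f : List (ℕ × ℕ) → ℕ → Set Γ)
    (w : List (ℕ × ℕ)) (v : ℕ) : Set Γ :=
  {p | ∀ q, L q p → (∃ v', q ∈ mts L (f w v')) → ∃ r, L r q ∧ ∃ v', v' ≤ v ∧ r ∈ mts L (f w v')}

/-- the order at the coordinate `i` -/
def Cst (S : Sys K J) (L : Cnd K J → Cnd K J → Prop) (i : J) (p q : Cnd K J) : Prop :=
  (q i).st <+: (p i).st ∧ (q i).F ⊆ (p i).F ∧ (q i).D ⊆ (p i).D ∧
    ∀ w x, (q i).st <+: w → w ++ [x] <+: (p i).st →
      (∀ ξ ∈ (q i).F, p ∈ PR L (S.rho i) w x ξ) ∧ (∀ d ∈ (q i).D, p ∈ PD L (S.phi d) w x.2)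

variable [LinearOrder J] [WellFoundedLT J]

/-- the orders of the initial stages, by recursion -/
noncomputable def Sys.le (S : Sys K J) : J → Cnd K J → Cnd K J → Prop :=
  WellFoundedLT.fix (motive := fun _ : J => Cnd K J → Cnd K J → Prop) fun k ih p q =>
    ∀ i, ∀ h : i < k, Cst S (ih i h) i p q

theorem le_def (S : Sys K J) (k : J) (p q : Cnd K J) :
    S.le k p q ↔ ∀ i, i < k → Cst S (S.le i) i p q := by
  rw [Sys.le, WellFoundedLT.fix_eq]

variable (S : Sys K J)

theorem no_new {i : J} {p q : Cnd K J} (h : (p i).st = (q i).st) {w : List (ℕ × ℕ)} {x : ℕ × ℕ}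
    (h1 : (q i).st <+: w) (h2 : w ++ [x] <+: (p i).st) : False := by
  have h3 := h1.length_le
  have h4 := h2.length_le
  rw [h] at h4
  simp at h4
  omega

theorem Cst_of_eq {L : Cnd K J → Cnd K J → Prop} {i : J} {p q : Cnd K J} (h : p i = q i) :
    Cst S L i p q :=
  ⟨by rw [h], by rw [h], by rw [h],
    fun w x h1 h2 => (no_new (by rw [h]) h1 h2).elim⟩

/-- only the promises grow -/
theorem Cst_of_st_eq {L : Cnd K J → Cnd K J → Prop} {i : J} {p q : Cnd K J}
    (h : (p i).st = (q i).st) (hF : (q i).F ⊆ (p i).F) (hD : (q i).D ⊆ (p i).D) :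
    Cst S L i p q :=
  ⟨by rw [h], hF, hD, fun w x h1 h2 => (no_new h h1 h2).elim⟩

theorem Cst_of_zero {L : Cnd K J → Cnd K J → Prop} {i : J} {p q : Cnd K J} (h : q i = 0) :
    Cst S L i p q := by
  have h1 : (q i).st = [] := by rw [h]; rfl
  have h2 : (q i).F = ∅ := by rw [h]; rfl
  have h3 : (q i).D = ∅ := by rw [h]; rfl
  refine ⟨by rw [h1]; exact List.nil_prefix, by rw [h2]; exact Finset.empty_subset _,
    by rw [h3]; exact Finset.empty_subset _, fun w x _ _ => ⟨fun ξ hξ => ?_, fun d hd => ?_⟩⟩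
  · rw [h2] at hξ; exact absurd hξ (Finset.notMem_empty _)
  · rw [h3] at hd; exact absurd hd (Finset.notMem_empty _)

theorem le_of_eq {k : J} {p q : Cnd K J} (h : ∀ i, i < k → p i = q i) : S.le k p q :=
  (le_def S k p q).2 fun i hi => Cst_of_eq S (h i hi)

theorem le_refl' (k : J) (p : Cnd K J) : S.le k p p := le_of_eq S fun _ _ => rfl

theorem PR_down {Γ : Type} {L : Γ → Γ → Prop} (ht : ∀ p q r, L p q → L q r → L p r)
    (R : List (ℕ × ℕ) → K → ℕ × ℕ → Set Γ) (w : List (ℕ × ℕ)) (x : ℕ × ℕ) (ξ : K) :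
    DownL L (PR L R w x ξ) :=
  fun _ hp _ hq r hr => hp r (ht _ _ _ hr hq)

theorem PD_down {Γ : Type} {L : Γ → Γ → Prop} (ht : ∀ p q r, L p q → L q r → L p r)
    (f : List (ℕ × ℕ) → ℕ → Set Γ) (w : List (ℕ × ℕ)) (v : ℕ) :
    DownL L (PD L f w v) :=
  fun _ hp _ hq r hr => hp r (ht _ _ _ hr hq)

theorem le_trans' (k : J) : ∀ p q r : Cnd K J, S.le k p q → S.le k q r → S.le k p r := by
  induction k using WellFoundedLT.induction with
  | ind k IH =>
    intro p q r h1 h2
    rw [le_def] at h1 h2 ⊢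
    intro i hi
    have ht := IH i hi
    have hpq : S.le i p q := (le_def S i p q).2 fun i' h' => h1 i' (h'.trans hi)
    obtain ⟨a1, a2, a3, a4⟩ := h1 i hi
    obtain ⟨b1, b2, b3, b4⟩ := h2 i hi
    refine ⟨b1.trans a1, b2.trans a2, b3.trans a3, fun w x hw hx => ?_⟩
    by_cases hlen : (q i).st.length ≤ w.length
    · have hqw : (q i).st <+: w :=
        List.prefix_of_prefix_length_le a1 ((List.prefix_append w [x]).trans hx) hlen
      obtain ⟨c1, c2⟩ := a4 w x hqw hx
      exact ⟨fun ξ hξ => c1 ξ (b2 hξ), fun d hd => c2 d (b3 hd)⟩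
    · have hwq : w ++ [x] <+: (q i).st :=
        List.prefix_of_prefix_length_le hx a1 (by simp; omega)
      obtain ⟨c1, c2⟩ := b4 w x hw hwq
      exact ⟨fun ξ hξ => PR_down ht _ _ _ _ q (c1 ξ hξ) p hpq,
        fun d hd => PD_down ht _ _ _ q (c2 d hd) p hpq⟩

theorem le_mono {k l : J} (h : l ≤ k) {p q : Cnd K J} (hpq : S.le k p q) : S.le l p q :=
  (le_def S l p q).2 fun i hi => (le_def S k p q).1 hpq i (hi.trans_le h)

open Classical in
/-- `r` below `k` and `p` from `k` on -/
noncomputable def am (k : J) (r p : Cnd K J) : Cnd K J :=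
  Finsupp.onFinset (r.support ∪ p.support) (fun i => if i < k then r i else p i) (by
    intro i hi
    simp only [Finset.mem_union, Finsupp.mem_support_iff]
    by_cases h : i < k
    · left; simpa [h] using hi
    · right; simpa [h] using hi)

theorem am_lt {k i : J} (h : i < k) (r p : Cnd K J) : am k r p i = r i := by
  simp [am, h]

theorem am_ge {k i : J} (h : k ≤ i) (r p : Cnd K J) : am k r p i = p i := by
  simp [am, not_lt.2 h]

/-- `Cst` at `i` with the order `S.le i` is monotone -/
theorem Cst_trans_left {i : J} {p p' q : Cnd K J} (h : S.le i p' p) (hi : p' i = p i)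
    (hC : Cst S (S.le i) i p q) : Cst S (S.le i) i p' q := by
  obtain ⟨b1, b2, b3, b4⟩ := hC
  refine ⟨by rw [hi]; exact b1, by rw [hi]; exact b2, by rw [hi]; exact b3, fun w x hw hx => ?_⟩
  rw [hi] at hx
  obtain ⟨c1, c2⟩ := b4 w x hw hx
  exact ⟨fun ξ hξ => PR_down (le_trans' S i) _ _ _ _ p (c1 ξ hξ) p' h,
    fun d hd => PD_down (le_trans' S i) _ _ _ p (c2 d hd) p' h⟩

theorem am_le {k : J} {r p : Cnd K J} (h : S.le k r p) (l : J) : S.le l (am k r p) p := by
  rw [le_def]
  intro i _
  by_cases hi : i < k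
  · exact Cst_trans_left S (le_of_eq S fun i' hi' => am_lt (hi'.trans hi) r p) (am_lt hi r p)
      ((le_def S k r p).1 h i hi)
  · exact Cst_of_eq S (am_ge (not_lt.1 hi) r p)

theorem am_le_left {k l : J} (h : l ≤ k) (r p : Cnd K J) : S.le l (am k r p) r :=
  le_of_eq S fun _ hi => am_lt (hi.trans_le h) r p

theorem le_am_left {k l : J} (h : l ≤ k) (r p : Cnd K J) : S.le l r (am k r p) :=
  le_of_eq S fun _ hi => (am_lt (hi.trans_le h) r p).symm

/-- trivial from `k` on -/
def Blw (k : J) (s : Cnd K J) : Prop := ∀ i, k ≤ i → s i = 0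

theorem le_of_blw {k l : J} {s t : Cnd K J} (hs : Blw k s) (h : S.le k t s) : S.le l t s := by
  rw [le_def]
  intro i _
  by_cases hi : i < k
  · exact (le_def S k t s).1 h i hi
  · exact Cst_of_zero S (hs i (not_lt.1 hi))

/-- absoluteness -/
theorem mts_abs {k l : J} (h : k ≤ l) {N : Set (Cnd K J)} (hN : ∀ s ∈ N, Blw k s)
    (p : Cnd K J) : p ∈ mts (S.le l) N ↔ p ∈ mts (S.le k) N := by
  constructor
  · intro hp q hq
    obtain ⟨t, ht, s, hs, hts⟩ := hp (am k q p) (am_le S hq l)
    exact ⟨t, le_trans' S k _ _ _ (le_mono S h ht) (am_le_left S le_rfl q p), s, hs,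
      le_mono S h hts⟩
  · intro hp q hq
    obtain ⟨t, ht, s, hs, hts⟩ := hp q (le_mono S h hq)
    refine ⟨am k t q, am_le S ht l, s, hs, le_of_blw S (hN s hs) ?_⟩
    exact le_trans' S k _ _ _ (am_le_left S le_rfl t q) hts

/-- restriction to the coordinates below `k` -/
noncomputable def res (k : J) (p : Cnd K J) : Cnd K J := am k p 0

theorem blw_res (k : J) (p : Cnd K J) : Blw k (res k p) := fun i hi => by
  rw [res, am_ge hi]; rfl

theorem blw_mono {k l : J} (h : k ≤ l) {p : Cnd K J} (hp : Blw k p) : Blw l p :=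
  fun i hi => hp i (h.trans hi)

/-- the next member of the stem at the coordinate `i` can be chosen. -/
theorem step (i : J) (p : Cnd K J) (m : ℕ) :
    ∃ r, S.le i r p ∧ ∃ x : ℕ × ℕ, m ≤ x.2 ∧
      (∀ ξ ∈ (p i).F, r ∈ PR (S.le i) (S.rho i) (p i).st x ξ) ∧
      ∀ d ∈ (p i).D, r ∈ PD (S.le i) (S.phi d) (p i).st x.2 := by
  classical
  have htr := le_trans' S i
  have hrefl := le_refl' S i
  have hmd : ∀ (N : Set (Cnd K J)) (a b : Cnd K J), a ∈ mts (S.le i) N → S.le i b a →
      b ∈ mts (S.le i) N := fun N a b ha hb c hc => ha c (htr _ _ _ hc hb)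
  have hD : ∀ D : Finset J, ∃ p1, S.le i p1 p ∧ ∃ m1, m ≤ m1 ∧ ∀ d ∈ D, ∀ v, m1 ≤ v →
      ∀ r, S.le i r p1 → r ∈ PD (S.le i) (S.phi d) (p i).st v := by
    intro D
    induction D using Finset.induction_on with
    | empty => exact ⟨p, hrefl p, m, le_rfl, fun d hd => absurd hd (Finset.notMem_empty _)⟩
    | insert d D _ ih =>
      obtain ⟨p1, hp1, m1, hm1, h1⟩ := ih
      by_cases hq : ∃ q, S.le i q p1 ∧ ∃ v', q ∈ mts (S.le i) (S.phi d (p i).st v')
      · obtain ⟨q, hq, v', hv'⟩ := hq
        refine ⟨q, htr _ _ _ hq hp1, max m1 v', hm1.trans (le_max_left _ _), ?_⟩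
        intro d' hd' v hv r hr
        rcases Finset.mem_insert.1 hd' with rfl | hd'
        · intro q' hq' _
          exact ⟨q', hrefl q', v', (le_max_right _ _).trans hv,
            hmd _ _ _ hv' (htr _ _ _ hq' hr)⟩
        · exact h1 d' hd' v ((le_max_left _ _).trans hv) r (htr _ _ _ hr hq)
      · refine ⟨p1, hp1, m1, hm1, ?_⟩
        intro d' hd' v hv r hr
        rcases Finset.mem_insert.1 hd' with rfl | hd'
        · intro q' hq' hex
          exact absurd ⟨q', htr _ _ _ hq' hr, hex⟩ hq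
        · exact h1 d' hd' v hv r hr
  obtain ⟨p1, hp1, m1, hm1, h1⟩ := hD (p i).D
  by_cases hq : ∃ q, S.le i q p1 ∧ q ∈ Linked (S.le i) (S.rho i) (p i).st
  · obtain ⟨q, hq, hL⟩ := hq
    obtain ⟨r, hr, a, v, hv, hF⟩ := hL (p i).F (p i).h m1 q (hrefl q)
    refine ⟨r, htr _ _ _ hr (htr _ _ _ hq hp1), (a, v), hm1.trans hv, fun ξ hξ q' hq' _ => ?_,
      fun d hd => h1 d hd v hv r (htr _ _ _ hr hq)⟩
    exact ⟨q', hrefl q', hmd _ _ _ (hF ξ hξ) hq'⟩
  · refine ⟨p1, hp1, (0, m1), hm1, fun ξ _ q' hq' hL => ?_,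
      fun d hd => h1 d hd m1 le_rfl p1 (hrefl p1)⟩
    exact absurd ⟨q', hq', hL⟩ hq


theorem step_ext (i : J) (p : Cnd K J) (m : ℕ) :
    ∃ r, (∀ l, S.le l r p) ∧ (∀ i', i < i' → r i' = p i') ∧ ∃ x : ℕ × ℕ, m ≤ x.2 ∧
      (r i).st = (p i).st ++ [x] ∧ (r i).F = (p i).F ∧ (r i).D = (p i).D := by
  classical
  obtain ⟨r0, hr0, x, hmx, hPR, hPD⟩ := step S i p m
  let A : Atom K J := ⟨(p i).st ++ [x], (p i).F, (p i).D, by
    have := (p i).h
    rw [List.length_append]
    exact this.trans (Nat.le_add_right _ _)⟩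
  let r : Cnd K J := (am i r0 p).update i A
  have hri : r i = A := by simp [r, Finsupp.coe_update]
  have hrne : ∀ i', i' ≠ i → r i' = am i r0 p i' := by
    intro i' h
    simp [r, Finsupp.coe_update, Function.update_of_ne h]
  have hrlt : ∀ i', i' < i → r i' = r0 i' := by
    intro i' h
    rw [hrne i' h.ne, am_lt h]
  have hrgt : ∀ i', i < i' → r i' = p i' := by
    intro i' h
    rw [hrne i' h.ne', am_ge h.le]
  refine ⟨r, ?_, hrgt, x, hmx, by rw [hri], by rw [hri], by rw [hri]⟩
  intro l
  rw [le_def]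
  intro i' _
  rcases lt_trichotomy i' i with h | h | h
  · exact Cst_trans_left S (le_of_eq S fun j hj => hrlt j (hj.trans h)) (hrlt i' h)
      ((le_def S i r0 p).1 hr0 i' h)
  · subst h
    have hle : S.le i' r r0 := le_of_eq S fun j hj => hrlt j hj
    refine ⟨by rw [hri]; exact List.prefix_append _ _, by rw [hri], by rw [hri], ?_⟩
    intro w x' hw hx'
    rw [hri] at hx'
    have hx2 : w ++ [x'] <+: (p i').st ++ [x] := hx'
    have h1 := hw.length_le
    have h2 := hx2.length_le
    simp only [List.length_append, List.length_singleton] at h2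
    have h3 : (p i').st = w := hw.eq_of_length (by omega)
    have h4 : w ++ [x'] = (p i').st ++ [x] := hx2.eq_of_length (by
      simp only [List.length_append, List.length_singleton]
      omega)
    rw [← h3] at h4 ⊢
    have h5 : x' = x := by
      have := List.append_cancel_left h4
      simpa using this
    subst h5
    exact ⟨fun ξ hξ => PR_down (le_trans' S i') _ _ _ _ r0 (hPR ξ hξ) r hle,
      fun d hd => PD_down (le_trans' S i') _ _ _ r0 (hPD d hd) r hle⟩
  · exact Cst_of_eq S (hrgt i' h)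


theorem longer (i : J) (p : Cnd K J) (n : ℕ) :
    ∃ r, (∀ l, S.le l r p) ∧ (∀ i', i < i' → r i' = p i') ∧
      n ≤ (r i).st.length ∧ (r i).F = (p i).F ∧ (r i).D = (p i).D := by
  induction n with
  | zero => exact ⟨p, fun l => le_refl' S l p, fun _ _ => rfl, Nat.zero_le _, rfl, rfl⟩
  | succ n ih =>
    obtain ⟨r, h1, h2, h3, h4, h5⟩ := ih
    obtain ⟨r', g1, g2, x, _, g3, g4, g5⟩ := step_ext S i r 0
    refine ⟨r', fun l => le_trans' S l _ _ _ (g1 l) (h1 l), fun i' hi' => ?_, ?_, ?_, ?_⟩
    · rw [g2 i' hi', h2 i' hi']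
    · rw [g3, List.length_append, List.length_singleton]
      omega
    · rw [g4, h4]
    · rw [g5, h5]


theorem nice_dense (k : J) (p : Cnd K J) :
    ∃ p', S.le k p' p ∧ ∀ i, i < k → 2 * (p' i).F.card ≤ (p' i).st.length := by
  classical
  induction k using WellFoundedLT.induction generalizing p with
  | ind k IH =>
    have hzero : ∀ j, p j = 0 → 2 * (p j).F.card ≤ (p j).st.length := by
      intro j hj
      have h1 : (p j).F = ∅ := by rw [hj]; rfl
      rw [h1]
      simp
    by_cases hB : (p.support.filter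
        (fun i => i < k ∧ ¬ (2 * (p i).F.card ≤ (p i).st.length))).Nonempty
    · obtain ⟨i, hiB, hmax⟩ : ∃ i ∈ p.support.filter
          (fun i => i < k ∧ ¬ (2 * (p i).F.card ≤ (p i).st.length)),
          ∀ j ∈ p.support.filter
            (fun i => i < k ∧ ¬ (2 * (p i).F.card ≤ (p i).st.length)), j ≤ i :=
        ⟨_, Finset.max'_mem _ hB, fun j hj => Finset.le_max' _ j hj⟩
      rw [Finset.mem_filter] at hiB
      have hik : i < k := hiB.2.1
      obtain ⟨p1, hle, habove, hlen, hF, hD⟩ := longer S i p (2 * (p i).F.card)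
      obtain ⟨p2, h2le, h2nice⟩ := IH i hik p1
      refine ⟨am i p2 p1, le_trans' S k _ _ _ (am_le S h2le k) (hle k), ?_⟩
      intro j hj
      rcases lt_trichotomy j i with h | h | h
      · rw [am_lt h]
        exact h2nice j h
      · rw [am_ge h.ge, h, hF]
        exact hlen
      · rw [am_ge h.le, habove j h]
        by_contra hn
        have hjs : j ∈ p.support := by
          rw [Finsupp.mem_support_iff]
          intro h0
          exact hn (hzero j h0)
        have := hmax j (Finset.mem_filter.2 ⟨hjs, hj, hn⟩)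
        exact absurd this (not_le.2 h)
    · refine ⟨p, le_refl' S k p, ?_⟩
      intro j hj
      by_contra hn
      apply hB
      have hjs : j ∈ p.support := by
        rw [Finsupp.mem_support_iff]
        intro h0
        exact hn (hzero j h0)
      exact ⟨j, Finset.mem_filter.2 ⟨hjs, hj, hn⟩⟩

open Classical in
/-- the union of the promises, with the stem of `a` -/
noncomputable def h399comb (a b : Atom K J)
    (h : 2 * a.F.card ≤ a.st.length ∧ 2 * b.F.card ≤ b.st.length ∧ a.st = b.st) : Atom K J :=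
  ⟨a.st, a.F ∪ b.F, a.D ∪ b.D, by
    have h1 := Finset.card_union_le a.F b.F
    have h2 := h.2.1
    rw [← h.2.2] at h2
    omega⟩

open Classical in
/-- the common extension -/
noncomputable def h399r (p q : Cnd K J) : Cnd K J :=
  Finsupp.onFinset (p.support ∪ q.support) (fun i =>
    if h : 2 * (p i).F.card ≤ (p i).st.length ∧ 2 * (q i).F.card ≤ (q i).st.length ∧
      (p i).st = (q i).st then (if p i = 0 ∧ q i = 0 then 0 else h399comb (p i) (q i) h)
    else if p i = 0 then q i else p i) (by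
    intro i hi
    simp only [Finset.mem_union, Finsupp.mem_support_iff]
    by_contra hcon
    push Not at hcon
    apply hi
    by_cases h : 2 * (p i).F.card ≤ (p i).st.length ∧ 2 * (q i).F.card ≤ (q i).st.length ∧
        (p i).st = (q i).st
    · rw [dif_pos h, if_pos ⟨hcon.1, hcon.2⟩]
    · rw [dif_neg h, if_pos hcon.1]
      exact hcon.2)


theorem compat_nice (k : J) (p q : Cnd K J)
    (hp : ∀ i, i < k → 2 * (p i).F.card ≤ (p i).st.length)
    (hq : ∀ i, i < k → 2 * (q i).F.card ≤ (q i).st.length)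
    (hst : ∀ i, i < k → p i ≠ 0 → q i ≠ 0 → (p i).st = (q i).st) :
    ∃ r, S.le k r p ∧ S.le k r q := by
  classical
  refine ⟨h399r p q, (le_def S k _ _).2 fun i hi => ?_, (le_def S k _ _).2 fun i hi => ?_⟩
  · by_cases h0 : p i = 0
    · exact Cst_of_zero S h0
    · by_cases h : 2 * (p i).F.card ≤ (p i).st.length ∧ 2 * (q i).F.card ≤ (q i).st.length ∧
        (p i).st = (q i).st
      · have e : h399r p q i = h399comb (p i) (q i) h := by
          unfold h399r
          rw [Finsupp.onFinset_apply, dif_pos h, if_neg (fun hh => h0 hh.1)]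
        refine Cst_of_st_eq S ?_ ?_ ?_
        · rw [e]; rfl
        · rw [e]; exact Finset.subset_union_left
        · rw [e]; exact Finset.subset_union_left
      · refine Cst_of_eq S ?_
        have e : h399r p q i = p i := by
          unfold h399r
          rw [Finsupp.onFinset_apply, dif_neg h, if_neg h0]
        exact e
  · by_cases h0 : q i = 0
    · exact Cst_of_zero S h0
    · by_cases h : 2 * (p i).F.card ≤ (p i).st.length ∧ 2 * (q i).F.card ≤ (q i).st.length ∧
        (p i).st = (q i).st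
      · have e : h399r p q i = h399comb (p i) (q i) h := by
          unfold h399r
          rw [Finsupp.onFinset_apply, dif_pos h, if_neg (fun hh => h0 hh.2)]
        refine Cst_of_st_eq S ?_ ?_ ?_
        · rw [e]; exact h.2.2
        · rw [e]; exact Finset.subset_union_right
        · rw [e]; exact Finset.subset_union_right
      · refine Cst_of_eq S ?_
        have hp0 : p i = 0 := by
          by_contra hp0
          exact h ⟨hp i hi, hq i hi, hst i hi hp0 h0⟩
        unfold h399r
        rw [Finsupp.onFinset_apply, dif_neg h, if_pos hp0]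

open MeasureTheory ProbabilityTheory in
/-- an uncountable family of finite functions from subsets of `I` to `ℕ` has two members which
agree on the intersection of their domains -/
theorem exists_agree {I : Type} {Y : Type} (T : Y → Set I) (hT : ∀ y, (T y).Finite)
    (c : Y → I → ℕ) (hY : ¬ Countable Y) :
    ∃ y y', y ≠ y' ∧ ∀ η ∈ T y, η ∈ T y' → c y η = c y' η := by
  classical
  by_contra hcon
  push Not at hcon
  apply hY
  let μ : Measure (I → ℕ) := Measure.infinitePi fun _ => poissonMeasure 1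
  let E : Y → Set (I → ℕ) := fun y => Set.pi ((hT y).toFinset : Set I) fun η => {c y η}
  have hE : ∀ y, MeasurableSet (E y) := fun y =>
    MeasurableSet.pi (Finset.countable_toSet _) fun _ _ => measurableSet_singleton _
  have hpos : ∀ y, 0 < μ (E y) := by
    intro y
    have : μ (E y) = ∏ η ∈ (hT y).toFinset, poissonMeasure 1 {c y η} :=
      Measure.infinitePi_pi _ fun _ _ => measurableSet_singleton _
    rw [this, pos_iff_ne_zero, Finset.prod_ne_zero_iff]
    intro η _
    rw [poissonMeasure_singleton]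
    simp only [ne_eq, ENNReal.ofReal_eq_zero, not_le]
    positivity
  have hdisj : Pairwise (Function.onFun Disjoint E) := by
    intro y y' hne
    obtain ⟨η, h1, h2, h3⟩ := hcon y y' hne
    rw [Function.onFun, Set.disjoint_left]
    intro x hx hx'
    have h4 := hx η (by simpa using h1)
    have h5 := hx' η (by simpa using h2)
    simp only [Set.mem_singleton_iff] at h4 h5
    exact h3 (h4.symm.trans h5)
  have := Measure.countable_meas_pos_of_disjoint_iUnion (μ := μ) hE hdisj
  have h2 : {i : Y | 0 < μ (E i)} = Set.univ := Set.eq_univ_of_forall hpos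
  rw [h2] at this
  exact Set.countable_univ_iff.1 this


theorem nice_level (k : J) : Nice (S.le k) := by
  classical
  refine ⟨le_refl' S k, le_trans' S k, fun D => ?_⟩
  set Fam : Set (Set (Cnd K J)) := {B | B ⊆ D ∧ ∀ b ∈ B, ∀ b' ∈ B, b ≠ b' →
    ¬ ∃ r, S.le k r b ∧ S.le k r b'} with hFam
  obtain ⟨B, hB⟩ := zorn_subset Fam (by
    intro c hc hchain
    refine ⟨⋃₀ c, ⟨?_, ?_⟩, fun s hs => Set.subset_sUnion_of_mem hs⟩
    · exact Set.sUnion_subset fun s hs => (hc hs).1
    · rintro b ⟨s, hs, hbs⟩ b' ⟨s', hs', hbs'⟩ hne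
      rcases hchain.total hs hs' with h | h
      · exact (hc hs').2 b (h hbs) b' hbs' hne
      · exact (hc hs).2 b hbs b' (h hbs') hne)
  have hBF : B ∈ Fam := hB.prop
  refine ⟨B, hBF.1, ?_, ?_⟩
  · by_contra hcon
    have hY : ¬ Countable B := hcon
    choose f hf1 hf2 using fun b : B => nice_dense S k (b : Cnd K J)
    obtain ⟨y, y', hne, hagree⟩ := exists_agree (I := J) (Y := B)
      (fun b => {i | f b i ≠ 0}) (fun b => by
        refine (f b).support.finite_toSet.subset fun i hi => ?_
        have hi' : f b i ≠ 0 := hi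
        simpa using hi')
      (fun b i => Encodable.encode (f b i).st) hY
    obtain ⟨r, hr1, hr2⟩ := compat_nice S k (f y) (f y') (hf2 y) (hf2 y')
      (fun i _ h1 h2 => Encodable.encode_injective (hagree i h1 h2))
    exact hBF.2 y y.2 y' y'.2 (fun h => hne (Subtype.ext h))
      ⟨r, le_trans' S k _ _ _ hr1 (hf1 y), le_trans' S k _ _ _ hr2 (hf1 y')⟩
  · intro d hd
    by_contra hcon
    push Not at hcon
    have hins : insert d B ∈ Fam := by
      refine ⟨Set.insert_subset hd hBF.1, ?_⟩
      intro b hb b' hb' hne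
      rcases hb with rfl | hb
      · rcases hb' with rfl | hb'
        · exact absurd rfl hne
        · rintro ⟨r, h1, h2⟩
          exact hcon b' hb' r h2 h1
      · rcases hb' with rfl | hb'
        · rintro ⟨r, h1, h2⟩
          exact hcon b hb r h1 h2
        · exact hBF.2 b hb b' hb' hne
    have hdB : d ∈ B := hB.le_of_ge hins (Set.subset_insert d B) (Set.mem_insert d B)
    exact hcon d hdB d (le_refl' S k d) (le_refl' S k d)

end Poset2

end Pool.Agent.Helper161.Gam
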