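import Mathlib
import Pool.Agent.Helper161.Gam.Poset

/-!
# Preservation: unbounded sets of reals have many codes at the levels of a dominating real
-/

set_option autoImplicit false
set_option linter.unusedSectionVars false
set_option linter.unusedVariables false

namespace Pool.Agent.Helper161.Gam

open Cardinal

section Phi

variable {K J Ω : Type} [LinearOrder J] [WellFoundedLT J] [LinearOrder Ω] (S : Sys K J)

/-- `Dz α v c` is the set of the conditions which decide the digit number `v` of the real number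
with index `α` as `c`; below `q0 α` this is a real number, and different indices give different
real numbers. -/
structure Zok (j : J) (Dz : Ω → ℕ → ℤ → Set (Cnd K J)) (q0 : Ω → Cnd K J) : Prop where
  down : ∀ α v c, DownL (S.le j) (Dz α v c)
  total : ∀ α r, S.le j r (q0 α) → ∀ v, ∃ r', S.le j r' r ∧ ∃ c, r' ∈ Dz α v c
  uniq : ∀ α r, S.le j r (q0 α) → ∀ v c c', r ∈ Dz α v c → r ∈ Dz α v c' → c = c'
  nest : ∀ α r, S.le j r (q0 α) → ∀ v v' c c', v ≤ v' → r ∈ Dz α v c → r ∈ Dz α v' c' →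
    c' / 2 ^ (v' - v) = c
  distinct : ∀ α β r, α ≠ β → S.le j r (q0 α) → S.le j r (q0 β) →
    ∃ r', S.le j r' r ∧ ∃ v c c', c ≠ c' ∧ r' ∈ Dz α v c ∧ r' ∈ Dz β v c'

variable {S}


theorem growth_pick {j : J} {Dz : Ω → ℕ → ℤ → Set (Cnd K J)} {q0 : Ω → Cnd K J}
    (hz : Zok S j Dz q0) (A : Ω → Set (Cnd K J)) (hA : ∀ α, DownL (S.le j) (A α))
    (hAq : ∀ α, ∀ r ∈ A α, S.le j r (q0 α)) {r : Cnd K J} (hr : r ∈ Unb (S.le j) A) (M : ℕ)
    (β : Ω) :
    ∃ r', S.le j r' r ∧ ∃ T : Finset Ω, T.card = M ∧ (∀ α ∈ T, β < α ∧ r' ∈ A α) ∧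
      ∃ v, ∃ c : Ω → ℤ, (∀ α ∈ T, r' ∈ Dz α v (c α)) ∧ Set.InjOn c T := by
  classical
  have tr := le_trans' S j
  -- step 1
  have h1 : ∀ M : ℕ, ∃ r1, S.le j r1 r ∧ ∃ T : Finset Ω, T.card = M ∧
      ∀ α ∈ T, β < α ∧ r1 ∈ A α := by
    intro M
    induction M with
    | zero => exact ⟨r, le_refl' S j r, ∅, rfl, by simp⟩
    | succ M ih =>
      obtain ⟨r1, hr1, T, hT, hTA⟩ := ih
      haveI : Nonempty Ω := ⟨β⟩
      obtain ⟨β', hβ'⟩ := (insert β T).exists_le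
      obtain ⟨α, hα, r2, hr2, hr2A⟩ := hr r1 hr1 β'
      refine ⟨r2, tr _ _ _ hr2 hr1, insert α T, ?_, ?_⟩
      · rw [Finset.card_insert_of_notMem, hT]
        intro hmem
        exact absurd (hβ' α (Finset.mem_insert_of_mem hmem)) (not_le.2 hα)
      · intro γ hγ
        rw [Finset.mem_insert] at hγ
        rcases hγ with rfl | hγ
        · exact ⟨(hβ' β (Finset.mem_insert_self _ _)).trans_lt hα, hr2A⟩
        · exact ⟨(hTA γ hγ).1, hA γ r1 (hTA γ hγ).2 r2 hr2⟩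
  obtain ⟨r1, hr1, T, hT, hTA⟩ := h1 M
  have hq : ∀ r', S.le j r' r1 → ∀ α ∈ T, S.le j r' (q0 α) := fun r' hr' α hα =>
    tr _ _ _ hr' (hAq α r1 (hTA α hα).2)
  -- step 2
  have h2 : ∀ P : Finset (Ω × Ω), (∀ x ∈ P, x.1 ∈ T ∧ x.2 ∈ T ∧ x.1 ≠ x.2) →
      ∃ r2, S.le j r2 r1 ∧ ∃ V : ℕ, ∀ x ∈ P, ∃ v ≤ V, ∃ c c', c ≠ c' ∧
        r2 ∈ Dz x.1 v c ∧ r2 ∈ Dz x.2 v c' := by
    intro P
    induction P using Finset.induction_on with
    | empty => intro _; exact ⟨r1, le_refl' S j r1, 0, by simp⟩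
    | insert x P hx ih =>
      intro hP
      obtain ⟨r2, hr2, V, hV⟩ := ih (fun y hy => hP y (Finset.mem_insert_of_mem hy))
      obtain ⟨hx1, hx2, hx3⟩ := hP x (Finset.mem_insert_self _ _)
      obtain ⟨r3, hr3, v, c, c', hcc, h3, h3'⟩ := hz.distinct x.1 x.2 r2 hx3
        (hq r2 hr2 _ hx1) (hq r2 hr2 _ hx2)
      refine ⟨r3, tr _ _ _ hr3 hr2, max V v, ?_⟩
      intro y hy
      rw [Finset.mem_insert] at hy
      rcases hy with rfl | hy
      · exact ⟨v, le_max_right _ _, c, c', hcc, h3, h3'⟩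
      · obtain ⟨v', hv', d, d', hdd, h4, h4'⟩ := hV y hy
        exact ⟨v', hv'.trans (le_max_left _ _), d, d', hdd, hz.down _ _ _ r2 h4 r3 hr3,
          hz.down _ _ _ r2 h4' r3 hr3⟩
  obtain ⟨r2, hr2, V, hV⟩ := h2 T.offDiag (fun x hx => by simpa using hx)
  -- step 3
  have h3 : ∀ Q : Finset Ω, Q ⊆ T → ∃ r3, S.le j r3 r2 ∧ ∃ c : Ω → ℤ,
      ∀ α ∈ Q, r3 ∈ Dz α V (c α) := by
    intro Q
    induction Q using Finset.induction_on with
    | empty => intro _; exact ⟨r2, le_refl' S j r2, fun _ => 0, by simp⟩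
    | insert x Q hx ih =>
      intro hQ
      obtain ⟨r3, hr3, c, hc⟩ := ih (fun y hy => hQ (Finset.mem_insert_of_mem hy))
      obtain ⟨r4, hr4, d, hd⟩ := hz.total x r3
        (hq r3 (tr _ _ _ hr3 hr2) x (hQ (Finset.mem_insert_self _ _))) V
      refine ⟨r4, tr _ _ _ hr4 hr3, Function.update c x d, ?_⟩
      intro α hα
      rw [Finset.mem_insert] at hα
      rcases hα with rfl | hα
      · rw [Function.update_self]
        exact hd
      · have hne : α ≠ x := by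
          rintro rfl
          exact hx hα
        rw [Function.update_of_ne hne]
        exact hz.down _ _ _ r3 (hc α hα) r4 hr4
  obtain ⟨r3, hr3, c, hc⟩ := h3 T subset_rfl
  refine ⟨r3, tr _ _ _ hr3 (tr _ _ _ hr2 hr1), T, hT, ?_, V, c, hc, ?_⟩
  · intro α hα
    exact ⟨(hTA α hα).1, hA α r1 (hTA α hα).2 r3 (tr _ _ _ hr3 hr2)⟩
  · intro α hα α' hα' hcc
    by_contra hne
    obtain ⟨v, hv, d, d', hdd, h4, h4'⟩ := hV (α, α') (by
      rw [Finset.mem_offDiag]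
      exact ⟨hα, hα', hne⟩)
    apply hdd
    have e1 := hz.nest α r3 (hq r3 (tr _ _ _ hr3 hr2) α hα) v V d (c α) hv
      (hz.down _ _ _ r2 h4 r3 hr3) (hc α hα)
    have e2 := hz.nest α' r3 (hq r3 (tr _ _ _ hr3 hr2) α' hα') v V d' (c α') hv
      (hz.down _ _ _ r2 h4' r3 hr3) (hc α' hα')
    rw [← e1, ← e2, hcc]


theorem growth (hΩ : Reg Ω) {j : J} (hL : Nice (S.le j))
    {Dz : Ω → ℕ → ℤ → Set (Cnd K J)} {q0 : Ω → Cnd K J}
    (hz : Zok S j Dz q0) (A : Ω → Set (Cnd K J)) (hA : ∀ α, DownL (S.le j) (A α))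
    (hAq : ∀ α, ∀ r ∈ A α, S.le j r (q0 α)) {r : Cnd K J} (hr : r ∈ Unb (S.le j) A) (M : ℕ) :
    ∃ r', S.le j r' r ∧ ∃ v, ∃ C : Finset ℤ, C.card = M ∧
      ∀ c ∈ C, r' ∈ Unb (S.le j) (fun α => {t | t ∈ A α ∧ t ∈ Dz α v c}) := by
  classical
  have hdown : ∀ (s : ℕ × ℤ) (α : Ω), DownL (S.le j) {t | t ∈ A α ∧ t ∈ Dz α s.1 s.2} := by
    intro s α p hp q hq
    exact ⟨hA α p hp.1 q hq, hz.down α s.1 s.2 p hp.2 q hq⟩
  have hcard : #(ℕ × ℤ) ≤ ℵ_ 1 := Cardinal.mk_le_aleph0.trans (Cardinal.aleph0_le_aleph 1)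
  obtain ⟨β, hβ⟩ := bd_fam hL hΩ hcard (fun (s : ℕ × ℤ) α => {t | t ∈ A α ∧ t ∈ Dz α s.1 s.2}) hdown
  obtain ⟨r1, hr1, T, hT, hTA, v, c, hcD, hinj⟩ := growth_pick hz A hA hAq hr M β
  have key : ∀ T' : Finset Ω, T' ⊆ T → ∃ r', S.le j r' r1 ∧
      ∀ α ∈ T', r' ∈ Unb (S.le j) (fun α' => {t | t ∈ A α' ∧ t ∈ Dz α' v (c α)}) := by
    intro T'
    induction T' using Finset.induction_on with
    | empty => exact fun _ => ⟨r1, hL.refl r1, fun α hα => absurd hα (Finset.notMem_empty α)⟩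
    | insert a s ha ih =>
      intro hsub
      obtain ⟨r2, hr2, h2⟩ := ih ((Finset.subset_insert a s).trans hsub)
      have haT : a ∈ T := hsub (Finset.mem_insert_self a s)
      have h3 : r2 ∈ {t | t ∈ A a ∧ t ∈ Dz a v (c a)} :=
        ⟨hA a r1 (hTA a haT).2 r2 hr2, hz.down a v (c a) r1 (hcD a haT) r2 hr2⟩
      obtain ⟨r3, hr3, h4⟩ := hβ (v, c a) a (hTA a haT).1 r2 h3
      refine ⟨r3, hL.trans _ _ _ hr3 hr2, fun α hα => ?_⟩
      rcases Finset.mem_insert.1 hα with rfl | hα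
      · exact h4
      · exact unb_down hL _ r2 (h2 α hα) r3 hr3
  obtain ⟨r', hr', h'⟩ := key T (Finset.Subset.refl T)
  refine ⟨r', hL.trans _ _ _ hr' hr1, v, T.image c, ?_, ?_⟩
  · rw [Finset.card_image_of_injOn hinj, hT]
  · intro x hx
    obtain ⟨α, hα, rfl⟩ := Finset.mem_image.1 hx
    exact h' α hα


theorem growth_up (hΩ : Reg Ω) {j : J} (hL : Nice (S.le j))
    {Dz : Ω → ℕ → ℤ → Set (Cnd K J)} {q0 : Ω → Cnd K J}
    (hz : Zok S j Dz q0) (A : Ω → Set (Cnd K J)) (hA : ∀ α, DownL (S.le j) (A α))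
    (hAq : ∀ α, ∀ r ∈ A α, S.le j r (q0 α)) {r : Cnd K J} (hr : r ∈ Unb (S.le j) A) (M : ℕ) :
    ∃ r', S.le j r' r ∧ ∃ v, ∀ v', v ≤ v' → ∀ r1, S.le j r1 r' → ∃ r2, S.le j r2 r1 ∧
      ∃ C : Finset ℤ, C.card = M ∧
        ∀ c ∈ C, r2 ∈ Unb (S.le j) (fun α => {t | t ∈ A α ∧ t ∈ Dz α v' c}) := by
  classical
  obtain ⟨r', hr', v, C, hC, hU⟩ := growth hΩ hL hz A hA hAq hr M
  refine ⟨r', hr', v, fun v' hvv r1 hr1 => ?_⟩
  have key : ∀ C0 : Finset ℤ, C0 ⊆ C → ∃ r2, S.le j r2 r1 ∧ ∃ f : ℤ → ℤ,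
      ∀ c ∈ C0, f c / 2 ^ (v' - v) = c ∧
        r2 ∈ Unb (S.le j) (fun α => {t | t ∈ A α ∧ t ∈ Dz α v' (f c)}) := by
    intro C0
    induction C0 using Finset.induction_on with
    | empty => exact fun _ => ⟨r1, hL.refl _, fun c => c, fun c hc => absurd hc (Finset.notMem_empty c)⟩
    | insert a C0 ha ih =>
      intro hsub
      obtain ⟨r2, hr2, f, hf⟩ := ih ((Finset.subset_insert a C0).trans hsub)
      have haC : a ∈ C := hsub (Finset.mem_insert_self a C0)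
      have h1 : r2 ∈ Unb (S.le j) (fun α => {t | t ∈ A α ∧ t ∈ Dz α v a}) :=
        unb_down hL _ _ (hU a haC) _ (hL.trans _ _ _ hr2 hr1)
      have hcard : #ℤ ≤ ℵ_ 1 := by
        rw [Cardinal.mk_eq_aleph0]
        exact Cardinal.aleph0_le_aleph 1
      obtain ⟨r3, hr3, c', hc'⟩ := unb_split hL hΩ hcard
        (fun α => {t | t ∈ A α ∧ t ∈ Dz α v a})
        (fun c' α => {t | t ∈ A α ∧ t ∈ Dz α v a ∧ t ∈ Dz α v' c'})
        (fun c' α p hp q hq => ⟨hA α p hp.1 q hq, hz.down α v a p hp.2.1 q hq,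
          hz.down α v' c' p hp.2.2 q hq⟩)
        (fun α t ht => by
          obtain ⟨t', ht', c', hc'⟩ := hz.total α t (hAq α t ht.1) v'
          exact ⟨t', ht', c', hA α t ht.1 t' ht', hz.down α v a t ht.2 t' ht', hc'⟩) h1
      obtain ⟨β0, _⟩ := hΩ Empty (by simp) (fun e => e.elim)
      obtain ⟨α, _, r'', _, hA'', hv'', hv'''⟩ := hc' r3 (hL.refl _) β0
      have hnest : c' / 2 ^ (v' - v) = a := hz.nest α r'' (hAq α r'' hA'') v v' a c' hvv hv'' hv'''
      refine ⟨r3, hL.trans _ _ _ hr3 hr2, Function.update f a c', fun c hc => ?_⟩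
      by_cases hca : c = a
      · subst hca
        rw [Function.update_self]
        refine ⟨hnest, unb_mono (A := fun α => {t | t ∈ A α ∧ t ∈ Dz α v c ∧ t ∈ Dz α v' c'}) ?_ hc'⟩
        intro α t ht
        exact ⟨ht.1, ht.2.2⟩
      · rw [Function.update_of_ne hca]
        obtain ⟨e1, e2⟩ := hf c (Finset.mem_of_mem_insert_of_ne hc hca)
        exact ⟨e1, unb_down hL _ _ e2 _ hr3⟩
  obtain ⟨r2, hr2, f, hf⟩ := key C (Finset.Subset.refl C)
  refine ⟨r2, hr2, C.image f, ?_, ?_⟩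
  · rw [← hC]
    apply Finset.card_image_of_injOn
    intro c hc d hd hcd
    have h1 := (hf c hc).1
    have h2 := (hf d hd).1
    rw [← h1, ← h2]
    exact congrArg (fun z => z / 2 ^ (v' - v)) hcd
  · intro c hc
    obtain ⟨d, hd, rfl⟩ := Finset.mem_image.mp hc
    exact (hf d hd).2

/-- a family of conditions `p α ∈ A α`, `α ∈ B`, with the same stem and the same promises of the
first kind at the coordinate `k0`, and almost disjoint supports between `k0` and `k` -/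
structure Fam (j k k0 : J) (A : Ω → Set (Cnd K J)) (B : Set Ω) (p : Ω → Cnd K J)
    (s : List (ℕ × ℕ)) (F : Finset K) : Prop where
  jk : j ≤ k0
  kk : k0 < k
  ubd : Ubd B
  mem : ∀ α ∈ B, p α ∈ A α
  st : ∀ α ∈ B, (p α k0).st = s
  F : ∀ α ∈ B, (p α k0).F = F
  tail : ∀ i, k0 < i → i < k → ∃ β, ∀ α ∈ B, β < α → p α i = 0

variable (S)

/-- the name at the stage `k0` of the set of those `α ∈ B` for which `p α` restricted to `k0` is in
the generic filter, and the steps of `u` beyond `s` satisfy the promises of the second kind -/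
def InA (k0 : J) (B : Set Ω) (p : Ω → Cnd K J) (s u : List (ℕ × ℕ)) (α : Ω) : Set (Cnd K J) :=
  {t | α ∈ B ∧ S.le k0 t (p α) ∧ ∀ w x, s <+: w → w ++ [x] <+: u →
    ∀ d ∈ (p α k0).D, t ∈ PD (S.le k0) (S.phi d) w x.2}

/-- in addition the step from `u` with the number `v` satisfies them -/
def InB (k0 : J) (B : Set Ω) (p : Ω → Cnd K J) (s u : List (ℕ × ℕ)) (v : ℕ) (α : Ω) :
    Set (Cnd K J) :=
  {t | t ∈ InA S k0 B p s u α ∧ ∀ d ∈ (p α k0).D, t ∈ PD (S.le k0) (S.phi d) u v}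

/-- the stem at the coordinate `j` when the stem at `k0` is `u` -/
noncomputable def stj (j k0 : J) (u : List (ℕ × ℕ)) (t : Cnd K J) : List (ℕ × ℕ) :=
  if k0 = j then u else (t j).st

theorem InA_down (k0 : J) (B : Set Ω) (p : Ω → Cnd K J) (s u : List (ℕ × ℕ)) (α : Ω) :
    DownL (S.le k0) (InA S k0 B p s u α) := by
  rintro t ⟨h1, h2, h3⟩ t' ht'
  exact ⟨h1, le_trans' S k0 _ _ _ ht' h2,
    fun w x hw hx d hd => PD_down (le_trans' S k0) _ _ _ t (h3 w x hw hx d hd) t' ht'⟩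

theorem InB_down (k0 : J) (B : Set Ω) (p : Ω → Cnd K J) (s u : List (ℕ × ℕ)) (v : ℕ) (α : Ω) :
    DownL (S.le k0) (InB S k0 B p s u v α) := by
  rintro t ⟨h1, h2⟩ t' ht'
  exact ⟨InA_down S k0 B p s u α t h1 t' ht',
    fun d hd => PD_down (le_trans' S k0) _ _ _ t (h2 d hd) t' ht'⟩

theorem InB_mono (k0 : J) (B : Set Ω) (p : Ω → Cnd K J) (s u : List (ℕ × ℕ)) (v v' : ℕ) (α : Ω)
    (h : v ≤ v') : InB S k0 B p s u v α ⊆ InB S k0 B p s u v' α := by
  rintro t ⟨h1, h2⟩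
  refine ⟨h1, fun d hd q hq hm => ?_⟩
  obtain ⟨r, hr, v1, hv1, h3⟩ := h2 d hd q hq hm
  exact ⟨r, hr, v1, hv1.trans h, h3⟩


theorem InA_append (k0 : J) (B : Set Ω) (p : Ω → Cnd K J) (s u : List (ℕ × ℕ)) (x : ℕ × ℕ)
    (α : Ω) (hsu : s <+: u) :
    InA S k0 B p s (u ++ [x]) α = InB S k0 B p s u x.2 α := by
  ext t
  constructor
  · rintro ⟨h1, h2, h3⟩
    refine ⟨⟨h1, h2, fun w y hw hy d hd => ?_⟩, fun d hd => ?_⟩
    · exact h3 w y hw (hy.trans (List.prefix_append u [x])) d hd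
    · exact h3 u x hsu (List.prefix_refl _) d hd
  · rintro ⟨⟨h1, h2, h3⟩, h4⟩
    refine ⟨h1, h2, fun w y hw hy d hd => ?_⟩
    rw [List.prefix_concat_iff] at hy
    rcases hy with hy | hy
    · obtain ⟨rfl, hyx⟩ := List.append_inj' hy rfl
      rw [List.cons.injEq] at hyx
      rw [hyx.1]
      exact h4 d hd
    · exact h3 w y hw hy d hd

theorem inB_dense_aux (k0 : J) (u : List (ℕ × ℕ)) (t : Cnd K J) (D : Finset J) :
    ∃ t', S.le k0 t' t ∧ ∃ v, ∀ d ∈ D, t' ∈ PD (S.le k0) (S.phi d) u v := by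
  classical
  induction D using Finset.induction_on with
  | empty => exact ⟨t, le_refl' S k0 t, 0, fun d hd => absurd hd (Finset.notMem_empty d)⟩
  | insert d D hdD ih =>
    obtain ⟨t1, ht1, v1, h1⟩ := ih
    by_cases hex : ∃ q, S.le k0 q t1 ∧ ∃ v', q ∈ mts (S.le k0) (S.phi d u v')
    · obtain ⟨q, hq, v', hv'⟩ := hex
      refine ⟨q, le_trans' S k0 _ _ _ hq ht1, max v1 v', fun e he => ?_⟩
      rcases Finset.mem_insert.1 he with rfl | he
      · intro q' hq' _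
        exact ⟨q', le_refl' S k0 q', v', le_max_right _ _,
          fun r hr => hv' r (le_trans' S k0 _ _ _ hr hq')⟩
      · intro q' hq' hm
        obtain ⟨r, hr, v2, hv2, h3⟩ := h1 e he q' (le_trans' S k0 _ _ _ hq' hq) hm
        exact ⟨r, hr, v2, hv2.trans (le_max_left _ _), h3⟩
    · refine ⟨t1, ht1, v1, fun e he => ?_⟩
      rcases Finset.mem_insert.1 he with rfl | he
      · intro q' hq' hm
        exact absurd ⟨q', hq', hm⟩ hex
      · exact h1 e he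


theorem inB_dense (k0 : J) (B : Set Ω) (p : Ω → Cnd K J) (s u : List (ℕ × ℕ)) (α : Ω)
    (t : Cnd K J) (ht : t ∈ InA S k0 B p s u α) :
    ∃ t', S.le k0 t' t ∧ ∃ v, t' ∈ InB S k0 B p s u v α := by
  obtain ⟨t', ht', v, hv⟩ := inB_dense_aux S k0 u t (p α k0).D
  exact ⟨t', ht', v, InA_down S k0 B p s u α t ht t' ht', hv⟩

/-- the preservation property at the stage `k` -/
def Pres (j : J) (Dz : Ω → ℕ → ℤ → Set (Cnd K J)) (q0 : Ω → Cnd K J) (k : J) : Prop :=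
  ∀ A : Ω → Set (Cnd K J), (∀ α, DownL (S.le k) (A α)) → (∀ α, ∀ r ∈ A α, S.le j r (q0 α)) →
    ∀ r ∈ Unb (S.le k) A, ∃ r', S.le k r' r ∧ ∃ N, ∀ n, N ≤ n →
      r' ∈ Gd (S.le k) (fun t => (t j).st) Dz A n

variable {S}


theorem psi_hi (hΩ : Reg Ω) {j k0 : J} (hL : Nice (S.le k0)) (hjk : j < k0)
    {Dz : Ω → ℕ → ℤ → Set (Cnd K J)} {q0 : Ω → Cnd K J} (hz : Zok S j Dz q0)
    (hPres : Pres S j Dz q0 k0) {B : Set Ω} {p : Ω → Cnd K J} {s u : List (ℕ × ℕ)}
    (hq : ∀ α ∈ B, S.le j (p α) (q0 α)) (N : ℕ)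
    {t : Cnd K J} (ht : t ∈ Unb (S.le k0) (InA S k0 B p s u))
    (hg : ∀ n, N ≤ n → t ∈ Gd (S.le k0) (fun t => (t j).st) Dz (InA S k0 B p s u) n) :
    ∃ t', S.le k0 t' t ∧ ∃ v, ∀ v', v ≤ v' → t' ∈ Unb (S.le k0) (InB S k0 B p s u v') ∧
      ∀ n, N ≤ n → t' ∈ Gd (S.le k0) (fun t => (t j).st) Dz (InB S k0 B p s u v') n := by
  classical
  have hpos_down : ∀ (A : Ω → Set (Cnd K J)), (∀ α, DownL (S.le k0) (A α)) → ∀ n c α,
      DownL (S.le k0) (Pos (fun t => (t j).st) Dz A n c α) := by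
    intro A hA n c α t1 ht1 t2 ht2
    obtain ⟨h1, y, hy, h2⟩ := ht1
    refine ⟨hA α t1 h1 t2 ht2, y, ?_, hz.down α y.2 c t1 h2 t2 (le_mono S hjk.le ht2)⟩
    have hpre : (t1 j).st <+: (t2 j).st := ((le_def S k0 t2 t1).1 ht2 j hjk).1
    obtain ⟨hlt, hy'⟩ := List.getElem?_eq_some_iff.1 hy
    have h3 := (List.prefix_iff_getElem?.1 hpre) n hlt
    show (t2 j).st[n]? = some y
    rw [h3, hy']
  have gd_mono' : ∀ (A A' : Ω → Set (Cnd K J)) (n : ℕ), (∀ α, A α ⊆ A' α) →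
      ∀ r, r ∈ Gd (S.le k0) (fun t => (t j).st) Dz A n →
        r ∈ Gd (S.le k0) (fun t => (t j).st) Dz A' n := by
    intro A A' n h r hr r1 hr1
    obtain ⟨r2, hr2, C, hC, hC'⟩ := hr r1 hr1
    refine ⟨r2, hr2, C, hC, fun c hc => ?_⟩
    exact unb_mono (A := Pos (fun t => (t j).st) Dz A n c)
      (A' := Pos (fun t => (t j).st) Dz A' n c) (fun α t ht => ⟨h α ht.1, ht.2⟩) (hC' c hc)
  obtain ⟨t1, ht1, v1, hv1⟩ := psi_unb hL hΩ (InA S k0 B p s u) (InB S k0 B p s u)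
    (fun v α => InB_down S k0 B p s u v α) (fun v v' α h => InB_mono S k0 B p s u v v' α h)
    (fun α t ht => inB_dense S k0 B p s u α t ht) ht
  obtain ⟨t2, ht2, N1, hN1⟩ := hPres (InB S k0 B p s u v1)
    (fun α => InB_down S k0 B p s u v1 α)
    (fun α r hr => le_trans' S j _ _ _ (le_mono S hjk.le hr.1.2.1) (hq α hr.1.1)) t1
    (hv1 v1 le_rfl)
  have key : ∀ m : ℕ, ∃ t', S.le k0 t' t2 ∧ ∃ v, ∀ v', v ≤ v' → ∀ n, N ≤ n → n < N + m →
      t' ∈ Gd (S.le k0) (fun t => (t j).st) Dz (InB S k0 B p s u v') n := by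
    intro m
    induction m with
    | zero => exact ⟨t2, le_refl' S k0 t2, 0, fun v' _ n h1 h2 => by omega⟩
    | succ m ih =>
      obtain ⟨t3, ht3, v3, hv3⟩ := ih
      have h3 : t3 ∈ Gd (S.le k0) (fun t => (t j).st) Dz (InA S k0 B p s u) (N + m) :=
        gd_down hL _ Dz _ _ t (hg (N + m) (by omega)) t3
          (le_trans' S k0 _ _ _ ht3 (le_trans' S k0 _ _ _ ht2 ht1))
      obtain ⟨t4, ht4, v4, hv4⟩ := psi_gd hL hΩ (fun t => (t j).st) Dz (InA S k0 B p s u)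
        (InB S k0 B p s u)
        (fun v α => InB_down S k0 B p s u v α) (fun v v' α h => InB_mono S k0 B p s u v v' α h)
        (fun α t ht => inB_dense S k0 B p s u α t ht) (N + m)
        (fun c α => hpos_down _ (fun α => InA_down S k0 B p s u α) _ c α)
        (fun v c α => hpos_down _ (fun α => InB_down S k0 B p s u v α) _ c α) h3
      refine ⟨t4, le_trans' S k0 _ _ _ ht4 ht3, max v3 v4, fun v' hv' n hn1 hn2 => ?_⟩
      by_cases hn : n < N + m
      · exact gd_down hL _ Dz _ _ t3 (hv3 v' (le_trans (le_max_left _ _) hv') n hn1 hn) t4 ht4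
      · obtain rfl : n = N + m := by omega
        exact hv4 v' (le_trans (le_max_right _ _) hv') _ (fun _ _ h => h)
  obtain ⟨t3, ht3, v3, hv3⟩ := key (N1 - N)
  refine ⟨t3, le_trans' S k0 _ _ _ ht3 (le_trans' S k0 _ _ _ ht2 ht1), max v1 v3,
    fun v' hv' => ⟨?_, fun n hn => ?_⟩⟩
  · exact unb_down hL _ t1 (hv1 v' (le_trans (le_max_left _ _) hv')) t3
      (le_trans' S k0 _ _ _ ht3 ht2)
  · by_cases hn1 : n < N1
    · exact hv3 v' (le_trans (le_max_right _ _) hv') n hn (by omega)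
    · exact gd_mono' (InB S k0 B p s u v1) _ n
        (fun α => InB_mono S k0 B p s u v1 v' α (le_trans (le_max_left _ _) hv')) t3
        (gd_down hL _ Dz _ _ t2 (hN1 n (by omega)) t3 ht3)

theorem psi_lo_mid (hΩ : Reg Ω) {j : J} (hL : Nice (S.le j))
    {Dz : Ω → ℕ → ℤ → Set (Cnd K J)} {q0 : Ω → Cnd K J} (hz : Zok S j Dz q0)
    {B : Set Ω} {p : Ω → Cnd K J} {s u : List (ℕ × ℕ)} (N : ℕ)
    {t : Cnd K J}
    (hg : ∀ n, N ≤ n → n < u.length → t ∈ Gd (S.le j) (fun _ => u) Dz (InA S j B p s u) n)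
    (m : ℕ) :
    ∃ t', S.le j t' t ∧ ∃ v, ∀ v', v ≤ v' → ∀ a n, N ≤ n → n < m → n < u.length →
        t' ∈ Gd (S.le j) (fun _ => u ++ [(a, v')]) Dz (InB S j B p s u v') n := by
  induction m with
  | zero => exact ⟨t, hL.refl t, 0, fun v' _ a n _ h => absurd h (Nat.not_lt_zero n)⟩
  | succ m ih =>
    obtain ⟨t3, ht3, v3, h3⟩ := ih
    by_cases hm : N ≤ m ∧ m < u.length
    · have h4 : t3 ∈ Gd (S.le j) (fun _ => u) Dz (InA S j B p s u) m :=
        gd_down hL _ _ _ _ t (hg m hm.1 hm.2) t3 ht3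
      obtain ⟨r', hr', v, hv⟩ := psi_gd hL hΩ (fun _ => u) Dz (InA S j B p s u)
        (fun v => InB S j B p s u v) (fun v α => InB_down S j B p s u v α)
        (fun v v' α h => InB_mono S j B p s u v v' α h)
        (fun α t ht => inB_dense S j B p s u α t ht) m
        (by
          rintro c α q ⟨hq1, y, hy, hq2⟩ q' hq'
          exact ⟨InA_down S j B p s u α q hq1 q' hq', y, hy, hz.down _ _ _ q hq2 q' hq'⟩)
        (by
          rintro v c α q ⟨hq1, y, hy, hq2⟩ q' hq'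
          exact ⟨InB_down S j B p s u v α q hq1 q' hq', y, hy, hz.down _ _ _ q hq2 q' hq'⟩)
        h4
      refine ⟨r', hL.trans _ _ _ hr' ht3, max v3 v, fun v' hv' a n hN hn hnu => ?_⟩
      rcases Nat.lt_succ_iff_lt_or_eq.1 hn with hlt | rfl
      · exact gd_down hL _ _ _ _ t3 (h3 v' ((le_max_left _ _).trans hv') a n hN hlt hnu) r' hr'
      · apply hv v' ((le_max_right _ _).trans hv')
        intro _ y hy
        rw [List.getElem?_append_left hnu]
        exact hy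
    · refine ⟨t3, ht3, v3, fun v' hv' a n hN hn hnu => ?_⟩
      rcases Nat.lt_succ_iff_lt_or_eq.1 hn with hlt | rfl
      · exact h3 v' hv' a n hN hlt hnu
      · exact absurd ⟨hN, hnu⟩ hm


theorem psi_lo (hΩ : Reg Ω) {j : J} (hL : Nice (S.le j))
    {Dz : Ω → ℕ → ℤ → Set (Cnd K J)} {q0 : Ω → Cnd K J} (hz : Zok S j Dz q0)
    {B : Set Ω} {p : Ω → Cnd K J} {s u : List (ℕ × ℕ)}
    (hq : ∀ α ∈ B, S.le j (p α) (q0 α)) (N : ℕ)
    {t : Cnd K J} (ht : t ∈ Unb (S.le j) (InA S j B p s u))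
    (hg : ∀ n, N ≤ n → n < u.length → t ∈ Gd (S.le j) (fun _ => u) Dz (InA S j B p s u) n) :
    ∃ t', S.le j t' t ∧ ∃ v, ∀ v', v ≤ v' → t' ∈ Unb (S.le j) (InB S j B p s u v') ∧
      ∀ a n, N ≤ n → n < u.length + 1 →
        t' ∈ Gd (S.le j) (fun _ => u ++ [(a, v')]) Dz (InB S j B p s u v') n := by
  obtain ⟨t1, ht1, v1, h1⟩ := psi_unb hL hΩ (InA S j B p s u)
    (fun v => InB S j B p s u v) (fun v α => InB_down S j B p s u v α)
    (fun v v' α h => InB_mono S j B p s u v v' α h)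
    (fun α t ht => inB_dense S j B p s u α t ht) ht
  obtain ⟨t2, ht2, v2, h2⟩ := growth_up hΩ hL hz (InB S j B p s u v1)
    (fun α => InB_down S j B p s u v1 α)
    (fun α r hr => hL.trans _ _ _ hr.1.2.1 (hq α hr.1.1)) (h1 v1 le_rfl) (3 * u.length + 1)
  obtain ⟨t3, ht3, v3, h3⟩ := psi_lo_mid (S := S) hΩ hL hz (B := B) (p := p) (s := s) (u := u) N
    (t := t2) (fun n hn hnu => gd_down hL _ _ _ _ t (hg n hn hnu) t2 (hL.trans _ _ _ ht2 ht1))
    u.length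
  refine ⟨t3, hL.trans _ _ _ ht3 (hL.trans _ _ _ ht2 ht1), max (max v1 v2) v3,
    fun v' hv' => ⟨?_, fun a n hN hn => ?_⟩⟩
  · exact unb_down hL _ t1 (h1 v' (((le_max_left _ _).trans (le_max_left _ _)).trans hv')) t3
      (hL.trans _ _ _ ht3 ht2)
  · rcases Nat.lt_succ_iff_lt_or_eq.1 hn with hlt | rfl
    · exact h3 v' ((le_max_right _ _).trans hv') a n hN hlt hlt
    · intro r1 hr1
      obtain ⟨r2, hr2, C, hC, hC'⟩ := h2 v' (((le_max_right _ _).trans (le_max_left _ _)).trans hv')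
        r1 (hL.trans _ _ _ hr1 ht3)
      refine ⟨r2, hr2, C, hC, fun c hc => ?_⟩
      refine unb_mono ?_ (hC' c hc)
      rintro α q ⟨hq1, hq2⟩
      refine ⟨InB_mono S j B p s u v1 v' α
        (((le_max_left _ _).trans (le_max_left _ _)).trans hv') hq1, (a, v'), ?_, hq2⟩
      simp

variable (S)

/-- `t` forces that the situation is good at the stem `u` -/
def Ok (j k0 : J) (Dz : Ω → ℕ → ℤ → Set (Cnd K J)) (B : Set Ω) (p : Ω → Cnd K J)
    (s : List (ℕ × ℕ)) (N : ℕ) (u : List (ℕ × ℕ)) : Set (Cnd K J) :=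
  {t | t ∈ Unb (S.le k0) (InA S k0 B p s u) ∧ ∀ n, N ≤ n → (k0 = j → n < u.length) →
    t ∈ Gd (S.le k0) (stj j k0 u) Dz (InA S k0 B p s u) n}

/-- `t` forces that the situation is good at all `u ++ [(a, v')]` with `v' ≥ v` -/
def Psi (j k0 : J) (Dz : Ω → ℕ → ℤ → Set (Cnd K J)) (B : Set Ω) (p : Ω → Cnd K J)
    (s : List (ℕ × ℕ)) (N : ℕ) (u : List (ℕ × ℕ)) (v : ℕ) : Set (Cnd K J) :=
  {t | ∀ v', v ≤ v' → ∀ a, t ∈ Ok S j k0 Dz B p s N (u ++ [(a, v')])}

variable {S}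

theorem ok_down {j k0 : J} (hL : Nice (S.le k0)) (Dz : Ω → ℕ → ℤ → Set (Cnd K J)) (B : Set Ω)
    (p : Ω → Cnd K J) (s : List (ℕ × ℕ)) (N : ℕ) (u : List (ℕ × ℕ)) :
    DownL (S.le k0) (Ok S j k0 Dz B p s N u) := by
  rintro t ⟨h1, h2⟩ t' ht'
  exact ⟨unb_down hL _ t h1 t' ht', fun n hn hu => gd_down hL _ _ _ _ t (h2 n hn hu) t' ht'⟩

theorem ok_of_dense {j k0 : J} (hL : Nice (S.le k0)) {Dz : Ω → ℕ → ℤ → Set (Cnd K J)} {B : Set Ω}
    {p : Ω → Cnd K J} {s : List (ℕ × ℕ)} {N : ℕ} {u : List (ℕ × ℕ)} {t : Cnd K J}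
    (h : ∀ t', S.le k0 t' t → ∃ t'', S.le k0 t'' t' ∧ t'' ∈ Ok S j k0 Dz B p s N u) :
    t ∈ Ok S j k0 Dz B p s N u := by
  refine ⟨unb_of_dense hL fun t' ht' => ?_, fun n hn hu => gd_of_dense hL fun t' ht' => ?_⟩
  · obtain ⟨t'', h1, h2⟩ := h t' ht'
    exact ⟨t'', h1, h2.1⟩
  · obtain ⟨t'', h1, h2⟩ := h t' ht'
    exact ⟨t'', h1, h2.2 n hn hu⟩

theorem psi_down {j k0 : J} (hL : Nice (S.le k0)) (Dz : Ω → ℕ → ℤ → Set (Cnd K J)) (B : Set Ω)
    (p : Ω → Cnd K J) (s : List (ℕ × ℕ)) (N : ℕ) (u : List (ℕ × ℕ)) (v : ℕ) :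
    DownL (S.le k0) (Psi S j k0 Dz B p s N u v) :=
  fun t ht t' ht' v' hv' a => ok_down hL Dz B p s N _ t (ht v' hv' a) t' ht'


theorem psi_all (hΩ : Reg Ω) {j k0 : J} (hL : Nice (S.le k0)) (hjk : j ≤ k0)
    {Dz : Ω → ℕ → ℤ → Set (Cnd K J)} {q0 : Ω → Cnd K J} (hz : Zok S j Dz q0)
    (hPres : j < k0 → Pres S j Dz q0 k0) {B : Set Ω} {p : Ω → Cnd K J} {s u : List (ℕ × ℕ)}
    (hq : ∀ α ∈ B, S.le j (p α) (q0 α)) (N : ℕ) (hsu : s <+: u)
    {t : Cnd K J} (ht : t ∈ Ok S j k0 Dz B p s N u) :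
    ∃ t', S.le k0 t' t ∧ ∃ v, t' ∈ Psi S j k0 Dz B p s N u v := by
  have hAB : ∀ x : ℕ × ℕ, InA S k0 B p s (u ++ [x]) = InB S k0 B p s u x.2 :=
    fun x => funext fun α => InA_append S k0 B p s u x α hsu
  rcases hjk.eq_or_lt with rfl | hlt
  · have hst : ∀ w : List (ℕ × ℕ), stj (K := K) j j w = fun _ => w := by
      intro w; funext t; simp [stj]
    obtain ⟨h1, h2⟩ := ht
    obtain ⟨t', ht', v, hv⟩ := psi_lo hΩ hL hz hq N h1 (fun n hn hu => by
      have := h2 n hn (fun _ => hu)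
      rwa [hst] at this)
    refine ⟨t', ht', v, fun v' hv' a => ?_⟩
    obtain ⟨h3, h4⟩ := hv v' hv'
    refine ⟨?_, fun n hn hu => ?_⟩
    · rw [hAB]; exact h3
    · rw [hAB, hst]
      apply h4 a n hn
      have := hu rfl
      simpa using this
  · have hne : k0 ≠ j := hlt.ne'
    have hst : ∀ w : List (ℕ × ℕ), stj (K := K) j k0 w = fun t => (t j).st := by
      intro w; funext t; simp [stj, hne]
    obtain ⟨h1, h2⟩ := ht
    obtain ⟨t', ht', v, hv⟩ := psi_hi hΩ hL hlt hz (hPres hlt) hq N h1 (fun n hn => by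
      have := h2 n hn (fun h => absurd h hne)
      rwa [hst] at this)
    refine ⟨t', ht', v, fun v' hv' a => ?_⟩
    obtain ⟨h3, h4⟩ := hv v' hv'
    refine ⟨?_, fun n hn hu => ?_⟩
    · rw [hAB]; exact h3
    · rw [hAB, hst]
      exact h4 n hn


theorem track (hΩ : Reg Ω) {j k0 : J} (hL : Nice (S.le k0)) (hjk : j ≤ k0)
    {Dz : Ω → ℕ → ℤ → Set (Cnd K J)} {q0 : Ω → Cnd K J} (hz : Zok S j Dz q0)
    (hPres : j < k0 → Pres S j Dz q0 k0) {B : Set Ω} {p : Ω → Cnd K J} {s : List (ℕ × ℕ)}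
    (hq : ∀ α ∈ B, S.le j (p α) (q0 α)) (N : ℕ) {d : J}
    (hd : ∀ w v, mts (S.le k0) (S.phi d w v) = mts (S.le k0) (Psi S j k0 Dz B p s N w v))
    {r : Cnd K J} (hr : r ∈ Ok S j k0 Dz B p s N s) (hs : s <+: (r k0).st)
    (hpr : ∀ w x, s <+: w → w ++ [x] <+: (r k0).st → r ∈ PD (S.le k0) (S.phi d) w x.2) :
    r ∈ Ok S j k0 Dz B p s N (r k0).st := by
  have key : ∀ u : List (ℕ × ℕ), s <+: u → u <+: (r k0).st → r ∈ Ok S j k0 Dz B p s N u := by
    intro u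
    induction u using List.reverseRecOn with
    | nil =>
      intro h1 _
      have : s = [] := List.prefix_nil.1 h1
      rwa [this] at hr ⊢
    | append_singleton w x ih =>
      intro h1 h2
      rcases List.prefix_concat_iff.1 h1 with h3 | h3
      · rw [← h3]; exact hr
      · have hw : w <+: (r k0).st := (List.prefix_append w [x]).trans h2
        have ih' := ih h3 hw
        refine ok_of_dense hL fun r1 hr1 => ?_
        have hok1 : r1 ∈ Ok S j k0 Dz B p s N w := ok_down hL _ _ _ _ _ _ r ih' r1 hr1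
        obtain ⟨r2, hr21, v, hv⟩ := psi_all hΩ hL hjk hz hPres hq N h3 hok1
        have hm : r2 ∈ mts (S.le k0) (Psi S j k0 Dz B p s N w v) := mem_mts hL hv (hL.refl r2)
        rw [← hd] at hm
        obtain ⟨r3, hr32, v', hv', h4⟩ := hpr w x h3 h2 r2 (hL.trans _ _ _ hr21 hr1) ⟨v, hm⟩
        rw [hd] at h4
        obtain ⟨r4, hr43, t, ht, hrt⟩ := h4 r3 (hL.refl r3)
        have h5 : r4 ∈ Psi S j k0 Dz B p s N w v' := psi_down hL _ _ _ _ _ _ _ t ht r4 hrt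
        exact ⟨r4, hL.trans _ _ _ hr43 (hL.trans _ _ _ hr32 hr21), h5 x.2 hv' x.1⟩
  exact key _ hs (List.prefix_refl _)

theorem join_step_bound {j k k0 : J} {A : Ω → Set (Cnd K J)} {B : Set Ω}
    {p : Ω → Cnd K J} {s : List (ℕ × ℕ)} {F : Finset K} (hF : Fam j k k0 A B p s F) (β : Ω)
    (T : Finset J) : ∃ β', β ≤ β' ∧ ∀ i ∈ T, k0 < i → i < k → ∀ α ∈ B, β' < α → p α i = 0 := by
  classical
  induction T using Finset.induction_on with
  | empty => exact ⟨β, le_rfl, fun i hi => absurd hi (Finset.notMem_empty _)⟩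
  | insert a T _ ih =>
    obtain ⟨β', h1, h2⟩ := ih
    by_cases hk : k0 < a ∧ a < k
    · obtain ⟨β2, h3⟩ := hF.tail a hk.1 hk.2
      refine ⟨max β' β2, h1.trans (le_max_left _ _), ?_⟩
      intro i hi hi1 hi2 α hα hlt
      rcases Finset.mem_insert.1 hi with rfl | hi
      · exact h3 α hα (lt_of_le_of_lt (le_max_right _ _) hlt)
      · exact h2 i hi hi1 hi2 α hα (lt_of_le_of_lt (le_max_left _ _) hlt)
    · refine ⟨β', h1, ?_⟩
      intro i hi hi1 hi2 α hα hlt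
      rcases Finset.mem_insert.1 hi with rfl | hi
      · exact absurd ⟨hi1, hi2⟩ hk
      · exact h2 i hi hi1 hi2 α hα hlt

open Classical in
/-- the condition glued from three parts -/
noncomputable def join3 (k0 : J) (a : Atom K J) (t r p : Cnd K J) : Cnd K J :=
  Finsupp.onFinset (t.support ∪ r.support ∪ p.support ∪ {k0})
    (fun i => if i < k0 then t i else if i = k0 then a else if r i = 0 then p i else r i) (by
    intro i hi
    simp only [Finset.mem_union, Finsupp.mem_support_iff, Finset.mem_singleton]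
    by_cases h1 : i < k0
    · left; left; left; simpa [h1] using hi
    · by_cases h2 : i = k0
      · right; exact h2
      · by_cases h3 : r i = 0
        · left; right; simpa [h1, h2, h3] using hi
        · left; left; right; exact h3)

theorem join3_lt {k0 i : J} (h : i < k0) (a : Atom K J) (t r p : Cnd K J) :
    join3 k0 a t r p i = t i := by
  simp [join3, h]

theorem join3_eq (k0 : J) (a : Atom K J) (t r p : Cnd K J) :
    join3 k0 a t r p k0 = a := by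
  simp [join3]

theorem join3_gt_zero {k0 i : J} (h : k0 < i) (a : Atom K J) (t r p : Cnd K J) (hr : r i = 0) :
    join3 k0 a t r p i = p i := by
  simp [join3, not_lt.2 h.le, h.ne', hr]

theorem join3_gt_ne {k0 i : J} (h : k0 < i) (a : Atom K J) (t r p : Cnd K J) (hr : r i ≠ 0) :
    join3 k0 a t r p i = r i := by
  simp [join3, not_lt.2 h.le, h.ne', hr]


theorem join_step (hΩ : Reg Ω) {j k k0 : J} {A : Ω → Set (Cnd K J)} {B : Set Ω}
    {p : Ω → Cnd K J} {s : List (ℕ × ℕ)} {F : Finset K} (hF : Fam j k k0 A B p s F)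
    {r : Cnd K J} (hs : s <+: (r k0).st) (hFr : F ⊆ (r k0).F)
    (hPR : ∀ w x, s <+: w → w ++ [x] <+: (r k0).st → ∀ ξ ∈ F,
      r ∈ PR (S.le k0) (S.rho k0) w x ξ)
    (A' : Ω → Set (Cnd K J)) (hA' : ∀ α, A' α ⊆ InA S k0 B p s (r k0).st α)
    (hr : r ∈ Unb (S.le k0) A') (β : Ω) :
    ∃ α, β < α ∧ ∃ q3, S.le k q3 r ∧ S.le k q3 (p α) ∧ α ∈ B ∧ (q3 k0).st = (r k0).st ∧
      ∃ t ∈ A' α, ∀ i, i < k0 → q3 i = t i := by
  classical
  obtain ⟨β', hβ, hβ'⟩ := join_step_bound hF β r.support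
  obtain ⟨α, hα, t, ht, htA⟩ := hr r (le_refl' S k0 r) β'
  obtain ⟨hαB, htp, hPD⟩ := hA' α htA
  have hst : (p α k0).st = s := hF.st α hαB
  have hFF : (p α k0).F = F := hF.F α hαB
  let a : Atom K J := ⟨(r k0).st, (r k0).F, (r k0).D ∪ (p α k0).D, (r k0).h⟩
  let q3 : Cnd K J := join3 k0 a t r (p α)
  have hlt : ∀ i, i < k0 → q3 i = t i := fun i hi => join3_lt hi a t r (p α)
  have heq : q3 k0 = a := join3_eq k0 a t r (p α)
  have hq3t : ∀ l, l ≤ k0 → S.le l q3 t := fun l hl =>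
    le_of_eq S fun i hi => hlt i (hi.trans_le hl)
  have hq3r : S.le k0 q3 r := le_trans' S k0 _ _ _ (hq3t k0 le_rfl) ht
  refine ⟨α, lt_of_le_of_lt hβ hα, q3, ?_, ?_, hαB, ?_, t, htA, hlt⟩
  · rw [le_def]
    intro i hi
    rcases lt_trichotomy i k0 with h | h | h
    · exact Cst_trans_left S (hq3t i h.le) (hlt i h) ((le_def S k0 t r).1 ht i h)
    · subst h
      apply Cst_of_st_eq S
      · rw [heq]
      · rw [heq]
      · rw [heq]
        exact Finset.subset_union_left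
    · by_cases hr0 : r i = 0
      · exact Cst_of_zero S hr0
      · exact Cst_of_eq S (join3_gt_ne h a t r (p α) hr0)
  · rw [le_def]
    intro i hi
    rcases lt_trichotomy i k0 with h | h | h
    · exact Cst_trans_left S (hq3t i h.le) (hlt i h) ((le_def S k0 t (p α)).1 htp i h)
    · subst h
      refine ⟨?_, ?_, ?_, ?_⟩
      · rw [heq, hst]; exact hs
      · rw [heq, hFF]; exact hFr
      · rw [heq]; exact Finset.subset_union_right
      · intro w x hw hx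
        rw [hst] at hw
        rw [heq] at hx
        refine ⟨?_, ?_⟩
        · intro ξ hξ
          rw [hFF] at hξ
          exact PR_down (le_trans' S i) _ _ _ _ r (hPR w x hw hx ξ hξ) q3 hq3r
        · intro d hd
          exact PD_down (le_trans' S i) _ _ _ t (hPD w x hw hx d hd) q3 (hq3t i le_rfl)
    · by_cases hr0 : r i = 0
      · exact Cst_of_eq S (join3_gt_zero h a t r (p α) hr0)
      · apply Cst_of_zero S
        exact hβ' i (Finsupp.mem_support_iff.2 hr0) h hi α hαB hα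
  · rw [heq]

theorem final_good_aux_down {j k : J} (hjk : j < k)
    {Dz : Ω → ℕ → ℤ → Set (Cnd K J)} {q0 : Ω → Cnd K J} (hz : Zok S j Dz q0)
    {A : Ω → Set (Cnd K J)} (hA : ∀ α, DownL (S.le k) (A α)) (n : ℕ) (c : ℤ) (α : Ω) :
    DownL (S.le k) (Pos (fun t => (t j).st) Dz A n c α) := by
  rintro t ⟨h1, y, h2, h3⟩ t' ht'
  refine ⟨hA α t h1 t' ht', y, ?_, hz.down α y.2 c t h3 t' (le_mono S hjk.le ht')⟩
  have h4 : (t j).st <+: (t' j).st := ((le_def S k t' t).1 ht' j hjk).1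
  have h2' : (t j).st[n]? = some y := h2
  show (t' j).st[n]? = some y
  obtain ⟨l, hl⟩ := h4
  rw [← hl]
  have hlt : n < (t j).st.length := by
    by_contra hcon
    rw [List.getElem?_eq_none (not_lt.1 hcon)] at h2'
    exact absurd h2' (by simp)
  rw [List.getElem?_append_left hlt]
  exact h2'


theorem final_good (hΩ : Reg Ω) {j k k0 : J} (hL : Nice (S.le k)) (hL0 : Nice (S.le k0))
    {Dz : Ω → ℕ → ℤ → Set (Cnd K J)} {q0 : Ω → Cnd K J} (hz : Zok S j Dz q0)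
    {A : Ω → Set (Cnd K J)} (hA : ∀ α, DownL (S.le k) (A α)) {B : Set Ω}
    {p : Ω → Cnd K J} {s : List (ℕ × ℕ)} {F : Finset K} (hF : Fam j k k0 A B p s F) (N : ℕ)
    {q : Cnd K J} (hq1 : (q k0).st = s) (hq2 : F ⊆ (q k0).F)
    (hq4 : ∀ r, S.le k r q → r ∈ Ok S j k0 Dz B p s N (r k0).st) (n : ℕ) (hn : N ≤ n) :
    q ∈ Gd (S.le k) (fun t => (t j).st) Dz A n := by
  intro r1 hr1
  obtain ⟨r1', hr1', _, hlen, _, _⟩ := longer S k0 r1 (n + 1)
  have hr1q : S.le k r1' q := le_trans' S k _ _ _ (hr1' k) hr1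
  obtain ⟨r2, hr2, C, hC, hCu⟩ := (hq4 r1' hr1q).2 n hn (fun _ => hlen) r1' (le_refl' S k0 r1')
  set u := (r1' k0).st with hu
  have hkk := hF.kk
  have hjk : j < k := hF.jk.trans_lt hF.kk
  have hr3 : S.le k (am k0 r2 r1') r1' := am_le S hr2 k
  have hr3u : (am k0 r2 r1' k0).st = u := by rw [am_ge le_rfl]
  have hdown := fun c α => final_good_aux_down hjk hz hA n c α
  obtain ⟨β, hβ⟩ := bd_fam hL hΩ (S := ℤ) (mk_le_aleph0.trans (aleph0_le_aleph 1))
    (fun c => Pos (fun t => (t j).st) Dz A n c) hdown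
  have h1 : ∀ C' : Finset ℤ, C' ⊆ C → ∃ r', S.le k r' (am k0 r2 r1') ∧ (r' k0).st = u ∧
      ∀ c ∈ C', ∃ α, β < α ∧ r' ∈ Pos (fun t => (t j).st) Dz A n c α := by
    intro C'
    induction C' using Finset.induction_on with
    | empty =>
      intro _
      exact ⟨am k0 r2 r1', le_refl' S k _, hr3u, fun c hc => absurd hc (Finset.notMem_empty c)⟩
    | insert c C' hc ih =>
      intro hsub
      obtain ⟨r', h2, h3, h4⟩ := ih (fun x hx => hsub (Finset.mem_insert_of_mem hx))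
      have h5 : S.le k r' q := le_trans' S k _ _ _ (le_trans' S k _ _ _ h2 hr3) hr1q
      obtain ⟨e1, e2, _, e4⟩ := (le_def S k r' q).1 h5 k0 hkk
      rw [hq1] at e1 e4
      have h6 : S.le k0 r' r2 :=
        le_trans' S k0 _ _ _ (le_mono S hkk.le h2) (am_le_left S le_rfl r2 r1')
      obtain ⟨α, hα, q3, h7, h8, h9, h10, t, ht, h11⟩ := join_step hΩ hF e1 (hq2.trans e2)
        (fun w x hw hx ξ hξ => (e4 w x hw hx).1 ξ (hq2 hξ))
        (Pos (stj j k0 u) Dz (InA S k0 B p s u) n c)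
        (fun α t ht => by rw [h3]; exact ht.1)
        (unb_down hL0 _ r2 (hCu c (hsub (Finset.mem_insert_self c C'))) r' h6) β
      refine ⟨q3, le_trans' S k _ _ _ h7 h2, h10.trans h3, fun c' hc' => ?_⟩
      rcases Finset.mem_insert.1 hc' with rfl | hc'
      · refine ⟨α, hα, hA α (p α) (hF.mem α h9) q3 h8, ?_⟩
        obtain ⟨_, y, hy, hyD⟩ := ht
        have h12 : S.le j q3 t := le_of_eq S fun i hi => h11 i (hi.trans_le hF.jk)
        refine ⟨y, ?_, hz.down α y.2 c' t hyD q3 h12⟩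
        show (q3 j).st[n]? = some y
        have hy' : (stj j k0 u t)[n]? = some y := hy
        unfold stj at hy'
        split_ifs at hy' with h13
        · subst h13
          rw [h10, h3]
          exact hy'
        · have h14 : j < k0 := lt_of_le_of_ne hF.jk (fun h => h13 h.symm)
          rw [h11 j h14]
          exact hy'
      · obtain ⟨α', hα', h12⟩ := h4 c' hc'
        exact ⟨α', hα', hdown c' α' r' h12 q3 h7⟩
  obtain ⟨r', hr', _, hr'P⟩ := h1 C (Finset.Subset.refl C)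
  have h2 : ∀ C' : Finset ℤ, C' ⊆ C → ∃ r'', S.le k r'' r' ∧
      ∀ c ∈ C', r'' ∈ Unb (S.le k) (Pos (fun t => (t j).st) Dz A n c) := by
    intro C'
    induction C' using Finset.induction_on with
    | empty =>
      intro _
      exact ⟨r', le_refl' S k _, fun c hc => absurd hc (Finset.notMem_empty c)⟩
    | insert c C' hc ih =>
      intro hsub
      obtain ⟨r'', h3, h4⟩ := ih (fun x hx => hsub (Finset.mem_insert_of_mem hx))
      obtain ⟨α, hα, h5⟩ := hr'P c (hsub (Finset.mem_insert_self c C'))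
      obtain ⟨r3', h6, h7⟩ := hβ c α hα r'' (hdown c α r' h5 r'' h3)
      refine ⟨r3', le_trans' S k _ _ _ h6 h3, fun c' hc' => ?_⟩
      rcases Finset.mem_insert.1 hc' with rfl | hc'
      · exact h7
      · exact unb_down hL _ r'' (h4 c' hc') r3' h6
  obtain ⟨r'', hr'', hr''U⟩ := h2 C (Finset.Subset.refl C)
  refine ⟨r'', ?_, C, hC, hr''U⟩
  exact le_trans' S k _ _ _ hr'' (le_trans' S k _ _ _ hr' (le_trans' S k _ _ _ hr3 (hr1' k)))


theorem phi_step (hΩ : Reg Ω) {j k k0 : J} (hL : Nice (S.le k)) (hL0 : Nice (S.le k0))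
    (hphi : ∀ f : List (ℕ × ℕ) → ℕ → Set (Cnd K J), (∀ w v, (f w v).Countable) →
      ∃ d, S.phi d = f)
    {Dz : Ω → ℕ → ℤ → Set (Cnd K J)} {q0 : Ω → Cnd K J} (hz : Zok S j Dz q0)
    (hPres : j < k0 → Pres S j Dz q0 k0)
    {A : Ω → Set (Cnd K J)} (hA : ∀ α, DownL (S.le k) (A α))
    (hAq : ∀ α, ∀ r ∈ A α, S.le j r (q0 α)) {B : Set Ω}
    {p : Ω → Cnd K J} {s : List (ℕ × ℕ)} {F : Finset K} (hF : Fam j k k0 A B p s F) :
    ∃ α0 ∈ B, ∃ q, S.le k q (p α0) ∧ ∃ N, ∀ n, N ≤ n →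
      q ∈ Gd (S.le k) (fun t => (t j).st) Dz A n := by
  classical
  have hq : ∀ α ∈ B, S.le j (p α) (q0 α) := fun α hα => hAq α (p α) (hF.mem α hα)
  obtain ⟨β, hβ⟩ := bd hL0 hΩ (InA S k0 B p s s) (InA_down S k0 B p s s)
  obtain ⟨α0, hα0, hβα⟩ := hF.ubd β
  have hmem0 : p α0 ∈ InA S k0 B p s s α0 := by
    refine ⟨hα0, le_refl' S k0 _, fun w x hw hx => ?_⟩
    have h1 := hw.length_le
    have h2 := hx.length_le
    simp at h2
    omega
  obtain ⟨r0, hr0, hr0u⟩ := hβ α0 hβα (p α0) hmem0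
  have hex : ∃ r1, S.le k0 r1 (p α0) ∧ ∃ N, r1 ∈ Ok S j k0 Dz B p s N s := by
    rcases lt_or_eq_of_le hF.jk with hlt | heq
    · obtain ⟨r1, hr1, N, hN⟩ := hPres hlt (InA S k0 B p s s) (InA_down S k0 B p s s)
        (fun α r hr => le_trans' S j _ _ _ (le_mono S hlt.le hr.2.1) (hq α hr.1)) r0 hr0u
      refine ⟨r1, le_trans' S k0 _ _ _ hr1 hr0, N, unb_down hL0 _ r0 hr0u r1 hr1, ?_⟩
      intro n hn _
      have hst : (stj j k0 s : Cnd K J → List (ℕ × ℕ)) = fun t => (t j).st := by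
        funext t
        simp [stj, hlt.ne']
      rw [hst]
      exact hN n hn
    · refine ⟨r0, hr0, s.length, hr0u, ?_⟩
      intro n hn h
      exact absurd (h heq.symm) (not_lt.2 hn)
  obtain ⟨r1, hr1, N, hok⟩ := hex
  choose f hf1 hf2 hf3 using fun w v => ctbl_mts hL0 (Psi S j k0 Dz B p s N w v)
  obtain ⟨d, hd⟩ := hphi f hf1
  have hd' : ∀ w v, mts (S.le k0) (S.phi d w v) = mts (S.le k0) (Psi S j k0 Dz B p s N w v) := by
    intro w v
    rw [hd]
    exact hf3 w v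
  have hcard : F.card ≤ s.length := by
    have := (p α0 k0).h
    rw [hF.F α0 hα0, hF.st α0 hα0] at this
    exact this
  let at0 : Atom K J := ⟨s, F, insert d (p α0 k0).D, hcard⟩
  let q : Cnd K J := (am k0 r1 (p α0)).update k0 at0
  have hqlt : ∀ i, i < k0 → q i = r1 i := by
    intro i hi
    simp only [q, Finsupp.coe_update, Function.update_of_ne hi.ne]
    exact am_lt hi _ _
  have hqeq : q k0 = at0 := by
    simp only [q, Finsupp.coe_update, Function.update_self]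
  have hqgt : ∀ i, k0 < i → q i = p α0 i := by
    intro i hi
    simp only [q, Finsupp.coe_update, Function.update_of_ne hi.ne']
    exact am_ge hi.le _ _
  have hle : S.le k q (p α0) := by
    rw [le_def]
    intro i _
    rcases lt_trichotomy i k0 with h | h | h
    · exact Cst_trans_left S (le_of_eq S fun i' hi' => hqlt i' (hi'.trans h)) (hqlt i h)
        ((le_def S k0 _ _).1 hr1 i h)
    · subst h
      refine Cst_of_st_eq S ?_ ?_ ?_
      · rw [hqeq, hF.st α0 hα0]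
      · rw [hqeq, hF.F α0 hα0]
      · rw [hqeq]
        exact Finset.subset_insert _ _
    · exact Cst_of_eq S (hqgt i h)
  have hq4 : ∀ r, S.le k r q → r ∈ Ok S j k0 Dz B p s N (r k0).st := by
    intro r hr
    have h1 : S.le k0 r r1 :=
      le_trans' S k0 _ _ _ (le_mono S hF.kk.le hr) (le_of_eq S fun i hi => hqlt i hi)
    have h2 : r ∈ Ok S j k0 Dz B p s N s := ok_down hL0 Dz B p s N s r1 hok r h1
    obtain ⟨c1, c2, c3, c4⟩ := (le_def S k r q).1 hr k0 hF.kk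
    rw [hqeq] at c1 c3 c4
    refine track hΩ hL0 hF.jk hz hPres hq N hd' h2 c1 ?_
    intro w x hw hx
    exact (c4 w x hw hx).2 d (Finset.mem_insert_self _ _)
  refine ⟨α0, hα0, q, hle, N, fun n hn => ?_⟩
  exact final_good hΩ hL hL0 hz hA hF N (by rw [hqeq]) (by rw [hqeq]) hq4 n hn


theorem exists_fam (hΩ : Reg Ω) (hK : #K ≤ ℵ_ 1) {j k : J} (hjk : j < k)
    {A : Ω → Set (Cnd K J)} {r : Cnd K J} (hr : r ∈ Unb (S.le k) A) (hL : Nice (S.le k)) :
    ∃ k0 B p s F, Fam j k k0 A B p s F ∧ ∀ α ∈ B, S.le k (p α) r := by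
  classical
  let B0 : Set Ω := {α | ∃ t, S.le k t r ∧ t ∈ A α}
  have hB0 : Ubd B0 := by
    intro β
    obtain ⟨α, hα, t, ht, htA⟩ := hr r (hL.refl r) β
    exact ⟨α, ⟨t, ht, htA⟩, hα⟩
  let p : Ω → Cnd K J := fun α => if h : ∃ t, S.le k t r ∧ t ∈ A α then h.choose else 0
  have hp : ∀ α ∈ B0, S.le k (p α) r ∧ p α ∈ A α := by
    intro α hα
    have hα' : ∃ t, S.le k t r ∧ t ∈ A α := hα
    have : p α = hα'.choose := by simp only [p]; rw [dif_pos hα']
    rw [this]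
    exact hα'.choose_spec
  obtain ⟨B', hB'0, hB', R, hR1, hR2⟩ := wdelta hΩ hB0 (fun α => (p α).support)
  have hne : (insert j (R.filter (· < k))).Nonempty := Finset.insert_nonempty _ _
  set k0 := (insert j (R.filter (· < k))).max' hne with hk0
  have hjk0 : j ≤ k0 := Finset.le_max' _ _ (Finset.mem_insert_self _ _)
  have hk0k : k0 < k := by
    have h1 := Finset.max'_mem (insert j (R.filter (· < k))) hne
    rw [Finset.mem_insert, Finset.mem_filter] at h1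
    rcases h1 with h1 | h1
    · rw [hk0, h1]; exact hjk
    · exact h1.2
  have hcard : #(List (ℕ × ℕ) × Finset K) ≤ ℵ_ 1 := by
    have h1 : #(List (ℕ × ℕ)) ≤ ℵ_ 1 := (Cardinal.mk_le_aleph0).trans (Cardinal.aleph0_le_aleph 1)
    have h2 : #(Finset K) ≤ ℵ_ 1 := by
      rcases finite_or_infinite K with h | h
      · haveI := h
        exact (Cardinal.mk_le_aleph0).trans (Cardinal.aleph0_le_aleph 1)
      · rw [Cardinal.mk_finset_of_infinite]; exact hK
    rw [Cardinal.mk_prod, Cardinal.lift_id, Cardinal.lift_id]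
    calc #(List (ℕ × ℕ)) * #(Finset K) ≤ ℵ_ 1 * ℵ_ 1 := mul_le_mul' h1 h2
      _ = ℵ_ 1 := Cardinal.mul_eq_self (Cardinal.aleph0_le_aleph 1)
  obtain ⟨⟨s, F⟩, hsF⟩ := pig hΩ hB' hcard (fun α => ((p α k0).st, (p α k0).F))
  refine ⟨k0, {α | α ∈ B' ∧ ((p α k0).st, (p α k0).F) = (s, F)}, p, s, F, ?_, ?_⟩
  · refine ⟨hjk0, hk0k, hsF, fun α hα => (hp α (hB'0 hα.1)).2, fun α hα => ?_, fun α hα => ?_, ?_⟩
    · exact (Prod.mk.inj hα.2).1
    · exact (Prod.mk.inj hα.2).2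
    · intro i hi1 hi2
      have hiR : i ∉ R := by
        intro h
        have : i ≤ k0 := Finset.le_max' _ _ (by
          rw [Finset.mem_insert, Finset.mem_filter]
          right; exact ⟨h, hi2⟩)
        exact absurd this (not_le.2 hi1)
      obtain ⟨β, hβ⟩ := hR2 i hiR
      refine ⟨β, fun α hα hβα => ?_⟩
      have := hβ α hα.1 hβα
      simpa using this
  · intro α hα
    exact (hp α (hB'0 hα.1)).1


theorem pres_all (hΩ : Reg Ω) (hK : #K ≤ ℵ_ 1) (hL : ∀ k, Nice (S.le k))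
    (hphi : ∀ f : List (ℕ × ℕ) → ℕ → Set (Cnd K J), (∀ w v, (f w v).Countable) →
      ∃ d, S.phi d = f) {j : J}
    {Dz : Ω → ℕ → ℤ → Set (Cnd K J)} {q0 : Ω → Cnd K J} (hz : Zok S j Dz q0) (k : J)
    (hjk : j < k) : Pres S j Dz q0 k := by
  induction k using WellFoundedLT.induction with
  | ind k IH =>
    intro A hA hAq r hr
    obtain ⟨k0, B, p, s, F, hF, hle⟩ := exists_fam (S := S) hΩ hK hjk hr (hL k)
    obtain ⟨α0, hα0, q, hq, N, hN⟩ := phi_step hΩ (hL k) (hL k0) hphi hz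
      (fun h => IH k0 hF.kk h) hA hAq hF
    exact ⟨q, (hL k).trans _ _ _ hq (hle α0 hα0), N, hN⟩

end Phi

end Pool.Agent.Helper161.Gam
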