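import Mathlib
import Pool.Agent.Helper161.Gam.Phi
import Pool.Agent.Helper161.Gam.Lang

/-!
# The forcing notion
-/

set_option autoImplicit false
set_option linter.unusedSectionVars false
set_option linter.unusedVariables false

namespace Pool.Agent.Helper161.Gam

open Cardinal

section Fin

variable {K J : Type} [LinearOrder J] [WellFoundedLT J]

/-- the conditions with the order of the stage `k` -/
def Lv (_S : Sys K J) (_k : J) : Type := Cnd K J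

instance (S : Sys K J) (k : J) : Preorder (Lv S k) where
  le := S.le k
  le_refl := le_refl' S k
  le_trans := le_trans' S k

instance (S : Sys K J) (k : J) : Nonempty (Lv S k) := ⟨(0 : Cnd K J)⟩

/-- at most `ℵ₂` elements below `k` have a bound below `k` -/
def Cof (k : J) : Prop :=
  ∀ T : Type, #T ≤ ℵ_ 2 → ∀ f : T → J, (∀ t, f t < k) → ∃ b, b < k ∧ ∀ t, f t < b


theorem ccc_level (S : Sys K J) (k : J) : CCC (Lv S k) := by
  intro A hA
  obtain ⟨B, hBA, hBc, hB⟩ := (nice_level S k).pred A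
  have : A = B := by
    apply Set.Subset.antisymm _ hBA
    intro a ha
    obtain ⟨b, hb, r, hrb, hra⟩ := hB a ha
    by_cases h : a = b
    · rw [h]; exact hb
    · exfalso
      exact h (hA a ha b (hBA hb) ⟨r, hra, hrb⟩)
  rw [this]
  exact hBc


theorem bsupp {k : J} (hk : Cof k) {T : Type} (hT : #T ≤ ℵ_ 2) (N : T → Set (Cnd K J))
    (hN : ∀ t, (N t).Countable) : ∃ b, b < k ∧ ∀ t, ∀ s ∈ N t, Blw b (res k s) := by
  let T' : Type := Σ t : T, Σ s : N t, ((res k s.1).support : Set J)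
  have hfib : ∀ t : T, #(Σ s : N t, ((res k s.1).support : Set J)) ≤ ℵ₀ := by
    intro t
    have h1 : Countable (N t) := (hN t).to_subtype
    have h2 : ∀ s : N t, Countable ((res k s.1).support : Set J) := fun s =>
      (Finset.countable_toSet _).to_subtype
    have h3 : Countable (Σ s : N t, ((res k s.1).support : Set J)) := inferInstance
    exact Cardinal.mk_le_aleph0_iff.2 h3
  have hT' : #T' ≤ ℵ_ 2 := by
    rw [Cardinal.mk_sigma]
    refine (Cardinal.sum_le_sum _ (fun _ => ℵ₀) hfib).trans ?_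
    rw [Cardinal.sum_const', ]
    have h4 : #T * ℵ₀ ≤ ℵ_ 2 * ℵ_ 2 :=
      mul_le_mul' hT (Cardinal.aleph0_le_aleph 2)
    rwa [Cardinal.mul_eq_self (Cardinal.aleph0_le_aleph 2)] at h4
  obtain ⟨b, hb, hb'⟩ := hk T' hT' (fun x => x.2.2.1) (by
    rintro ⟨t, s, i⟩
    by_contra hcon
    have h5 : res k s.1 i.1 = 0 := blw_res k s.1 i.1 (not_lt.1 hcon)
    have h6 : i.1 ∈ (res k s.1).support := i.2
    exact (Finsupp.mem_support_iff.1 h6) h5)
  refine ⟨b, hb, fun t s hs i hi => ?_⟩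
  by_contra hne
  have h7 : i ∈ (res k s).support := Finsupp.mem_support_iff.2 hne
  have h8 := hb' ⟨t, ⟨s, hs⟩, ⟨i, h7⟩⟩
  exact absurd h8 (not_lt.2 hi)


theorem ctbl_names (S : Sys K J) {k : J} (hk : Cof k) {T : Type} (hT : #T ≤ ℵ_ 2)
    (N : T → Set (Cnd K J)) :
    ∃ b, b < k ∧ ∃ N' : T → Set (Cnd K J), ∀ t, (N' t).Countable ∧ (∀ s ∈ N' t, Blw b s) ∧
      mts (S.le k) (N' t) = mts (S.le k) (N t) := by
  choose M hM1 hM2 hM3 using fun t => ctbl_mts (nice_level S k) (N t)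
  obtain ⟨b, hb, hB⟩ := bsupp hk hT M hM1
  refine ⟨b, hb, fun t => res k '' M t, fun t => ⟨(hM1 t).image _, ?_, ?_⟩⟩
  · rintro _ ⟨s, hs, rfl⟩
    exact hB t s hs
  · rw [← hM3 t]
    ext p
    constructor
    · intro hp q hq
      obtain ⟨r, hr, _, ⟨s, hs, rfl⟩, hrs⟩ := hp q hq
      exact ⟨r, hr, s, hs, le_trans' S k _ _ _ hrs (le_of_eq S fun i hi => am_lt hi _ _)⟩
    · intro hp q hq
      obtain ⟨r, hr, s, hs, hrs⟩ := hp q hq
      exact ⟨r, hr, res k s, ⟨s, hs, rfl⟩,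
        le_trans' S k _ _ _ hrs (le_of_eq S fun i hi => (am_lt hi _ _).symm)⟩


theorem gen_R (S : Sys K J) {i k : J} (hik : i < k) (R : List (ℕ × ℕ) → K → ℕ × ℕ → Set (Cnd K J))
    (hR1 : ∀ w ξ x, ∀ s ∈ S.rho i w ξ x, Blw i s)
    (hR2 : ∀ w ξ x, mts (S.le k) (S.rho i w ξ x) = mts (S.le k) (R w ξ x)) (p : Cnd K J)
    (hlink : ∀ w : List (ℕ × ℕ), ∀ F : Finset K, F.card ≤ w.length → ∀ m : ℕ, ∀ q, S.le k q p →
      ∃ r, S.le k r q ∧ ∃ a v, m ≤ v ∧ ∀ ξ ∈ F, r ∈ mts (S.le k) (R w ξ (a, v))) (ξ : K)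
    (q : Cnd K J) (hq : S.le k q p) :
    ∃ r, S.le k r q ∧ ∀ r', S.le k r' r → ∀ w x, (r i).st.length ≤ w.length →
      w ++ [x] <+: (r' i).st → r' ∈ mts (S.le k) (R w ξ x) := by
  classical
  obtain ⟨q1, hq1, -, hlen, hF1, hD1⟩ := longer S i q ((q i).F.card + 1)
  have hcard : (insert ξ (q1 i).F).card ≤ (q1 i).st.length := by
    refine (Finset.card_insert_le _ _).trans ?_
    rw [hF1]
    exact hlen
  let a' : Atom K J := ⟨(q1 i).st, insert ξ (q1 i).F, (q1 i).D, hcard⟩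
  let r : Cnd K J := Finsupp.update q1 i a'
  have hri : r i = a' := by simp [r]
  have hrne : ∀ i', i' ≠ i → r i' = q1 i' := by
    intro i' h
    simp [r, h]
  have hr1 : S.le k r q1 := by
    rw [le_def]
    intro i' hi'
    by_cases h : i' = i
    · subst h
      refine Cst_of_st_eq S ?_ ?_ ?_
      · rw [hri]
      · rw [hri]
        exact Finset.subset_insert _ _
      · rw [hri]
    · exact Cst_of_eq S (hrne i' h)
  have hrq : S.le k r q := le_trans' S k _ _ _ hr1 (hq1 k)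
  refine ⟨r, hrq, ?_⟩
  intro r' hr' w x hwl hpre
  obtain ⟨c1, c2, c3, c4⟩ := (le_def S k r' r).1 hr' i hik
  have hw : (r i).st <+: w :=
    List.prefix_of_prefix_length_le c1 ((List.prefix_append w [x]).trans hpre) hwl
  have hPR : r' ∈ PR (S.le i) (S.rho i) w x ξ := by
    refine (c4 w x hw hpre).1 ξ ?_
    rw [hri]
    exact Finset.mem_insert_self _ _
  rw [← hR2]
  apply mts_of_dense (nice_level S k)
  intro t ht
  have htp : S.le k t p :=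
    le_trans' S k _ _ _ ht (le_trans' S k _ _ _ hr' (le_trans' S k _ _ _ hrq hq))
  have hlk : t ∈ Linked (S.le i) (S.rho i) w := by
    intro F hF m q' hq'
    have hu : S.le k (am i q' t) t := am_le S hq' k
    obtain ⟨s, hs, a, v, hmv, hall⟩ := hlink w F hF m (am i q' t) (le_trans' S k _ _ _ hu htp)
    refine ⟨s, le_trans' S i _ _ _ (le_mono S hik.le hs) (am_le_left S le_rfl q' t), a, v, hmv, ?_⟩
    intro ξ' hξ'
    have h1 := hall ξ' hξ'
    rw [← hR2] at h1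
    exact (mts_abs S hik.le (hR1 w ξ' (a, v)) s).1 h1
  obtain ⟨t', ht', ht''⟩ := hPR t (le_mono S hik.le ht) hlk
  refine ⟨am i t' t, am_le S ht' k, ?_⟩
  refine (mts_abs S hik.le (hR1 w ξ x) _).2 ?_
  exact mts_down (nice_level S i) _ t' ht'' _ (am_le_left S le_rfl t' t)


theorem gen_h (S : Sys K J) {i k : J} (hik : i < k) (h : List (ℕ × ℕ) → ℕ → Set (Cnd K J)) (d : J)
    (hh1 : ∀ w v, ∀ s ∈ S.phi d w v, Blw i s)
    (hh2 : ∀ w v, mts (S.le k) (S.phi d w v) = mts (S.le k) (h w v)) (p : Cnd K J)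
    (htot : ∀ w : List (ℕ × ℕ), ∀ q, S.le k q p → ∃ r, S.le k r q ∧ ∃ v, r ∈ mts (S.le k) (h w v))
    (q : Cnd K J) (hq : S.le k q p) :
    ∃ r, S.le k r q ∧ ∀ r', S.le k r' r → ∀ w x, (r i).st.length ≤ w.length →
      w ++ [x] <+: (r' i).st → ∃ r'', S.le k r'' r' ∧ ∃ v ≤ x.2, r'' ∈ mts (S.le k) (h w v) := by
  classical
  set a : Atom K J := ⟨(q i).st, (q i).F, insert d (q i).D, (q i).h⟩ with ha
  set r : Cnd K J := q.update i a with hr
  have hri : r i = a := by rw [hr]; simp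
  have hrne : ∀ i', i' ≠ i → r i' = q i' := by
    intro i' hi'
    rw [hr, Finsupp.coe_update, Function.update_of_ne hi']
  have hrq : S.le k r q := by
    rw [le_def]
    intro i' _
    by_cases hi' : i' = i
    · subst hi'
      apply Cst_of_st_eq S
      · rw [hri]
      · rw [hri]
      · rw [hri]; exact Finset.subset_insert _ _
    · exact Cst_of_eq S (hrne i' hi')
  refine ⟨r, hrq, ?_⟩
  intro r' hr' w x hlen hx
  obtain ⟨a1, a2, a3, a4⟩ := (le_def S k r' r).1 hr' i hik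
  have hrw : (r i).st <+: w :=
    List.prefix_of_prefix_length_le a1 ((List.prefix_append w [x]).trans hx) hlen
  have hPD := (a4 w x hrw hx).2 d (by rw [hri]; exact Finset.mem_insert_self _ _)
  obtain ⟨t, ht, v, htv⟩ := htot w r' (le_trans' S k _ _ _ hr' (le_trans' S k _ _ _ hrq hq))
  rw [← hh2, mts_abs S hik.le (hh1 w v)] at htv
  obtain ⟨t', ht', v', hv', htv'⟩ := hPD t (le_mono S hik.le ht) ⟨v, htv⟩
  refine ⟨am i t' t, le_trans' S k _ _ _ (am_le S ht' k) ht, v', hv', ?_⟩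
  rw [← hh2, mts_abs S hik.le (hh1 w v')]
  intro u hu
  exact htv' u (le_trans' S i _ _ _ hu (am_le_left S le_rfl t' t))


theorem has_gen (S : Sys K J) {k : J} (hk : Cof k) (hK : #K ≤ ℵ_ 2)
    (hphi : ∀ f : List (ℕ × ℕ) → ℕ → Set (Cnd K J), (∀ w v, (f w v).Countable) →
      ∃ d, S.phi d = f)
    (hrho : ∀ R : List (ℕ × ℕ) → K → ℕ × ℕ → Set (Cnd K J), (∀ w ξ x, (R w ξ x).Countable) →
      ∀ b, b < k → ∃ i, b ≤ i ∧ i < k ∧ S.rho i = R) : HasGen (Lv S k) K := by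
  classical
  intro R h p hlink htot
  have hc : #(List (ℕ × ℕ)) ≤ ℵ_ 2 := (mk_le_aleph0 (α := List (ℕ × ℕ))).trans (aleph0_le_aleph 2)
  have h0 : ℵ₀ ≤ ℵ_ 2 := aleph0_le_aleph 2
  have hN : #ℕ ≤ ℵ_ 2 := (mk_le_aleph0 (α := ℕ)).trans h0
  have hNN : #(ℕ × ℕ) ≤ ℵ_ 2 := (mk_le_aleph0 (α := ℕ × ℕ)).trans h0
  have hprod : ∀ A B : Type, #A ≤ ℵ_ 2 → #B ≤ ℵ_ 2 → #(A × B) ≤ ℵ_ 2 := by
    intro A B hA hB
    rw [mk_prod, lift_id, lift_id]
    exact (mul_le_mul' hA hB).trans (mul_eq_self h0).le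
  have hT1 : #(List (ℕ × ℕ) × K × (ℕ × ℕ)) ≤ ℵ_ 2 := hprod _ _ hc (hprod _ _ hK hNN)
  have hT2 : #(List (ℕ × ℕ) × ℕ) ≤ ℵ_ 2 := hprod _ _ hc hN
  obtain ⟨b1, hb1, R', hR'⟩ := ctbl_names S hk hT1 (fun t => R t.1 t.2.1 t.2.2)
  obtain ⟨b2, hb2, h', hh'⟩ := ctbl_names S hk hT2 (fun t => h t.1 t.2)
  obtain ⟨i, hbi, hik, hi⟩ := hrho (fun w ξ x => R' (w, ξ, x)) (fun w ξ x => (hR' _).1)
    (max b1 b2) (max_lt hb1 hb2)
  obtain ⟨d, hd⟩ := hphi (fun w v => h' (w, v)) (fun w v => (hh' _).1)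
  refine ⟨fun q => (show Cnd K J from q) i |>.st, ?_, ?_, ?_, ?_⟩
  · intro q r hr
    exact ((le_def S k r q).1 hr i hik).1
  · intro q m
    obtain ⟨r, h1, _, x, h3, h4, _⟩ := step_ext S i q m
    exact ⟨r, h1 k, x, h3, h4⟩
  · intro ξ q hq
    exact gen_R S hik R (by
        intro w ξ x s hs
        rw [hi] at hs
        exact blw_mono ((le_max_left b1 b2).trans hbi) ((hR' _).2.1 s hs))
      (by
        intro w ξ x
        rw [hi]
        exact (hR' (w, ξ, x)).2.2) p hlink ξ q hq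
  · intro q hq
    exact gen_h S hik h d (by
        intro w v s hs
        rw [hd] at hs
        exact blw_mono ((le_max_right b1 b2).trans hbi) ((hh' _).2.1 s hs))
      (by
        intro w v
        rw [hd]
        exact (hh' (w, v)).2.2) p htot q hq


theorem zok (S : Sys K J) {j k : J} (hjk : j < k) {Ω : Type} [LinearOrder Ω]
    (x : Ω → RName (Lv S k)) (q : Ω → Lv S k) (hx : ∀ α, q α ∈ IsReal (x α))
    (hne : ∀ α β, β < α → q α ∈ RealNe (x α) (x β)) (M : Ω → ℕ → ℤ → Set (Cnd K J))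
    (hM : ∀ α v c, ∀ s ∈ M α v c, Blw j s)
    (hMx : ∀ α v c, mts (S.le k) (M α v c) = mts (S.le k) (x α v c)) :
    Zok S j (fun α v c => mts (S.le k) (x α v c)) q := by
  have hlv : ∀ α v c (r r' : Cnd K J), S.le j r' r → r ∈ mts (S.le k) (x α v c) →
      r' ∈ mts (S.le k) (x α v c) := by
    intro α v c r r' h hr
    rw [← hMx] at hr ⊢
    rw [mts_abs S hjk.le (hM α v c)] at hr ⊢
    exact mts_down (nice_level S j) _ r hr r' h
  have key : ∀ α (r : Cnd K J), S.le j r (q α) → ∃ r1 : Lv S k, r1 ≤ q α ∧ S.le j r1 r := 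
    fun α r h => ⟨am j r (q α), am_le S h k, am_le_left S le_rfl r _⟩
  have main : ∀ α β (r : Cnd K J), β < α → S.le j r (q α) → S.le j r (q β) →
      ∃ r', S.le j r' r ∧ ∃ v c c', c ≠ c' ∧ r' ∈ mts (S.le k) (x α v c) ∧
        r' ∈ mts (S.le k) (x β v c') := by
    intro α β r hβ h _
    obtain ⟨r1, h1, h2⟩ := key α r h
    obtain ⟨r2, hr2, v, hv⟩ := mem_fex.1 (hne α β hβ) r1 h1
    obtain ⟨r3, hr3, c, hc⟩ := mem_fex.1 hv r2 le_rfl
    obtain ⟨r4, hr4, c', hc1, hc2, hc3⟩ := mem_fex.1 hc r3 le_rfl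
    exact ⟨r4, le_trans' S j _ _ _ (le_mono S hjk.le (hr4.trans (hr3.trans hr2))) h2,
      v, c, c', hc1, hc2, hc3⟩
  refine ⟨fun α v c r hr r' h => hlv α v c r r' h hr, ?_, ?_, ?_, ?_⟩
  · intro α r h v
    obtain ⟨r1, h1, h2⟩ := key α r h
    have hreal : r1 ∈ IsReal (x α) := (reglr_IsReal _).1 _ (hx α) r1 h1
    obtain ⟨r2, h4, c, h5⟩ := IsFun.total hreal.1 v
    exact ⟨r2, le_trans' S j _ _ _ (le_mono S hjk.le h4) h2, c, h5⟩
  · intro α r h v c c' hc hc'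
    obtain ⟨r1, h1, h2⟩ := key α r h
    have hreal : r1 ∈ IsReal (x α) := (reglr_IsReal _).1 _ (hx α) r1 h1
    exact IsFun.unique hreal.1 (hlv α v c r r1 h2 hc) (hlv α v c' r r1 h2 hc')
  · intro α r h v v' c c' hv hc hc'
    obtain ⟨r1, h1, h2⟩ := key α r h
    have hreal : r1 ∈ IsReal (x α) := (reglr_IsReal _).1 _ (hx α) r1 h1
    exact real_nest hreal hv (hlv α v c r r1 h2 hc) (hlv α v' c' r r1 h2 hc')
  · intro α β r hne' hα hβ
    rcases lt_or_gt_of_ne hne' with h | h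
    · obtain ⟨r', h1, v, c, c', h2, h3, h4⟩ := main β α r h hβ hα
      exact ⟨r', h1, v, c', c, h2.symm, h4, h3⟩
    · exact main α β r h hα hβ


theorem has_big (S : Sys K J) {k : J} (hk : Cof k) {Ω : Type} [LinearOrder Ω] (hΩ : Reg Ω)
    (hΩc : #Ω ≤ ℵ_ 2) (hK : #K ≤ ℵ_ 1)
    (hphi : ∀ f : List (ℕ × ℕ) → ℕ → Set (Cnd K J), (∀ w v, (f w v).Countable) →
      ∃ d, S.phi d = f) : HasBig (Lv S k) Ω := by
  intro x q hx hne
  have hT : #(Ω × ℕ × ℤ) ≤ ℵ_ 2 := by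
    have h0 : ℵ₀ ≤ ℵ_ 2 := Cardinal.aleph0_le_aleph 2
    have h1 : #(ℕ × ℤ) ≤ ℵ₀ := Cardinal.mk_le_aleph0
    rw [Cardinal.mk_prod, Cardinal.lift_id, Cardinal.lift_id]
    calc #Ω * #(ℕ × ℤ) ≤ ℵ_ 2 * ℵ_ 2 := mul_le_mul' hΩc (h1.trans h0)
      _ = ℵ_ 2 := Cardinal.mul_eq_self h0
  obtain ⟨b, hbk, N', hN'⟩ := ctbl_names S hk hT
    (fun t : Ω × ℕ × ℤ => (x t.1 t.2.1 t.2.2 : Set (Cnd K J)))
  have hz : Zok S b (fun α v c => mts (S.le k) (x α v c)) q :=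
    zok S hbk x q hx hne (fun α v c => N' (α, v, c)) (fun α v c => (hN' (α, v, c)).2.1)
      (fun α v c => (hN' (α, v, c)).2.2)
  have hP := pres_all hΩ hK (nice_level S) hphi hz k hbk
  let stm : Cnd K J → List (ℕ × ℕ) := fun t => (t b).st
  refine ⟨stm, ?_, ?_, ?_⟩
  · intro q r hrq
    exact ((le_def S k r q).1 hrq b hbk).1
  · intro q n
    obtain ⟨r, h1, _, h2, _, _⟩ := longer S b q (n + 1)
    exact ⟨r, h1 k, h2⟩
  · intro A hA hAq r hr
    exact hP A hA (fun α r hr => le_mono S hbk.le (hAq α r hr)) r hr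

theorem al12_om : (ℵ_ 2 : Cardinal.{0}) = Order.succ (ℵ_ 1) := by
  rw [Cardinal.succ_aleph, one_add_one_eq_two]


theorem exists_Om : ∃ (Ω : Type) (_ : LinearOrder Ω) (_ : WellFoundedLT Ω), Reg Ω ∧
    #Ω ≤ ℵ_ 2 ∧ ∀ α : Ω, #(Set.Iio α) ≤ ℵ_ 1 := by
  have hreg : Cardinal.IsRegular (ℵ_ 2) := by
    have := Cardinal.isRegular_aleph_add_one 1
    rwa [one_add_one_eq_two] at this
  refine ⟨(ℵ_ 2 : Cardinal.{0}).ord.ToType, inferInstance, inferInstance, ?_, by simp, ?_⟩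
  · intro S hS g
    by_contra hcon
    push Not at hcon
    have hcof : IsCofinal (Set.range g) := by
      intro β
      obtain ⟨s, hs⟩ := hcon β
      exact ⟨g s, ⟨s, rfl⟩, hs⟩
    have h1 := Order.cof_le hcof
    rw [Ordinal.cof_toType, hreg.cof_ord] at h1
    have h2 : #(Set.range g) ≤ #S := mk_range_le
    have h3 : (ℵ_ 2 : Cardinal.{0}) ≤ ℵ_ 1 := h1.trans (h2.trans hS)
    rw [al12_om] at h3
    exact absurd h3 (not_le.2 (Order.lt_succ _))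
  · intro α
    have h1 : #(Set.Iio α) < ℵ_ 2 := Cardinal.mk_Iio_toType_ord_lt α
    exact Order.lt_succ_iff.1 (h1.trans_eq al12_om)

/-- families of at most `ℵ₂` elements of `ω₃` are strictly bounded -/
theorem exists_J_aux (T : Type) (hT : #T ≤ ℵ_ 2) (g : T → (ℵ_ 3 : Cardinal.{0}).ord.ToType) :
    ∃ a, ∀ t, g t < a := by
  have h3 : (ℵ_ 3 : Cardinal.{0}) = Order.succ (ℵ_ 2) := by
    rw [succ_aleph]
    congr 1
  have hreg : (ℵ_ 3 : Cardinal.{0}).IsRegular := by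
    rw [h3]
    exact isRegular_succ (aleph0_le_aleph 2)
  have hcof : Order.cof (ℵ_ 3 : Cardinal.{0}).ord.ToType = ℵ_ 3 := by
    rw [Ordinal.cof_toType, hreg.cof_ord]
  by_contra hcon
  push Not at hcon
  have hc : IsCofinal (Set.range g) := by
    intro a
    obtain ⟨t, ht⟩ := hcon a
    exact ⟨g t, ⟨t, rfl⟩, ht⟩
  have h1 := Order.cof_le hc
  rw [hcof] at h1
  have h2 : #(Set.range g) ≤ #T := mk_range_le
  have h4 : ℵ_ 3 ≤ ℵ_ 2 := h1.trans (h2.trans hT)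
  rw [h3] at h4
  exact absurd h4 (not_le.mpr (Order.lt_succ _))


theorem exists_J : ∃ (J : Type) (_ : LinearOrder J) (_ : WellFoundedLT J) (k : J) (M : Type)
    (c : J → M), #J ≤ 2 ^ ℵ_ 2 ∧ #M = 2 ^ ℵ_ 2 ∧ Cof k ∧
      ∀ b, b < k → ∀ m, ∃ i, b ≤ i ∧ i < k ∧ c i = m := by
  have h3 : (ℵ_ 3 : Cardinal.{0}) = Order.succ (ℵ_ 2) := by
    rw [succ_aleph]
    congr 1
  have h32 : ℵ_ 3 ≤ 2 ^ ℵ_ 2 := by
    rw [h3, Order.succ_le_iff]
    exact cantor _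
  have hM : #(2 ^ ℵ_ 2 : Cardinal.{0}).ord.ToType = 2 ^ ℵ_ 2 := mk_ord_toType _
  have hinf : ℵ₀ ≤ (2 ^ ℵ_ 2 : Cardinal.{0}) := (aleph0_le_aleph 3).trans h32
  obtain ⟨m0, hm0⟩ : ∃ m0 : (2 ^ ℵ_ 2 : Cardinal.{0}).ord.ToType, ∀ m, m0 ≤ m := by
    have hne : Nonempty (2 ^ ℵ_ 2 : Cardinal.{0}).ord.ToType := by
      rw [← mk_ne_zero_iff, hM]
      exact (lt_of_lt_of_le aleph0_pos hinf).ne'
    obtain ⟨m0, -, hm0⟩ := WellFounded.has_min
      (wellFounded_lt (α := (2 ^ ℵ_ 2 : Cardinal.{0}).ord.ToType)) Set.univ Set.univ_nonempty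
    exact ⟨m0, fun m => not_lt.mp (hm0 m trivial)⟩
  refine ⟨(WithTop (ℵ_ 3 : Cardinal.{0}).ord.ToType) ×ₗ (2 ^ ℵ_ 2 : Cardinal.{0}).ord.ToType, inferInstance,
    inferInstance, toLex (⊤, m0), (2 ^ ℵ_ 2 : Cardinal.{0}).ord.ToType, fun i => (ofLex i).2,
    ?_, hM, ?_, ?_⟩
  · have h1 : #((WithTop (ℵ_ 3 : Cardinal.{0}).ord.ToType) ×ₗ (2 ^ ℵ_ 2 : Cardinal.{0}).ord.ToType) =
        #(WithTop (ℵ_ 3 : Cardinal.{0}).ord.ToType) * #(2 ^ ℵ_ 2 : Cardinal.{0}).ord.ToType :=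
      (mk_congr (ofLex)).trans (by rw [mk_prod, lift_id, lift_id])
    rw [h1, hM]
    have h2 : #(WithTop (ℵ_ 3 : Cardinal.{0}).ord.ToType) ≤ 2 ^ ℵ_ 2 := by
      have h4 : #(WithTop (ℵ_ 3 : Cardinal.{0}).ord.ToType) = #(ℵ_ 3 : Cardinal.{0}).ord.ToType + 1 := mk_option
      rw [h4, mk_ord_toType]
      exact add_le_of_le hinf h32 (one_le_aleph0.trans hinf)
    exact mul_le_of_le hinf h2 le_rfl
  · intro T hT f hf
    have h1 : ∀ t, ∃ θ : (ℵ_ 3 : Cardinal.{0}).ord.ToType, (ofLex (f t)).1 = (θ : WithTop (ℵ_ 3 : Cardinal.{0}).ord.ToType) := by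
      intro t
      have h2 := hf t
      rw [Prod.Lex.lt_iff] at h2
      rcases h2 with h2 | h2
      · have h3 : (ofLex (f t)).1 < ⊤ := h2
        exact ⟨_, (WithTop.coe_untop _ h3.ne).symm⟩
      · exact absurd h2.2 (not_lt.mpr (hm0 _))
    choose g hg using h1
    obtain ⟨a, ha⟩ := exists_J_aux T hT g
    refine ⟨toLex ((a : WithTop (ℵ_ 3 : Cardinal.{0}).ord.ToType), m0), ?_, ?_⟩
    · rw [Prod.Lex.lt_iff]
      left
      exact WithTop.coe_lt_top a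
    · intro t
      rw [Prod.Lex.lt_iff]
      left
      rw [hg t]
      exact WithTop.coe_lt_coe.mpr (ha t)
  · intro b hb m
    rw [Prod.Lex.lt_iff] at hb
    have hθ : ∃ θ : (ℵ_ 3 : Cardinal.{0}).ord.ToType, (ofLex b).1 = (θ : WithTop (ℵ_ 3 : Cardinal.{0}).ord.ToType) := by
      rcases hb with h2 | h2
      · have h3 : (ofLex b).1 < ⊤ := h2
        exact ⟨_, (WithTop.coe_untop _ h3.ne).symm⟩
      · exact absurd h2.2 (not_lt.mpr (hm0 _))
    obtain ⟨θ, hθ⟩ := hθ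
    obtain ⟨a, ha⟩ := exists_J_aux Unit (by
      rw [mk_unit]
      exact one_le_aleph0.trans (aleph0_le_aleph 2)) (fun _ => θ)
    refine ⟨toLex ((a : WithTop (ℵ_ 3 : Cardinal.{0}).ord.ToType), m), ?_, ?_, rfl⟩
    · apply le_of_lt
      rw [Prod.Lex.lt_iff]
      left
      rw [hθ]
      exact WithTop.coe_lt_coe.mpr (ha ())
    · rw [Prod.Lex.lt_iff]
      left
      exact WithTop.coe_lt_top a

theorem card_cnd_finset (X : Type) {κ : Cardinal} (hκ : ℵ₀ ≤ κ) (hX : #X ≤ κ) :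
    #(Finset X) ≤ κ := by
  classical
  have h1 : #(Finset X) ≤ #(List X) := by
    apply Cardinal.mk_le_of_surjective (f := fun l : List X => l.toFinset)
    intro F
    exact ⟨F.toList, by simp⟩
  exact h1.trans ((Cardinal.mk_list_le_max X).trans (max_le hκ hX))


theorem card_cnd {K J : Type} (hK : #K ≤ ℵ_ 2) (hJ : #J ≤ 2 ^ ℵ_ 2) :
    #(Cnd K J) ≤ 2 ^ ℵ_ 2 := by
  have hκ : ℵ₀ ≤ (2 : Cardinal) ^ ℵ_ 2 :=
    (Cardinal.aleph0_le_aleph 2).trans (Cardinal.cantor _).le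
  have hK' : #K ≤ 2 ^ ℵ_ 2 := hK.trans (Cardinal.cantor _).le
  have hA : #(Atom K J) ≤ 2 ^ ℵ_ 2 := by
    have h1 : #(Atom K J) ≤ #(List (ℕ × ℕ) × Finset K × Finset J) := by
      apply Cardinal.mk_le_of_injective (f := fun a : Atom K J => (a.st, a.F, a.D))
      intro a b hab
      cases a; cases b
      simp only [Prod.mk.injEq] at hab
      obtain ⟨h1, h2, h3⟩ := hab
      subst h1; subst h2; subst h3
      rfl
    have h2 : #(List (ℕ × ℕ)) ≤ 2 ^ ℵ_ 2 := (Cardinal.mk_le_aleph0).trans hκ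
    have h3 := card_cnd_finset K hκ hK'
    have h4 := card_cnd_finset J hκ hJ
    refine h1.trans ?_
    rw [Cardinal.mk_prod, Cardinal.mk_prod, Cardinal.lift_id, Cardinal.lift_id, Cardinal.lift_id,
      Cardinal.lift_id]
    calc #(List (ℕ × ℕ)) * (#(Finset K) * #(Finset J))
        ≤ 2 ^ ℵ_ 2 * (2 ^ ℵ_ 2 * 2 ^ ℵ_ 2) := by gcongr
      _ = 2 ^ ℵ_ 2 := by
        rw [Cardinal.mul_eq_self hκ, Cardinal.mul_eq_self hκ]
  have h5 : #(Cnd K J) ≤ #(Finset (J × Atom K J)) :=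
    Cardinal.mk_le_of_injective (f := Finsupp.graph) (Finsupp.graph_injective J (Atom K J))
  refine h5.trans (card_cnd_finset _ hκ ?_)
  rw [Cardinal.mk_prod, Cardinal.lift_id, Cardinal.lift_id]
  calc #J * #(Atom K J) ≤ 2 ^ ℵ_ 2 * 2 ^ ℵ_ 2 := by gcongr
    _ = 2 ^ ℵ_ 2 := Cardinal.mul_eq_self hκ


theorem surj_codes {X A M : Type} (hX : #X ≤ 2 ^ ℵ_ 2) (hA : #A ≤ ℵ_ 2) (hM : #M = 2 ^ ℵ_ 2) :
    ∃ f : M → A → Set X, ∀ N : A → Set X, (∀ a, (N a).Countable) → ∃ m, f m = N := by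
  classical
  have hinf : ℵ₀ ≤ (2 : Cardinal) ^ ℵ_ 2 :=
    (aleph0_le_aleph 2).trans (cantor (ℵ_ 2)).le
  have h1 : #(Option X) ≤ 2 ^ ℵ_ 2 := by
    rw [mk_option]
    exact add_le_of_le hinf hX ((one_le_aleph0).trans hinf)
  have h2 : #(A → ℕ → Option X) ≤ #M := by
    rw [hM]
    have e1 : #(A → ℕ → Option X) = (#(Option X) ^ #ℕ) ^ #A := by
      rw [power_def, power_def]
    rw [e1, mk_nat, ← power_mul]
    calc #(Option X) ^ (ℵ₀ * #A) ≤ (2 ^ ℵ_ 2) ^ (ℵ₀ * #A) := power_le_power_right h1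
      _ = 2 ^ (ℵ_ 2 * (ℵ₀ * #A)) := (power_mul).symm
      _ ≤ 2 ^ (ℵ_ 2) := by
          apply power_le_power_left two_ne_zero
          calc ℵ_ 2 * (ℵ₀ * #A) ≤ ℵ_ 2 * (ℵ_ 2 * ℵ_ 2) := by
                gcongr
                exact aleph0_le_aleph 2
            _ = ℵ_ 2 := by
                rw [mul_eq_self (aleph0_le_aleph 2), mul_eq_self (aleph0_le_aleph 2)]
  obtain ⟨i⟩ := (Cardinal.le_def _ _).1 h2
  set e : M → (A → ℕ → Option X) := Function.invFun i with he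
  have hes : Function.Surjective e := Function.invFun_surjective i.injective
  refine ⟨fun m a => {x | ∃ n, e m a n = some x}, fun N hN => ?_⟩
  have hg : ∀ a, ∃ g : ℕ → Option X, {x | ∃ n, g n = some x} = N a := by
    intro a
    rcases (N a).eq_empty_or_nonempty with h | h
    · refine ⟨fun _ => none, ?_⟩
      rw [h]; simp
    · obtain ⟨g, hg⟩ := (hN a).exists_eq_range h
      refine ⟨fun n => some (g n), ?_⟩
      rw [hg]
      ext x
      simp [Set.mem_range]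
  choose g hg using hg
  obtain ⟨m, hm⟩ := hes g
  refine ⟨m, ?_⟩
  funext a
  show {x | ∃ n, e m a n = some x} = N a
  rw [hm]
  exact hg a


theorem exists_sys : ∃ (K J Ω : Type) (_ : LinearOrder J) (_ : WellFoundedLT J)
    (_ : LinearOrder Ω) (_ : WellFoundedLT Ω) (S : Sys K J) (k : J),
    #K = ℵ_ 1 ∧ Reg Ω ∧ #Ω ≤ ℵ_ 2 ∧ (∀ α : Ω, #(Set.Iio α) ≤ ℵ_ 1) ∧ Cof k ∧
    (∀ f : List (ℕ × ℕ) → ℕ → Set (Cnd K J), (∀ w v, (f w v).Countable) → ∃ d, S.phi d = f) ∧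
    (∀ R : List (ℕ × ℕ) → K → ℕ × ℕ → Set (Cnd K J), (∀ w ξ x, (R w ξ x).Countable) →
      ∀ b, b < k → ∃ i, b ≤ i ∧ i < k ∧ S.rho i = R) := by
  have h12 : ℵ_ 1 ≤ ℵ_ 2 := Cardinal.aleph_le_aleph.mpr (by norm_num)
  have h02 : ℵ₀ ≤ ℵ_ 2 := Cardinal.aleph0_le_aleph 2
  obtain ⟨Ω, i1, i2, hΩ1, hΩ2, hΩ3⟩ := exists_Om
  obtain ⟨J, j1, j2, k, M, c, hJ, hM, hcof, hc⟩ := exists_J
  have hK : #((ℵ_ 1 : Cardinal.{0}).out) = ℵ_ 1 := Cardinal.mk_out _
  have hX : #(Cnd (ℵ_ 1 : Cardinal.{0}).out J) ≤ 2 ^ ℵ_ 2 := card_cnd (hK.le.trans h12) hJ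
  have hA1 : #(List (ℕ × ℕ) × ℕ) ≤ ℵ_ 2 := Cardinal.mk_le_aleph0.trans h02
  have hA2 : #(List (ℕ × ℕ) × (ℵ_ 1 : Cardinal.{0}).out × (ℕ × ℕ)) ≤ ℵ_ 2 := by
    rw [Cardinal.mk_prod, Cardinal.mk_prod]
    simp only [Cardinal.lift_id]
    refine Cardinal.mul_le_of_le h02 (Cardinal.mk_le_aleph0.trans h02) ?_
    exact Cardinal.mul_le_of_le h02 (hK.le.trans h12) (Cardinal.mk_le_aleph0.trans h02)
  obtain ⟨f, hf⟩ := surj_codes hX hA1 hM
  obtain ⟨g, hg⟩ := surj_codes hX hA2 hM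
  obtain ⟨b0, hb0, -⟩ := hcof Empty (by simp) (fun t => t.elim) (fun t => t.elim)
  refine ⟨(ℵ_ 1 : Cardinal.{0}).out, J, Ω, j1, j2, i1, i2,
    ⟨fun i w v => f (c i) (w, v), fun i w ξ x => g (c i) (w, ξ, x)⟩, k, hK, hΩ1, hΩ2, hΩ3, hcof,
    ?_, ?_⟩
  · intro F hF
    obtain ⟨m, hm⟩ := hf (fun a => F a.1 a.2) (fun a => hF _ _)
    obtain ⟨i, -, -, hi⟩ := hc b0 hb0 m
    refine ⟨i, ?_⟩
    funext w v
    show f (c i) (w, v) = F w v
    rw [hi, hm]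
  · intro R hR b hb
    obtain ⟨m, hm⟩ := hg (fun a => R a.1 a.2.1 a.2.2) (fun a => hR _ _ _)
    obtain ⟨i, h1, h2, hi⟩ := hc b hb m
    refine ⟨i, h1, h2, ?_⟩
    funext w ξ x
    show g (c i) (w, ξ, x) = R w ξ x
    rw [hi, hm]


theorem final : ∃ (P : Type) (_ : Preorder P), Nonempty P ∧ CCC P ∧ ∀ p : P,
    p ∈ fand
      (fex fun E : Type => fex fun X : E → RName P =>
        fand (fall fun e => IsReal (X e)) (fand (NotCountable X) (GammaSet X)))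
      (fall fun E : Type => fall fun X : E → RName P => fall fun E' : Type =>
        fall fun Y : E' → RName P =>
          fimp (fand (fand (fall fun e => IsReal (X e)) (fall fun e => IsReal (Y e)))
            (fand (GammaSet X) (DimZero Y))) (DimZeroProd X Y)) := by
  obtain ⟨K, J, Ω, _, _, _, _, S, k, hK, hΩ, hΩc, hΩ', hk, hphi, hrho⟩ := exists_sys
  have h12 : ℵ_ 1 ≤ ℵ_ 2 := aleph_le_aleph.2 (by norm_num)
  exact ⟨Lv S k, inferInstance, inferInstance, ccc_level S k, fun p =>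
    main_abs (ccc_level S k) hΩ hK hΩ' (has_big S hk hΩ hΩc hK.le hphi)
      (has_gen S hk (hK.le.trans h12) hphi hrho) p⟩

end Fin

end Pool.Agent.Helper161.Gam
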